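import Pool.Agent.Lib.MP_82ac4a_mp.Fold30

namespace Pool.Agent.Lib.MP_82ac4a_mp

/-- The value of u on the radial line j. -/
lemma uu_line {R j v : ℝ} (hj : 0 ≤ j) (hv : 0 ≤ v) : uu R (j + min j v) (R + v) = j := by
  unfold uu
  have h1 : max (R + v - R) 0 = v := by
    rw [show R + v - R = v by ring]; exact max_eq_left hv
  rw [h1]
  rcases le_total j v with h | h
  · rw [min_eq_left h, show (j + j) / 2 = j by ring, min_eq_left h]; ring
  · rw [min_eq_right h, min_eq_right (by linarith)]; ring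

/-- u is strictly increasing in x. -/
lemma uu_strict {R x x' y : ℝ} (h : x < x') : uu R x y < uu R x' y := by
  unfold uu
  rcases min_cases (x / 2) (max (y - R) 0) with ⟨h1, h2⟩ | ⟨h1, h2⟩ <;>
    rcases min_cases (x' / 2) (max (y - R) 0) with ⟨h3, h4⟩ | ⟨h3, h4⟩ <;> linarith

lemma uu_ne {R x x' y : ℝ} (h : x ≠ x') : uu R x y ≠ uu R x' y := by
  rcases lt_or_gt_of_ne h with h | h
  · exact ne_of_lt (uu_strict h)
  · exact ne_of_gt (uu_strict h)

lemma uu_zero {R y : ℝ} : uu R 0 y = 0 := by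
  unfold uu
  rw [zero_div, min_eq_left (le_max_right _ _)]; ring

lemma uu_diag {R y : ℝ} (h1 : R ≤ y) (h2 : y ≤ 2 * R) : uu R y y = R := by
  unfold uu
  rw [max_eq_left (by linarith), min_eq_right (by linarith)]; ring

lemma wid_ring {M r : ℕ} (h1 : 2 * M ≤ r) (h2 : r < 4 * M) : wid M r = 1 := by
  simp [wid, h1, h2]

lemma wid_low {M r : ℕ} (h : r < 2 * M) : wid M r = 2 := by
  simp only [wid]; rw [if_neg (by omega)]

lemma wid_high {M r : ℕ} (h : 4 * M ≤ r) : wid M r = 2 := by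
  simp only [wid]; rw [if_neg (by omega)]

lemma wid_pos (M r : ℕ) : 1 ≤ wid M r := by
  unfold wid; split_ifs <;> omega

lemma num_ring {M r : ℕ} (h1 : 2 * M ≤ r) (h2 : r < 4 * M) : num M r = 2 * M := by
  simp only [num]; rw [if_neg (by omega), if_pos h2]

/-- Membership in a ring cell. -/
lemma mem_ring {M r i : ℕ} (h1 : 2 * M ≤ r) (h2 : r < 4 * M) {q : ℝ × ℝ} :
    q ∈ cell M r i ↔ 0 ≤ q.1 ∧ q.1 ≤ q.2 ∧ (r : ℝ) ≤ q.2 ∧ q.2 ≤ r + 1 ∧
      (i : ℝ) ≤ uu (2 * M) q.1 q.2 ∧ uu (2 * M) q.1 q.2 ≤ (i : ℝ) + 1 := by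
  simp only [cell, wid_ring h1 h2, Set.mem_setOf_eq, one_mul, Nat.cast_add, Nat.cast_one]

lemma mem_two {M r i : ℕ} (h : wid M r = 2) {q : ℝ × ℝ} :
    q ∈ cell M r i ↔ 0 ≤ q.1 ∧ q.1 ≤ q.2 ∧ (r : ℝ) ≤ q.2 ∧ q.2 ≤ r + 1 ∧
      2 * (i : ℝ) ≤ uu (2 * M) q.1 q.2 ∧ uu (2 * M) q.1 q.2 ≤ 2 * ((i : ℝ) + 1) := by
  simp only [cell, h, Set.mem_setOf_eq, Nat.cast_mul, Nat.cast_ofNat, Nat.cast_add, Nat.cast_one]

/-- Two distinct points in a ring cell and in another cell of the same triangle. -/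
lemma grid_adj {M r i r' i' : ℕ} (h1 : 2 * M ≤ r) (h2 : r < 4 * M) (hi : i < 2 * M)
    {q q' : ℝ × ℝ} (hq : q ∈ cell M r i) (hq' : q' ∈ cell M r i)
    (kq : q ∈ cell M r' i') (kq' : q' ∈ cell M r' i') (hne : q ≠ q') (hd : ¬ (r' = r ∧ i' = i)) :
    (r' = r ∧ (i' = i + 1 ∨ i' + 1 = i)) ∨
    (r' = r + 1 ∧ i' = if r + 1 = 4 * M then i / 2 else i) ∨
    (r' + 1 = r ∧ i' = if r = 2 * M then i / 2 else i) := by
  rw [mem_ring h1 h2] at hq hq'
  obtain ⟨-, -, a3, a4, a5, a6⟩ := hq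
  obtain ⟨-, -, b3, b4, b5, b6⟩ := hq'
  have kq0 := kq
  have kq0' := kq'
  obtain ⟨-, -, c3, c4, -, -⟩ := kq0
  obtain ⟨-, -, d3, d4, -, -⟩ := kq0'
  have r1 : r' ≤ r + 1 := by
    have : (r' : ℝ) ≤ r + 1 := le_trans c3 a4
    exact_mod_cast this
  have r2 : r ≤ r' + 1 := by
    have : (r : ℝ) ≤ r' + 1 := le_trans a3 c4
    exact_mod_cast this
  -- the two cases of the widths
  have w1 : 2 * M ≤ r' → r' < 4 * M → (i' ≤ i + 1 ∧ i ≤ i' + 1) := by
    intro e1 e2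
    rw [mem_ring e1 e2] at kq
    obtain ⟨-, -, -, -, c5, c6⟩ := kq
    constructor
    · have : (i' : ℝ) ≤ i + 1 := le_trans c5 a6
      exact_mod_cast this
    · have : (i : ℝ) ≤ i' + 1 := le_trans a5 c6
      exact_mod_cast this
  have horiz : q.2 = q'.2 → uu (2 * M) q.1 q.2 ≠ uu (2 * M) q'.1 q'.2 := by
    intro h
    rw [← h]
    apply uu_ne
    intro h'
    exact hne (Prod.ext h' h)
  have w1' : q.2 = q'.2 → 2 * M ≤ r' → r' < 4 * M → i' = i := by
    intro h e1 e2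
    obtain ⟨f1, f2⟩ := w1 e1 e2
    rw [mem_ring e1 e2] at kq kq'
    obtain ⟨-, -, -, -, c5, c6⟩ := kq
    obtain ⟨-, -, -, -, d5, d6⟩ := kq'
    have hh := horiz h
    by_contra hc
    rcases Nat.lt_or_ge i' i with g | g
    · have : i' + 1 = i := by omega
      have e : (i : ℝ) = i' + 1 := by exact_mod_cast this.symm
      exact hh (by linarith)
    · have : i' = i + 1 := by omega
      have e : (i' : ℝ) = i + 1 := by exact_mod_cast this
      exact hh (by linarith)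
  have w2' : q.2 = q'.2 → wid M r' = 2 → i' = i / 2 := by
    intro h e
    rw [mem_two e] at kq kq'
    obtain ⟨-, -, -, -, c5, c6⟩ := kq
    obtain ⟨-, -, -, -, d5, d6⟩ := kq'
    have hh := horiz h
    have g1 : (i : ℝ) ≤ 2 * (i' + 1) := le_trans a5 c6
    have g2 : 2 * (i' : ℝ) ≤ i + 1 := le_trans c5 a6
    have g1' : i ≤ 2 * (i' + 1) := by exact_mod_cast g1
    have g2' : 2 * i' ≤ i + 1 := by exact_mod_cast g2
    by_contra hc
    rcases Nat.eq_or_lt_of_le g1' with e1 | e1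
    · have e : (i : ℝ) = 2 * (i' + 1) := by exact_mod_cast e1
      exact hh (by linarith)
    · rcases Nat.eq_or_lt_of_le g2' with e2 | e2
      · have e : 2 * (i' : ℝ) = i + 1 := by exact_mod_cast e2
        exact hh (by linarith)
      · omega
  rcases Nat.lt_trichotomy r' r with hr | hr | hr
  · -- below
    right; right
    have hr' : r' + 1 = r := by omega
    have hrr : (r' : ℝ) + 1 = r := by exact_mod_cast hr'
    have hy : q.2 = q'.2 := by linarith
    refine ⟨hr', ?_⟩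
    split_ifs with h
    · exact w2' hy (wid_low (by omega))
    · exact w1' hy (by omega) (by omega)
  · left
    refine ⟨hr, ?_⟩
    obtain ⟨f1, f2⟩ := w1 (by omega) (by omega)
    omega
  · right; left
    have hr' : r' = r + 1 := by omega
    have hrr : (r' : ℝ) = r + 1 := by exact_mod_cast hr'
    have hy : q.2 = q'.2 := by linarith
    refine ⟨hr', ?_⟩
    split_ifs with h
    · exact w2' hy (wid_high (by omega))
    · exact w1' hy (by omega) (by omega)

/-- Forward direction. -/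
lemma adj_fwd (M : ℕ) (hM : 1 ≤ M) (a b : Idx M) (ha : Ring M a.2) (hab : a ≠ b)
    {p p' : ℝ × ℝ} (h1 : p ∈ tl M a) (h2 : p ∈ tl M b) (h1' : p' ∈ tl M a) (h2' : p' ∈ tl M b)
    (hne : p ≠ p') : IsNb M a b := by
  obtain ⟨g, c, cl⟩ := a
  obtain ⟨g', c', cl'⟩ := b
  obtain ⟨ra, rb⟩ := ha
  simp only [tl, Set.mem_setOf_eq] at h1 h2 h1' h2'
  simp only at ra rb
  have hcl : (cl.1.2 : ℕ) < 2 * M := by
    have := cl.2
    rwa [num_ring ra rb] at this
  have bnd : ∀ q : ℝ × ℝ, q ∈ cell M (cl.1.1 : ℕ) (cl.1.2 : ℕ) →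
      0 < q.2 ∧ q.2 ≤ 4 * M ∧ (2 * M : ℝ) ≤ q.2 := by
    intro q hq
    obtain ⟨-, -, a3, a4, -, -⟩ := hq
    have e1 : (2 * M : ℝ) ≤ (cl.1.1 : ℕ) := by exact_mod_cast ra
    have e2 : ((cl.1.1 : ℕ) : ℝ) + 1 ≤ 4 * M := by
      have : (cl.1.1 : ℕ) + 1 ≤ 4 * M := by omega
      exact_mod_cast this
    have e3 : (1 : ℝ) ≤ M := by exact_mod_cast hM
    exact ⟨by linarith, by linarith, by linarith⟩
  have bnd' : ∀ q : ℝ × ℝ, q ∈ cell M (cl'.1.1 : ℕ) (cl'.1.2 : ℕ) → q.2 ≤ 4 * M + 1 := by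
    intro q hq
    obtain ⟨-, -, -, a4, -, -⟩ := hq
    have e2 : ((cl'.1.1 : ℕ) : ℝ) ≤ 4 * M := by
      have : (cl'.1.1 : ℕ) ≤ 4 * M := by have := cl'.1.1.2; omega
      exact_mod_cast this
    linarith
  have key : ∀ p : ℝ × ℝ, unfold M g c p ∈ cell M (cl.1.1 : ℕ) (cl.1.2 : ℕ) →
      unfold M g' c' p ∈ cell M (cl'.1.1 : ℕ) (cl'.1.2 : ℕ) →
      g' = g ∧ unfold M g' c' p = unfold M g c p ∧ (c' = c ∨
      ((unfold M g c p).1 = 0 ∧ c' = flipx c) ∨
      ((unfold M g c p).1 = (unfold M g c p).2 ∧ c' = flipd c)) := by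
    intro p k1 k2
    obtain ⟨b1, b2, b3⟩ := bnd _ k1
    exact common M g g' c c' p k1.1 k1.2.1 b1 (by linarith) k2.1 k2.2.1 (bnd' _ k2)
  obtain ⟨e1, e2, e3⟩ := key p h1 h2
  obtain ⟨-, f2, f3⟩ := key p' h1' h2'
  rw [e2] at h2
  rw [f2] at h2'
  have hq : unfold M g c p ≠ unfold M g c p' := fun h => hne (unfold_inj M g c h)
  subst e1
  refine ⟨rfl, ?_⟩
  by_cases hc : c' = c
  · subst hc
    have hd : ¬ ((cl'.1.1 : ℕ) = (cl.1.1 : ℕ) ∧ (cl'.1.2 : ℕ) = (cl.1.2 : ℕ)) := by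
      rintro ⟨w1, w2⟩
      apply hab
      have : cl = cl' := by
        apply Subtype.ext
        exact Prod.ext (Fin.ext w1.symm) (Fin.ext w2.symm)
      rw [this]
    rcases grid_adj ra rb hcl h1 h1' h2 h2' hq hd with ⟨w1, w2⟩ | ⟨w1, w2⟩ | ⟨w1, w2⟩
    · left
      exact ⟨rfl, Fin.ext w1, w2⟩
    · right; right; right; left
      exact ⟨rfl, w1, w2⟩
    · right; right; right; right
      exact ⟨rfl, w1, w2⟩
  · -- both points lie on the same side of the triangle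
    have e3' := e3.resolve_left hc
    have f3' := f3.resolve_left hc
    have vert : (unfold M g' c p).1 = (unfold M g' c p').1 ∨
        ((unfold M g' c p).1 = (unfold M g' c p).2 ∧ (unfold M g' c p').1 = (unfold M g' c p').2) →
        (unfold M g' c p).2 ≠ (unfold M g' c p').2 := by
      rintro (h | ⟨h, h'⟩) h3
      · exact hq (Prod.ext h h3)
      · exact hq (Prod.ext (by rw [h, h', h3]) h3)
    have rows : (unfold M g' c p).2 ≠ (unfold M g' c p').2 →
        (cl'.1.1 : ℕ) = (cl.1.1 : ℕ) := by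
      intro h
      obtain ⟨-, -, a3, a4, -, -⟩ := h1
      obtain ⟨-, -, b3, b4, -, -⟩ := h1'
      obtain ⟨-, -, c3, c4, -, -⟩ := h2
      obtain ⟨-, -, d3, d4, -, -⟩ := h2'
      have r1 : (cl'.1.1 : ℕ) ≤ (cl.1.1 : ℕ) + 1 := by
        have := le_trans c3 a4
        exact_mod_cast this
      have r2 : (cl.1.1 : ℕ) ≤ (cl'.1.1 : ℕ) + 1 := by
        have := le_trans a3 c4
        exact_mod_cast this
      by_contra hc
      rcases Nat.lt_or_ge (cl'.1.1 : ℕ) (cl.1.1 : ℕ) with w | w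
      · have w' : (cl'.1.1 : ℕ) + 1 = (cl.1.1 : ℕ) := by omega
        have w'' : ((cl'.1.1 : ℕ) : ℝ) + 1 = ((cl.1.1 : ℕ) : ℝ) := by exact_mod_cast w'
        exact h (by linarith)
      · have w' : (cl'.1.1 : ℕ) = (cl.1.1 : ℕ) + 1 := by omega
        have w'' : ((cl'.1.1 : ℕ) : ℝ) = ((cl.1.1 : ℕ) : ℝ) + 1 := by exact_mod_cast w'
        exact h (by linarith)
    have numc : (cl'.1.1 : ℕ) = (cl.1.1 : ℕ) → (cl'.1.2 : ℕ) < 2 * M := by
      intro h
      have := cl'.2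
      rw [h, num_ring ra rb] at this
      exact this
    rcases e3' with ⟨w1, w2⟩ | ⟨w1, w2⟩
    · have w3 : (unfold M g' c p').1 = 0 := by
        rcases f3' with ⟨u1, -⟩ | ⟨-, u2⟩
        · exact u1
        · exact absurd (w2.symm.trans u2) (flipx_ne_flipd c)
      have hrow := rows (vert (Or.inl (by rw [w1, w3])))
      right; left
      rw [mem_ring ra rb] at h1
      rw [mem_ring (by omega) (by omega)] at h2
      have i0 : (cl.1.2 : ℕ) = 0 := by
        have := h1.2.2.2.2.1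
        rw [w1, uu_zero] at this
        have h' : (cl.1.2 : ℕ) ≤ 0 := by exact_mod_cast this
        omega
      have i0' : (cl'.1.2 : ℕ) = 0 := by
        have := h2.2.2.2.2.1
        rw [w1, uu_zero] at this
        have h' : (cl'.1.2 : ℕ) ≤ 0 := by exact_mod_cast this
        omega
      refine ⟨w2, ?_, i0⟩
      apply Subtype.ext
      exact Prod.ext (Fin.ext hrow) (Fin.ext (by rw [i0, i0']))
    · have w3 : (unfold M g' c p').1 = (unfold M g' c p').2 := by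
        rcases f3' with ⟨-, u2⟩ | ⟨u1, -⟩
        · exact absurd (u2.symm.trans w2) (flipx_ne_flipd c)
        · exact u1
      have hrow := rows (vert (Or.inr ⟨w1, w3⟩))
      right; right; left
      obtain ⟨b1, b2, b3⟩ := bnd _ h1
      have hu : uu (2 * M) (unfold M g' c p).1 (unfold M g' c p).2 = 2 * M := by
        rw [w1]; exact uu_diag b3 (by linarith)
      rw [mem_ring ra rb] at h1
      rw [mem_ring (by omega) (by omega)] at h2
      have i0 : (cl.1.2 : ℕ) + 1 = 2 * M := by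
        have := h1.2.2.2.2.2
        rw [hu] at this
        have h' : 2 * M ≤ (cl.1.2 : ℕ) + 1 := by exact_mod_cast this
        omega
      have i0' : (cl'.1.2 : ℕ) + 1 = 2 * M := by
        have := h2.2.2.2.2.2
        rw [hu] at this
        have h' : 2 * M ≤ (cl'.1.2 : ℕ) + 1 := by exact_mod_cast this
        have := numc hrow
        omega
      refine ⟨w2, ?_, i0⟩
      apply Subtype.ext
      exact Prod.ext (Fin.ext hrow) (Fin.ext (show (cl'.1.2 : ℕ) = (cl.1.2 : ℕ) by omega))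

/-- Backward direction: two common points. -/
lemma adj_bwd (M : ℕ) (hM : 1 ≤ M) (a b : Idx M) (ha : Ring M a.2) (h : IsNb M a b) :
    a ≠ b ∧ (tl M a ∩ tl M b).Nontrivial := by
  obtain ⟨g, c, cl⟩ := a
  obtain ⟨g', c', cl'⟩ := b
  obtain ⟨ra, rb⟩ := ha
  obtain ⟨hg, h⟩ := h
  simp only at ra rb hg h
  subst hg
  have hcl : (cl.1.2 : ℕ) < 2 * M := by
    have := cl.2
    rwa [num_ring ra rb] at this
  have ra' : (2 * M : ℝ) ≤ ((cl.1.1 : ℕ) : ℝ) := by exact_mod_cast ra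
  have rb' : ((cl.1.1 : ℕ) : ℝ) + 1 ≤ 4 * M := by
    have : (cl.1.1 : ℕ) + 1 ≤ 4 * M := by omega
    exact_mod_cast this
  have hM' : (1 : ℝ) ≤ M := by exact_mod_cast hM
  have hcl' : ((cl.1.2 : ℕ) : ℝ) + 1 ≤ 2 * M := by
    have : (cl.1.2 : ℕ) + 1 ≤ 2 * M := by omega
    exact_mod_cast this
  have i0 : (0 : ℝ) ≤ ((cl.1.2 : ℕ) : ℝ) := Nat.cast_nonneg _
  -- points on the radial line j at height y
  have pt : ∀ j y : ℝ, 0 ≤ j → j ≤ 2 * M → (2 * M : ℝ) ≤ y → y ≤ 4 * M →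
      0 ≤ j + min j (y - 2 * M) ∧ j + min j (y - 2 * M) ≤ y ∧
      uu (2 * M) (j + min j (y - 2 * M)) y = j := by
    intro j y h1 h2 h3 h4
    have m0 : 0 ≤ min j (y - 2 * M) := le_min h1 (by linarith)
    have m1 : min j (y - 2 * M) ≤ y - 2 * M := min_le_right _ _
    refine ⟨by linarith, by linarith, ?_⟩
    have := uu_line (R := 2 * M) h1 (v := y - 2 * M) (by linarith)
    rwa [show 2 * (M : ℝ) + (y - 2 * M) = y by ring] at this
  have mk : ∀ q q' : ℝ × ℝ, q ≠ q' → q ∈ cell M (cl.1.1 : ℕ) (cl.1.2 : ℕ) →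
      q' ∈ cell M (cl.1.1 : ℕ) (cl.1.2 : ℕ) →
      unfold M g' c' (refold M g' c q) ∈ cell M (cl'.1.1 : ℕ) (cl'.1.2 : ℕ) →
      unfold M g' c' (refold M g' c q') ∈ cell M (cl'.1.1 : ℕ) (cl'.1.2 : ℕ) →
      (tl M (g', c, cl) ∩ tl M (g', c', cl')).Nontrivial := by
    intro q q' hne h1 h2 h3 h4
    refine ⟨refold M g' c q, ⟨?_, h3⟩, refold M g' c q', ⟨?_, h4⟩, fun e => hne (refold_inj M g' c e)⟩
    · show unfold M g' c (refold M g' c q) ∈ cell M (cl.1.1 : ℕ) (cl.1.2 : ℕ)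
      rw [unfold_refold]; exact h1
    · show unfold M g' c (refold M g' c q') ∈ cell M (cl.1.1 : ℕ) (cl.1.2 : ℕ)
      rw [unfold_refold]; exact h2
  rcases h with ⟨h1, h2, h3⟩ | ⟨h1, h2, h3⟩ | ⟨h1, h2, h3⟩ | ⟨h1, h2, h3⟩ | ⟨h1, h2, h3⟩
  · -- same row
    subst h1
    have hrow : (cl'.1.1 : ℕ) = (cl.1.1 : ℕ) := by rw [h2]
    have hcn : (cl'.1.2 : ℕ) < 2 * M := by
      have := cl'.2
      rw [hrow, num_ring ra rb] at this
      exact this
    constructor
    · intro e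
      have : cl = cl' := by
        have := congrArg (fun z : Idx M => z.2.2) e
        exact this
      rw [this] at h3
      omega
    · obtain ⟨j, j0, j1, j2, j3, j4, j5⟩ : ∃ j : ℝ, 0 ≤ j ∧ j ≤ 2 * M ∧
          ((cl.1.2 : ℕ) : ℝ) ≤ j ∧ j ≤ ((cl.1.2 : ℕ) : ℝ) + 1 ∧
          ((cl'.1.2 : ℕ) : ℝ) ≤ j ∧ j ≤ ((cl'.1.2 : ℕ) : ℝ) + 1 := by
        rcases h3 with h3 | h3
        · have e : ((cl'.1.2 : ℕ) : ℝ) = ((cl.1.2 : ℕ) : ℝ) + 1 := by exact_mod_cast h3
          exact ⟨((cl.1.2 : ℕ) : ℝ) + 1, by linarith, by linarith, by linarith, by linarith,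
            by linarith, by linarith⟩
        · have e : ((cl'.1.2 : ℕ) : ℝ) + 1 = ((cl.1.2 : ℕ) : ℝ) := by exact_mod_cast h3
          exact ⟨((cl.1.2 : ℕ) : ℝ), by linarith, by linarith, by linarith, by linarith,
            by linarith, by linarith⟩
      obtain ⟨p1, p2, p3⟩ := pt j ((cl.1.1 : ℕ) : ℝ) j0 j1 ra' (by linarith)
      obtain ⟨q1, q2, q3⟩ := pt j (((cl.1.1 : ℕ) : ℝ) + 1) j0 j1 (by linarith) (by linarith)
      refine mk (j + min j (((cl.1.1 : ℕ) : ℝ) - 2 * M),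
        ((cl.1.1 : ℕ) : ℝ)) (j + min j ((((cl.1.1 : ℕ) : ℝ) + 1) - 2 * M),
        ((cl.1.1 : ℕ) : ℝ) + 1) ?_ ?_ ?_ ?_ ?_
      · intro e
        have := congrArg Prod.snd e
        simp at this
      · rw [mem_ring ra rb]
        exact ⟨p1, p2, le_refl _, by simp, by rw [p3]; exact j2, by rw [p3]; exact j3⟩
      · rw [mem_ring ra rb]
        exact ⟨q1, q2, by simp, le_refl _, by rw [q3]; exact j2, by rw [q3]; exact j3⟩
      · rw [unfold_refold, hrow, mem_ring ra rb]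
        exact ⟨p1, p2, le_refl _, by simp, by rw [p3]; exact j4, by rw [p3]; exact j5⟩
      · rw [unfold_refold, hrow, mem_ring ra rb]
        exact ⟨q1, q2, by simp, le_refl _, by rw [q3]; exact j4, by rw [q3]; exact j5⟩
  · -- across x = 0
    subst h2
    subst h1
    constructor
    · intro e
      exact flipx_ne c (congrArg (fun z : Idx M => z.2.1) e).symm
    · have e0 : ((cl'.1.2 : ℕ) : ℝ) = 0 := by exact_mod_cast h3
      have un : ∀ y : ℝ, unfold M g' (flipx c) (refold M g' c (0, y)) = (0, y) := by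
        intro y
        obtain ⟨s, t, b⟩ := c
        cases b <;> simp [unfold, refold, flipx, ← mul_assoc, sg_sq]
      refine mk (0, ((cl'.1.1 : ℕ) : ℝ)) (0, ((cl'.1.1 : ℕ) : ℝ) + 1) ?_ ?_ ?_ ?_ ?_
      · intro e
        have := congrArg Prod.snd e
        simp at this
      · rw [mem_ring ra rb]
        refine ⟨le_refl _, ?_, le_refl _, by simp, by rw [uu_zero, e0], by rw [uu_zero, e0]; simp⟩
        simp
      · rw [mem_ring ra rb]
        refine ⟨le_refl _, ?_, by simp, le_refl _, by rw [uu_zero, e0], by rw [uu_zero, e0]; simp⟩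
        show (0 : ℝ) ≤ ((cl'.1.1 : ℕ) : ℝ) + 1
        positivity
      · rw [un, mem_ring ra rb]
        refine ⟨le_refl _, ?_, le_refl _, by simp, by rw [uu_zero, e0], by rw [uu_zero, e0]; simp⟩
        simp
      · rw [un, mem_ring ra rb]
        refine ⟨le_refl _, ?_, by simp, le_refl _, by rw [uu_zero, e0], by rw [uu_zero, e0]; simp⟩
        show (0 : ℝ) ≤ ((cl'.1.1 : ℕ) : ℝ) + 1
        positivity
  · -- across x = y
    subst h2
    subst h1
    constructor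
    · intro e
      exact flipd_ne c (congrArg (fun z : Idx M => z.2.1) e).symm
    · have e0 : ((cl'.1.2 : ℕ) : ℝ) + 1 = 2 * M := by exact_mod_cast h3
      have un : ∀ y : ℝ, unfold M g' (flipd c) (refold M g' c (y, y)) = (y, y) := by
        intro y
        obtain ⟨s, t, b⟩ := c
        cases b <;> simp [unfold, refold, flipd, ← mul_assoc, sg_sq]
      have d1 := uu_diag (R := 2 * M) (y := ((cl'.1.1 : ℕ) : ℝ)) ra' (by linarith)
      have d2 := uu_diag (R := 2 * M) (y := ((cl'.1.1 : ℕ) : ℝ) + 1) (by linarith) (by linarith)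
      refine mk (((cl'.1.1 : ℕ) : ℝ), ((cl'.1.1 : ℕ) : ℝ))
        (((cl'.1.1 : ℕ) : ℝ) + 1, ((cl'.1.1 : ℕ) : ℝ) + 1) ?_ ?_ ?_ ?_ ?_
      · intro e
        have := congrArg Prod.snd e
        simp at this
      · rw [mem_ring ra rb]
        exact ⟨by simp, le_refl _, le_refl _, by simp, by rw [d1]; linarith, by rw [d1]; linarith⟩
      · rw [mem_ring ra rb]
        exact ⟨by positivity, le_refl _, by simp, le_refl _, by rw [d2]; linarith,
          by rw [d2]; linarith⟩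
      · rw [un, mem_ring ra rb]
        exact ⟨by simp, le_refl _, le_refl _, by simp, by rw [d1]; linarith, by rw [d1]; linarith⟩
      · rw [un, mem_ring ra rb]
        exact ⟨by positivity, le_refl _, by simp, le_refl _, by rw [d2]; linarith,
          by rw [d2]; linarith⟩
  · -- up
    subst h1
    constructor
    · intro e
      have : cl = cl' := congrArg (fun z : Idx M => z.2.2) e
      rw [this] at h2
      omega
    · have hy : ((cl'.1.1 : ℕ) : ℝ) = ((cl.1.1 : ℕ) : ℝ) + 1 := by exact_mod_cast h2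
      obtain ⟨p1, p2, p3⟩ := pt ((cl.1.2 : ℕ) : ℝ) (((cl.1.1 : ℕ) : ℝ) + 1) i0 (by linarith)
        (by linarith) (by linarith)
      obtain ⟨q1, q2, q3⟩ := pt (((cl.1.2 : ℕ) : ℝ) + 1) (((cl.1.1 : ℕ) : ℝ) + 1) (by linarith)
        (by linarith) (by linarith) (by linarith)
      have up : ∀ x u : ℝ, 0 ≤ x → x ≤ ((cl.1.1 : ℕ) : ℝ) + 1 →
          uu (2 * M) x (((cl.1.1 : ℕ) : ℝ) + 1) = u → ((cl.1.2 : ℕ) : ℝ) ≤ u →
          u ≤ ((cl.1.2 : ℕ) : ℝ) + 1 →
          (x, ((cl.1.1 : ℕ) : ℝ) + 1) ∈ cell M (cl'.1.1 : ℕ) (cl'.1.2 : ℕ) := by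
        intro x u x0 x1 hu u0 u1
        split_ifs at h3 with h4
        · rw [mem_two (wid_high (by omega))]
          have g1 : 2 * ((cl'.1.2 : ℕ) : ℝ) ≤ ((cl.1.2 : ℕ) : ℝ) := by
            have : 2 * (cl'.1.2 : ℕ) ≤ (cl.1.2 : ℕ) := by omega
            exact_mod_cast this
          have g2 : ((cl.1.2 : ℕ) : ℝ) + 1 ≤ 2 * (((cl'.1.2 : ℕ) : ℝ) + 1) := by
            have : (cl.1.2 : ℕ) + 1 ≤ 2 * ((cl'.1.2 : ℕ) + 1) := by omega
            exact_mod_cast this
          exact ⟨x0, x1, by rw [hy], by rw [hy]; simp, by rw [hu]; linarith, by rw [hu]; linarith⟩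
        · rw [mem_ring (by omega) (by omega), h3]
          exact ⟨x0, x1, by rw [hy], by rw [hy]; simp, by rw [hu]; linarith, by rw [hu]; linarith⟩
      refine mk (((cl.1.2 : ℕ) : ℝ) + min ((cl.1.2 : ℕ) : ℝ) ((((cl.1.1 : ℕ) : ℝ) + 1) - 2 * M),
        ((cl.1.1 : ℕ) : ℝ) + 1) ((((cl.1.2 : ℕ) : ℝ) + 1) +
          min (((cl.1.2 : ℕ) : ℝ) + 1) ((((cl.1.1 : ℕ) : ℝ) + 1) - 2 * M),
        ((cl.1.1 : ℕ) : ℝ) + 1) ?_ ?_ ?_ ?_ ?_
      · intro e
        have := congrArg Prod.fst e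
        simp only at this
        rw [this, q3] at p3
        linarith
      · rw [mem_ring ra rb]
        exact ⟨p1, p2, by simp, le_refl _, by rw [p3], by rw [p3]; simp⟩
      · rw [mem_ring ra rb]
        exact ⟨q1, q2, by simp, le_refl _, by rw [q3]; simp, by rw [q3]⟩
      · rw [unfold_refold]
        exact up _ _ p1 p2 p3 (le_refl _) (by simp)
      · rw [unfold_refold]
        exact up _ _ q1 q2 q3 (by simp) (le_refl _)
  · -- down
    subst h1
    constructor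
    · intro e
      have : cl = cl' := congrArg (fun z : Idx M => z.2.2) e
      rw [this] at h2
      omega
    · have hy : ((cl'.1.1 : ℕ) : ℝ) + 1 = ((cl.1.1 : ℕ) : ℝ) := by exact_mod_cast h2
      obtain ⟨p1, p2, p3⟩ := pt ((cl.1.2 : ℕ) : ℝ) ((cl.1.1 : ℕ) : ℝ) i0 (by linarith)
        (by linarith) (by linarith)
      obtain ⟨q1, q2, q3⟩ := pt (((cl.1.2 : ℕ) : ℝ) + 1) ((cl.1.1 : ℕ) : ℝ) (by linarith)
        (by linarith) (by linarith) (by linarith)
      have up : ∀ x u : ℝ, 0 ≤ x → x ≤ ((cl.1.1 : ℕ) : ℝ) →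
          uu (2 * M) x ((cl.1.1 : ℕ) : ℝ) = u → ((cl.1.2 : ℕ) : ℝ) ≤ u →
          u ≤ ((cl.1.2 : ℕ) : ℝ) + 1 →
          (x, ((cl.1.1 : ℕ) : ℝ)) ∈ cell M (cl'.1.1 : ℕ) (cl'.1.2 : ℕ) := by
        intro x u x0 x1 hu u0 u1
        split_ifs at h3 with h4
        · rw [mem_two (wid_low (by omega))]
          have g1 : 2 * ((cl'.1.2 : ℕ) : ℝ) ≤ ((cl.1.2 : ℕ) : ℝ) := by
            have : 2 * (cl'.1.2 : ℕ) ≤ (cl.1.2 : ℕ) := by omega
            exact_mod_cast this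
          have g2 : ((cl.1.2 : ℕ) : ℝ) + 1 ≤ 2 * (((cl'.1.2 : ℕ) : ℝ) + 1) := by
            have : (cl.1.2 : ℕ) + 1 ≤ 2 * ((cl'.1.2 : ℕ) + 1) := by omega
            exact_mod_cast this
          exact ⟨x0, x1, by rw [← hy]; simp, by rw [hy], by rw [hu]; linarith,
            by rw [hu]; linarith⟩
        · rw [mem_ring (by omega) (by omega), h3]
          exact ⟨x0, x1, by rw [← hy]; simp, by rw [hy], by rw [hu]; linarith,
            by rw [hu]; linarith⟩
      refine mk (((cl.1.2 : ℕ) : ℝ) + min ((cl.1.2 : ℕ) : ℝ) (((cl.1.1 : ℕ) : ℝ) - 2 * M),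
        ((cl.1.1 : ℕ) : ℝ)) ((((cl.1.2 : ℕ) : ℝ) + 1) +
          min (((cl.1.2 : ℕ) : ℝ) + 1) (((cl.1.1 : ℕ) : ℝ) - 2 * M),
        ((cl.1.1 : ℕ) : ℝ)) ?_ ?_ ?_ ?_ ?_
      · intro e
        have := congrArg Prod.fst e
        simp only at this
        rw [this, q3] at p3
        linarith
      · rw [mem_ring ra rb]
        exact ⟨p1, p2, le_refl _, by simp, by rw [p3], by rw [p3]; simp⟩
      · rw [mem_ring ra rb]
        exact ⟨q1, q2, le_refl _, by simp, by rw [q3]; simp, by rw [q3]⟩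
      · rw [unfold_refold]
        exact up _ _ p1 p2 p3 (le_refl _) (by simp)
      · rw [unfold_refold]
        exact up _ _ q1 q2 q3 (by simp) (le_refl _)

/-- Row ADJ. -/
theorem adj30 : StAdj := by
  intro M hM T hT a b ha
  unfold Tiling.Adj
  rw [hT]
  constructor
  · rintro ⟨hab, p, hp, p', hp', hne⟩
    exact adj_fwd M hM a b ha hab hp.1 hp.2 hp'.1 hp'.2 hne
  · intro h
    exact adj_bwd M hM a b ha h

end Pool.Agent.Lib.MP_82ac4a_mp
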