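import Mathlib

/-!
MP_82ac4a (30): polygonal tilings, linear repetitivity, Laplacian, density of states.
-/

namespace Pool.Agent.Lib.MP_82ac4a_mp

open Filter Topology MeasureTheory

/-- Euclidean distance in the plane. -/
noncomputable def ed (p q : ℝ × ℝ) : ℝ := Real.sqrt ((p.1 - q.1) ^ 2 + (p.2 - q.2) ^ 2)

/-- A (convex) polygon: a bounded intersection of finitely many closed half planes with
nonempty interior. -/
def IsPolygon (P : Set (ℝ × ℝ)) : Prop :=
  (∃ H : Finset (ℝ × ℝ × ℝ), P = {p | ∀ h ∈ H, h.1 * p.1 + h.2.1 * p.2 ≤ h.2.2}) ∧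
    Bornology.IsBounded P ∧ (interior P).Nonempty

/-- The translate of a set by v. -/
def trans (v : ℝ × ℝ) (P : Set (ℝ × ℝ)) : Set (ℝ × ℝ) := {p | p - v ∈ P}

/-- A tiling of the plane by convex polygons. -/
structure Tiling (ι : Type) where
  tile : ι → Set (ℝ × ℝ)
  polygon : ∀ i, IsPolygon (tile i)
  cover : ∀ p, ∃ i, p ∈ tile i
  disj : ∀ i j, i ≠ j → Disjoint (interior (tile i)) (interior (tile j))

namespace Tiling

variable {ι : Type} (T : Tiling ι)

/-- Two tiles are neighbours if they share an edge: they have more than one point (hence, by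
convexity, a segment) in common. -/
def Adj (i j : ι) : Prop := i ≠ j ∧ (T.tile i ∩ T.tile j).Nontrivial

/-- The patch P has diameter at most r. -/
def DiamLE (P : Finset ι) (r : ℝ) : Prop :=
  ∀ i ∈ P, ∀ j ∈ P, ∀ p ∈ T.tile i, ∀ q ∈ T.tile j, ed p q ≤ r

/-- Finite local complexity: up to translation there are finitely many patches of diameter at
most r. -/
def FLC : Prop := ∀ r : ℝ, ∃ Q : Finset (Finset ι), ∀ P : Finset ι, T.DiamLE P r →
  ∃ P' ∈ Q, ∃ v : ℝ × ℝ, T.tile '' (P : Set ι) = (fun t => trans v t) '' (T.tile '' (P' : Set ι))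

/-- Linear repetitivity. -/
def LinRep : Prop := T.FLC ∧ ∃ C : ℝ, 0 < C ∧ ∀ r : ℝ, ∀ P : Finset ι, P.Nonempty →
  T.DiamLE P r → ∀ x : ℝ × ℝ, ∃ v : ℝ × ℝ, ∀ i ∈ P, ∃ j, T.tile j = trans v (T.tile i) ∧
    ∀ p ∈ T.tile j, ed p x ≤ C * r

open Classical in
/-- The Laplacian of the subgraph induced on the finite set V of tiles. -/
noncomputable def lap (V : Finset ι) : (V → ℝ) →ₗ[ℝ] (V → ℝ) where
  toFun ψ := fun v => ∑ u : V, if T.Adj v u then ψ v - ψ u else 0
  map_add' ψ φ := by
    funext v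
    simp only [Pi.add_apply, ← Finset.sum_add_distrib]
    refine Finset.sum_congr rfl fun u _ => ?_
    split_ifs <;> ring
  map_smul' c ψ := by
    funext v
    simp only [Pi.smul_apply, smul_eq_mul, RingHom.id_apply, Finset.mul_sum]
    refine Finset.sum_congr rfl fun u _ => ?_
    split_ifs <;> ring

/-- The mass at E of the normalized eigenvalue counting measure of the finite volume V. -/
noncomputable def mass (V : Finset ι) (E : ℝ) : ℝ :=
  (Module.finrank ℝ (Module.End.eigenspace (T.lap V) E) : ℝ) / V.card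

open Classical in
/-- Van Hove sequences of finite sets of tiles, increasing to the set of all tiles. -/
def VanHove (V : ℕ → Finset ι) : Prop :=
  Monotone V ∧ (∀ i, ∃ n, i ∈ V n) ∧ ∀ ρ : ℝ, Tendsto (fun n =>
    (((V n).filter fun i => ∃ j, j ∉ V n ∧ ∃ p ∈ T.tile i, ∃ q ∈ T.tile j, ed p q ≤ ρ).card : ℝ) /
      (V n).card) atTop (𝓝 0)

/-- ν is the density of states measure of the tiling: the vague limit of the normalized
eigenvalue counting measures along every van Hove sequence. -/
def IsDOS (ν : Measure ℝ) : Prop :=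
  IsProbabilityMeasure ν ∧ ∀ V : ℕ → Finset ι, T.VanHove V → ∀ f : ℝ → ℝ, Continuous f →
    HasCompactSupport f → Tendsto (fun n => ∑ᶠ E : ℝ, T.mass (V n) E * f E) atTop
      (𝓝 (∫ E, f E ∂ν))

end Tiling

end Pool.Agent.Lib.MP_82ac4a_mp
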