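import Pool.Agent.Lib.MP_82ac4a_mp.Defs30

namespace Pool.Agent.Lib.MP_82ac4a_mp

/-- Bounds for the folded coordinate. -/
theorem uu_nonneg70 (R x y : ℝ) (hx : 0 ≤ x) : 0 ≤ uu R x y := by
  unfold uu
  have h : min (x / 2) (max (y - R) 0) ≤ x / 2 := min_le_left _ _
  linarith

theorem uu_le70 (M r : ℕ) (x y : ℝ) (hx : 0 ≤ x) (hxy : x ≤ y) (hr : y ≤ r + 1)
    (hr' : (r : ℝ) ≤ y) (hrM : r ≤ 4 * M) : uu (2 * M) x y ≤ ((wid M r * num M r : ℕ) : ℝ) := by
  unfold uu
  have hM : (0 : ℝ) ≤ M := Nat.cast_nonneg M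
  have hrM' : (r : ℝ) ≤ 4 * M := by exact_mod_cast hrM
  by_cases h1 : r < 2 * M
  · have hw : wid M r = 2 := by unfold wid; rw [if_neg]; omega
    have hn : num M r = r / 2 + 1 := by unfold num; rw [if_pos h1]
    rw [hw, hn]
    have h2 : r + 1 ≤ 2 * (r / 2 + 1) := by omega
    have h3 : ((r + 1 : ℕ) : ℝ) ≤ ((2 * (r / 2 + 1) : ℕ) : ℝ) := by exact_mod_cast h2
    have h4 : (0 : ℝ) ≤ min (x / 2) (max (y - 2 * M) 0) := by
      apply le_min
      · linarith
      · exact le_max_right _ _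
    push_cast at h3 ⊢
    linarith
  · by_cases h2 : r < 4 * M
    · have hw : wid M r = 1 := by unfold wid; rw [if_pos]; omega
      have hn : num M r = 2 * M := by unfold num; rw [if_neg h1, if_pos h2]
      rw [hw, hn]
      have h2' : ((r + 1 : ℕ) : ℝ) ≤ ((4 * M : ℕ) : ℝ) := by exact_mod_cast h2
      push_cast at h2' ⊢
      rcases le_total (x / 2) (max (y - 2 * M) 0) with h | h
      · rw [min_eq_left h]; linarith
      · rw [min_eq_right h]
        have := le_max_left (y - 2 * (M : ℝ)) 0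
        linarith
    · have hr2 : r = 4 * M := by omega
      have hw : wid M r = 2 := by unfold wid; rw [if_neg]; omega
      have hn : num M r = M + 1 := by unfold num; rw [if_neg h1, if_neg h2]
      rw [hw, hn]
      have hr3 : (r : ℝ) = 4 * M := by exact_mod_cast hr2
      push_cast
      rcases le_total (x / 2) (max (y - 2 * M) 0) with h | h
      · rw [min_eq_left h]; linarith
      · rw [min_eq_right h]
        have := le_max_left (y - 2 * (M : ℝ)) 0
        linarith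

theorem num_pos70 (M r : ℕ) (hM : 1 ≤ M) : 0 < num M r := by
  unfold num
  split_ifs <;> omega

theorem num_le70 (M r : ℕ) (hM : 1 ≤ M) (hr : r ≤ 4 * M) : num M r ≤ 4 * M + 1 := by
  unfold num
  split_ifs <;> omega

theorem wid_pos70 (M r : ℕ) : 0 < wid M r := by
  unfold wid
  split_ifs <;> omega

/-- Every point of the fundamental triangle lies in a cell. -/
theorem cell_cover70 (M : ℕ) (hM : 1 ≤ M) (q : ℝ × ℝ) (h0 : 0 ≤ q.1) (h1 : q.1 ≤ q.2)
    (h2 : q.2 ≤ 4 * M + 1) : ∃ c : Cel M, q ∈ cell M (c.1.1 : ℕ) (c.1.2 : ℕ) := by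
  obtain ⟨r, hr, hr1, hr2⟩ : ∃ r : ℕ, r ≤ 4 * M ∧ (r : ℝ) ≤ q.2 ∧ q.2 ≤ r + 1 := by
    rcases lt_or_ge q.2 (4 * M + 1) with h | h
    · refine ⟨⌊q.2⌋₊, ?_, Nat.floor_le (h0.trans h1), (Nat.lt_floor_add_one q.2).le⟩
      have : ⌊q.2⌋₊ < 4 * M + 1 := by
        rw [Nat.floor_lt (h0.trans h1)]
        push_cast
        exact h
      omega
    · refine ⟨4 * M, le_refl _, ?_, ?_⟩
      · push_cast; linarith
      · push_cast; linarith
  have hu := uu_le70 M r q.1 q.2 h0 h1 hr2 hr1 hr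
  have hu0 := uu_nonneg70 (2 * M) q.1 q.2 h0
  have hw := wid_pos70 M r
  have hn := num_pos70 M r hM
  have hnl := num_le70 M r hM hr
  obtain ⟨i, hi, hi1, hi2⟩ : ∃ i : ℕ, i < num M r ∧
      ((wid M r * i : ℕ) : ℝ) ≤ uu (2 * M) q.1 q.2 ∧
      uu (2 * M) q.1 q.2 ≤ ((wid M r * (i + 1) : ℕ) : ℝ) := by
    have hwr : (0 : ℝ) < wid M r := by exact_mod_cast hw
    by_cases h : uu (2 * M) q.1 q.2 < ((wid M r * num M r : ℕ) : ℝ)
    · refine ⟨⌊uu (2 * M) q.1 q.2 / wid M r⌋₊, ?_, ?_, ?_⟩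
      · rw [Nat.floor_lt (by positivity), div_lt_iff₀ hwr]
        push_cast at h
        linarith
      · have := Nat.floor_le (show 0 ≤ uu (2 * M) q.1 q.2 / wid M r by positivity)
        rw [le_div_iff₀ hwr] at this
        push_cast
        linarith
      · have := (Nat.lt_floor_add_one (uu (2 * M) q.1 q.2 / wid M r)).le
        rw [div_le_iff₀ hwr] at this
        push_cast
        linarith
    · refine ⟨num M r - 1, by omega, ?_, ?_⟩
      · have h3 : wid M r * (num M r - 1) ≤ wid M r * num M r := Nat.mul_le_mul_left _ (by omega)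
        have h4 : ((wid M r * (num M r - 1) : ℕ) : ℝ) ≤ ((wid M r * num M r : ℕ) : ℝ) := by
          exact_mod_cast h3
        push Not at h
        linarith
      · have : num M r - 1 + 1 = num M r := by omega
        rw [this]
        exact hu
  refine ⟨⟨(⟨r, by omega⟩, ⟨i, by omega⟩), hi⟩, h0, h1, hr1, hr2, hi1, hi2⟩

/-- A real number is at distance at most L of a multiple of 2 L. -/
theorem round70 (L X : ℝ) (hL : 0 < L) : ∃ g : ℤ, |X - 2 * L * g| ≤ L := by
  refine ⟨round (X / (2 * L)), ?_⟩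
  have h := abs_sub_round (X / (2 * L))
  have h2 : X - 2 * L * round (X / (2 * L)) = 2 * L * (X / (2 * L) - round (X / (2 * L))) := by
    field_simp
  rw [h2, abs_mul, abs_of_pos (by linarith : (0 : ℝ) < 2 * L)]
  nlinarith

theorem sg_abs70 (X : ℝ) : ∃ b : Bool, sg b * X = |X| := by
  rcases le_total 0 X with h | h
  · exact ⟨false, by simp [sg, abs_of_nonneg h]⟩
  · exact ⟨true, by simp [sg, abs_of_nonpos h]⟩

theorem cover70 : StCover := by
  intro M hM p
  have hL : (0 : ℝ) < 4 * M + 1 := by positivity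
  obtain ⟨g, hg⟩ := round70 (4 * M + 1) p.1 hL
  obtain ⟨k, hk⟩ := round70 (4 * M + 1) p.2 hL
  obtain ⟨s, hs⟩ := sg_abs70 (p.1 - 2 * (4 * M + 1) * g)
  obtain ⟨t, ht⟩ := sg_abs70 (p.2 - 2 * (4 * M + 1) * k)
  rcases le_total |p.1 - 2 * (4 * M + 1) * g| |p.2 - 2 * (4 * M + 1) * k| with h | h
  · obtain ⟨c, hc⟩ := cell_cover70 M hM
      (|p.1 - 2 * (4 * M + 1) * g|, |p.2 - 2 * (4 * M + 1) * k|) (abs_nonneg _) h hk
    refine ⟨((g, k), ((s, t, false), c)), ?_⟩
    simp only [tl, unfold, Set.mem_setOf_eq, Bool.false_eq_true, if_false]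
    rw [hs, ht]
    exact hc
  · obtain ⟨c, hc⟩ := cell_cover70 M hM
      (|p.2 - 2 * (4 * M + 1) * k|, |p.1 - 2 * (4 * M + 1) * g|) (abs_nonneg _) h hg
    refine ⟨((g, k), ((s, t, true), c)), ?_⟩
    simp only [tl, unfold, Set.mem_setOf_eq, if_true]
    rw [hs, ht]
    exact hc

end Pool.Agent.Lib.MP_82ac4a_mp
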