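import Pool.Agent.Lib.MP_82ac4a_mp.Defs30

namespace Pool.Agent.Lib.MP_82ac4a_mp

/-- Generic points: no integer relation a X + b Y = c with (a, b) not 0. -/
def Gen70 (p : ℝ × ℝ) : Prop :=
  ∀ a b c : ℤ, (a : ℝ) * p.1 + b * p.2 = c → a = 0 ∧ b = 0

/-- Every nonempty open set contains a generic point. -/
theorem exists_gen70 (U : Set (ℝ × ℝ)) (hU : IsOpen U) (hne : U.Nonempty) :
    ∃ p ∈ U, Gen70 p := by
  obtain ⟨p, hp⟩ := hne
  obtain ⟨A, hA, B, hB, hAB⟩ := mem_nhds_prod_iff.mp (hU.mem_nhds hp)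
  -- the first coordinate
  obtain ⟨A', hA'A, hA'o, hpA⟩ := mem_nhds_iff.mp hA
  obtain ⟨B', hB'B, hB'o, hpB⟩ := mem_nhds_iff.mp hB
  have hQ : (Set.range (fun z : ℤ × ℤ => (z.1 : ℝ) / z.2)).Countable := Set.countable_range _
  obtain ⟨X, hX, hXA⟩ := (hQ.dense_compl ℝ).exists_mem_open hA'o ⟨p.1, hpA⟩
  have hQ2 : (Set.range (fun z : ℤ × ℤ × ℤ => ((z.1 : ℝ) - z.2.1 * X) / z.2.2)).Countable :=
    Set.countable_range _
  obtain ⟨Y, hY, hYB⟩ := (hQ2.dense_compl ℝ).exists_mem_open hB'o ⟨p.2, hpB⟩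
  refine ⟨(X, Y), hAB ⟨hA'A ?_, hB'B ?_⟩, ?_⟩
  · assumption
  · assumption
  · intro a b c h
    have hb : b = 0 := by
      by_contra hb
      have hb' : (b : ℝ) ≠ 0 := by exact_mod_cast hb
      apply hY
      refine ⟨(c, a, b), ?_⟩
      simp only
      rw [div_eq_iff hb']
      simp only at h
      linarith
    refine ⟨?_, hb⟩
    by_contra ha
    have ha' : (a : ℝ) ≠ 0 := by exact_mod_cast ha
    apply hX
    refine ⟨(c, a), ?_⟩
    simp only
    rw [div_eq_iff ha']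
    simp only [hb] at h
    push_cast at h
    linarith

/-- Uniqueness of the square. -/
theorem sq_unique70 (M : ℕ) (X : ℝ) (hX : ∀ a c : ℤ, (a : ℝ) * X = c → a = 0) (g g' : ℤ)
    (h : |X - 2 * (4 * M + 1) * g| ≤ 4 * M + 1) (h' : |X - 2 * (4 * M + 1) * g'| ≤ 4 * M + 1) :
    g = g' := by
  wlog hlt : g < g' generalizing g g' with H
  · rcases lt_trichotomy g g' with h1 | h1 | h1
    · exact absurd h1 hlt
    · exact h1
    · exact (H g' g h' h h1).symm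
  exfalso
  have hM : (0 : ℝ) ≤ M := Nat.cast_nonneg M
  have h1 : (g : ℝ) + 1 ≤ g' := by exact_mod_cast hlt
  rw [abs_le] at h h'
  have h2 : (2 * (4 * (M : ℝ) + 1)) * (g + 1) ≤ 2 * (4 * M + 1) * g' :=
    mul_le_mul_of_nonneg_left h1 (by positivity)
  have h3 : X = 2 * (4 * M + 1) * g + (4 * M + 1) := by
    apply le_antisymm
    · linarith [h.2]
    · linarith [h'.1]
  have := hX 1 (2 * (4 * M + 1) * g + (4 * M + 1)) (by push_cast; linarith)
  exact one_ne_zero this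

theorem sg_unique70 (Y : ℝ) (hY : Y ≠ 0) (s s' : Bool) (h : 0 ≤ sg s * Y) (h' : 0 ≤ sg s' * Y) :
    s = s' := by
  cases s <;> cases s' <;> simp [sg] at h h' ⊢ <;> exact hY (le_antisymm (by assumption) (by assumption))

theorem sg_sq70 (s : Bool) (X L : ℝ) (h0 : 0 ≤ sg s * X) (h1 : sg s * X ≤ L) : |X| ≤ L := by
  cases s
  · simp [sg] at h0 h1
    rwa [abs_of_nonneg h0]
  · simp [sg] at h0 h1
    rw [abs_of_nonpos h0]
    exact h1

theorem facts70 (M : ℕ) (a : Idx M) (p : ℝ × ℝ) (h : p ∈ tl M a) :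
    |p.1 - 2 * (4 * M + 1) * a.1.1| ≤ 4 * M + 1 ∧ |p.2 - 2 * (4 * M + 1) * a.1.2| ≤ 4 * M + 1 ∧
      0 ≤ sg a.2.1.1 * (p.1 - 2 * (4 * M + 1) * a.1.1) ∧
      0 ≤ sg a.2.1.2.1 * (p.2 - 2 * (4 * M + 1) * a.1.2) ∧
      (a.2.1.2.2 = false → sg a.2.1.1 * (p.1 - 2 * (4 * M + 1) * a.1.1) ≤
        sg a.2.1.2.1 * (p.2 - 2 * (4 * M + 1) * a.1.2)) ∧
      (a.2.1.2.2 = true → sg a.2.1.2.1 * (p.2 - 2 * (4 * M + 1) * a.1.2) ≤
        sg a.2.1.1 * (p.1 - 2 * (4 * M + 1) * a.1.1)) := by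
  obtain ⟨⟨g, k⟩, ⟨s, t, b⟩, ⟨⟨r, i⟩, hi⟩⟩ := a
  have hr : ((r : ℕ) : ℝ) + 1 ≤ 4 * M + 1 := by
    have h1 : (r : ℕ) ≤ 4 * M := by have := r.2; omega
    have h2 : ((r : ℕ) : ℝ) ≤ ((4 * M : ℕ) : ℝ) := by exact_mod_cast h1
    push_cast at h2
    linarith
  cases b
  · obtain ⟨h0, h1, h2, h3, -, -⟩ := h
    simp only [unfold, Bool.false_eq_true, if_false] at h0 h1 h2 h3
    refine ⟨sg_sq70 s _ _ h0 (by linarith), sg_sq70 t _ _ (h0.trans h1) (by linarith), h0,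
      h0.trans h1, fun _ => h1, fun hb => ?_⟩
    simp at hb
  · obtain ⟨h0, h1, h2, h3, -, -⟩ := h
    simp only [unfold, if_true] at h0 h1 h2 h3
    refine ⟨sg_sq70 s _ _ (h0.trans h1) (by linarith), sg_sq70 t _ _ h0 (by linarith),
      h0.trans h1, h0, fun hb => ?_, fun _ => h1⟩
    simp at hb

/-- The integer sign. -/
def sgz70 (b : Bool) : ℤ := if b then -1 else 1

theorem sgz_cast70 (b : Bool) : ((sgz70 b : ℤ) : ℝ) = sg b := by
  cases b <;> simp [sgz70, sg]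

theorem sgz_ne70 (b : Bool) : sgz70 b ≠ 0 := by
  cases b <;> simp [sgz70]

theorem mul_sgz70 (a : ℤ) (b : Bool) (h : a * sgz70 b = 0) : a = 0 := by
  rcases mul_eq_zero.mp h with h | h
  · exact h
  · exact absurd h (sgz_ne70 b)

/-- Genericity is preserved by folding. -/
theorem gen_unfold70 (M : ℕ) (g : ℤ × ℤ) (c : Bool × Bool × Bool) (p : ℝ × ℝ) (hp : Gen70 p) :
    Gen70 (unfold M g c p) := by
  obtain ⟨s, t, b⟩ := c
  intro a' b' c' h
  cases b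
  · simp only [unfold, Bool.false_eq_true, if_false] at h
    rw [← sgz_cast70, ← sgz_cast70] at h
    have := hp (a' * sgz70 s) (b' * sgz70 t)
      (c' + a' * sgz70 s * (2 * (4 * M + 1) * g.1) + b' * sgz70 t * (2 * (4 * M + 1) * g.2))
      (by push_cast; linarith)
    exact ⟨mul_sgz70 _ _ this.1, mul_sgz70 _ _ this.2⟩
  · simp only [unfold, if_true] at h
    rw [← sgz_cast70, ← sgz_cast70] at h
    have := hp (b' * sgz70 s) (a' * sgz70 t)
      (c' + b' * sgz70 s * (2 * (4 * M + 1) * g.1) + a' * sgz70 t * (2 * (4 * M + 1) * g.2))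
      (by push_cast; linarith)
    exact ⟨mul_sgz70 _ _ this.2, mul_sgz70 _ _ this.1⟩

/-- The folded coordinate of a generic point is not an integer. -/
theorem uu_gen70 (M : ℕ) (q : ℝ × ℝ) (hq : Gen70 q) (n : ℤ) : uu (2 * M) q.1 q.2 ≠ n := by
  intro h
  unfold uu at h
  rcases le_total (q.1 / 2) (max (q.2 - 2 * M) 0) with h1 | h1
  · rw [min_eq_left h1] at h
    have := hq 1 0 (2 * n) (by push_cast; linarith)
    exact one_ne_zero this.1
  · rw [min_eq_right h1] at h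
    rcases le_total (q.2 - 2 * M) 0 with h2 | h2
    · rw [max_eq_right h2] at h
      have := hq 1 0 n (by push_cast; linarith)
      exact one_ne_zero this.1
    · rw [max_eq_left h2] at h
      have := hq 1 (-1) (n - 2 * M) (by push_cast; linarith)
      exact one_ne_zero this.1

/-- Uniqueness of the unit interval. -/
theorem int_unique70 (x : ℝ) (hx : ∀ n : ℤ, x ≠ n) (w i j : ℕ)
    (h1 : ((w * i : ℕ) : ℝ) ≤ x) (h2 : x ≤ ((w * (i + 1) : ℕ) : ℝ))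
    (h3 : ((w * j : ℕ) : ℝ) ≤ x) (h4 : x ≤ ((w * (j + 1) : ℕ) : ℝ)) : i = j := by
  have h2' : x < ((w * (i + 1) : ℕ) : ℝ) := lt_of_le_of_ne h2 (by
    have := hx ((w * (i + 1) : ℕ) : ℤ)
    exact_mod_cast this)
  have h4' : x < ((w * (j + 1) : ℕ) : ℝ) := lt_of_le_of_ne h4 (by
    have := hx ((w * (j + 1) : ℕ) : ℤ)
    exact_mod_cast this)
  have h5 : w * i < w * (j + 1) := by exact_mod_cast h1.trans_lt h4'
  have h6 : w * j < w * (i + 1) := by exact_mod_cast h3.trans_lt h2'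
  have h7 := Nat.lt_of_mul_lt_mul_left h5
  have h8 := Nat.lt_of_mul_lt_mul_left h6
  omega

theorem cell_unique70 (M : ℕ) (q : ℝ × ℝ) (hq : Gen70 q) (r i r' i' : ℕ)
    (h : q ∈ cell M r i) (h' : q ∈ cell M r' i') : r = r' ∧ i = i' := by
  obtain ⟨-, -, h1, h2, h3, h4⟩ := h
  obtain ⟨-, -, h1', h2', h3', h4'⟩ := h'
  have hr : r = r' := by
    refine int_unique70 q.2 (fun n hn => ?_) 1 r r' ?_ ?_ ?_ ?_
    · have := hq 0 1 n (by push_cast; linarith)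
      exact one_ne_zero this.2
    · push_cast; linarith
    · push_cast; linarith
    · push_cast; linarith
    · push_cast; linarith
  subst hr
  refine ⟨rfl, ?_⟩
  exact int_unique70 (uu (2 * M) q.1 q.2) (uu_gen70 M q hq) (wid M r) i i' h3 h4 h3' h4'

theorem tl_unique70 (M : ℕ) (a b : Idx M) (p : ℝ × ℝ) (hp : Gen70 p) (ha : p ∈ tl M a)
    (hb : p ∈ tl M b) : a = b := by
  have hX : ∀ a c : ℤ, (a : ℝ) * p.1 = c → a = 0 := fun a c h =>
    (hp a 0 c (by push_cast; linarith)).1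
  have hY : ∀ a c : ℤ, (a : ℝ) * p.2 = c → a = 0 := fun a c h =>
    (hp 0 a c (by push_cast; linarith)).2
  obtain ⟨a1, a2, a3, a4, a5, a6⟩ := facts70 M a p ha
  obtain ⟨b1, b2, b3, b4, b5, b6⟩ := facts70 M b p hb
  have hga : a.1.1 = b.1.1 := sq_unique70 M p.1 hX _ _ a1 b1
  have hgb : a.1.2 = b.1.2 := sq_unique70 M p.2 hY _ _ a2 b2
  have hg : a.1 = b.1 := Prod.ext hga hgb
  rw [← hga] at b3 b5 b6
  rw [← hgb] at b4 b5 b6
  have hX0 : p.1 - 2 * (4 * M + 1) * a.1.1 ≠ 0 := fun h =>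
    one_ne_zero (hX 1 (2 * (4 * M + 1) * a.1.1) (by push_cast; linarith))
  have hY0 : p.2 - 2 * (4 * M + 1) * a.1.2 ≠ 0 := fun h =>
    one_ne_zero (hY 1 (2 * (4 * M + 1) * a.1.2) (by push_cast; linarith))
  have hs : a.2.1.1 = b.2.1.1 := sg_unique70 _ hX0 _ _ a3 b3
  have ht : a.2.1.2.1 = b.2.1.2.1 := sg_unique70 _ hY0 _ _ a4 b4
  rw [← hs] at b5 b6
  rw [← ht] at b5 b6
  have hne : sg a.2.1.1 * (p.1 - 2 * (4 * M + 1) * a.1.1) ≠
      sg a.2.1.2.1 * (p.2 - 2 * (4 * M + 1) * a.1.2) := by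
    intro h
    rw [← sgz_cast70, ← sgz_cast70] at h
    have := hp (sgz70 a.2.1.1) (-sgz70 a.2.1.2.1)
      (sgz70 a.2.1.1 * (2 * (4 * M + 1) * a.1.1) - sgz70 a.2.1.2.1 * (2 * (4 * M + 1) * a.1.2))
      (by push_cast; linarith)
    exact sgz_ne70 _ this.1
  have hbb : a.2.1.2.2 = b.2.1.2.2 := by
    rcases Bool.eq_false_or_eq_true a.2.1.2.2 with h1 | h1 <;>
      rcases Bool.eq_false_or_eq_true b.2.1.2.2 with h2 | h2
    · rw [h1, h2]
    · exact absurd (le_antisymm (b5 h2) (a6 h1)) hne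
    · exact absurd (le_antisymm (a5 h1) (b6 h2)) hne
    · rw [h1, h2]
  have hc : a.2.1 = b.2.1 := Prod.ext hs (Prod.ext ht hbb)
  have hq := gen_unfold70 M a.1 a.2.1 p hp
  have hb' : unfold M a.1 a.2.1 p ∈ cell M (b.2.2.1.1 : ℕ) (b.2.2.1.2 : ℕ) := by
    rw [hg, hc]
    exact hb
  obtain ⟨hr, hi⟩ := cell_unique70 M _ hq _ _ _ _ ha hb'
  refine Prod.ext hg (Prod.ext hc ?_)
  apply Subtype.ext
  exact Prod.ext (Fin.ext hr) (Fin.ext hi)

theorem disj70 : StDisj := by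
  intro M _ a b hab
  rw [Set.disjoint_iff_inter_eq_empty]
  by_contra hne
  obtain ⟨p, hp, hg⟩ := exists_gen70 (interior (tl M a) ∩ interior (tl M b))
    (isOpen_interior.inter isOpen_interior) (Set.nonempty_iff_ne_empty.mpr hne)
  exact hab (tl_unique70 M a b p hg (interior_subset hp.1) (interior_subset hp.2))

end Pool.Agent.Lib.MP_82ac4a_mp
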