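import Pool.Agent.Lib.MP_82ac4a_mp.Defs30

/-!
MP_82ac4a (83): row DOS, from finite volumes to the density of states.
-/

namespace Pool.Agent.Lib.MP_82ac4a_mp

open Filter Topology MeasureTheory

/-- The tent of width 1/(k+1) around E. -/
noncomputable def tent83 (E : ℝ) (k : ℕ) (x : ℝ) : ℝ := max 0 (1 - ((k : ℝ) + 1) * |x - E|)

lemma tent83_nonneg (E : ℝ) (k : ℕ) (x : ℝ) : 0 ≤ tent83 E k x := le_max_left _ _

lemma tent83_le_one (E : ℝ) (k : ℕ) (x : ℝ) : tent83 E k x ≤ 1 := by
  unfold tent83
  refine max_le (by norm_num) ?_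
  have : 0 ≤ ((k : ℝ) + 1) * |x - E| := by positivity
  linarith

lemma tent83_self (E : ℝ) (k : ℕ) : tent83 E k E = 1 := by
  unfold tent83; simp

lemma tent83_cont (E : ℝ) (k : ℕ) : Continuous (tent83 E k) := by
  unfold tent83; fun_prop

lemma tent83_compact (E : ℝ) (k : ℕ) : HasCompactSupport (tent83 E k) := by
  refine HasCompactSupport.intro (isCompact_closedBall E 1) fun x hx => ?_
  unfold tent83
  rw [Metric.mem_closedBall, Real.dist_eq, not_le] at hx
  refine max_eq_left ?_
  have hk : (0 : ℝ) ≤ k := Nat.cast_nonneg k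
  nlinarith

lemma tent83_lim (E x : ℝ) : Tendsto (fun k => tent83 E k x) atTop
    (𝓝 (({E} : Set ℝ).indicator (fun _ => (1 : ℝ)) x)) := by
  by_cases hx : x = E
  · subst hx
    simp [tent83_self]
  · rw [Set.indicator_of_notMem (by simpa using hx)]
    refine tendsto_const_nhds.congr' ?_
    have hpos : 0 < |x - E| := abs_pos.mpr (sub_ne_zero.mpr hx)
    obtain ⟨K, hK⟩ := exists_nat_gt (1 / |x - E|)
    filter_upwards [eventually_ge_atTop K] with k hk
    have hk' : (K : ℝ) ≤ k := by exact_mod_cast hk
    have h1 : 1 < (k : ℝ) * |x - E| := by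
      have h2 := (div_lt_iff₀ hpos).mp hK
      nlinarith
    unfold tent83
    rw [eq_comm]
    refine max_eq_left ?_
    nlinarith

theorem dos83 : StDOS := by
  classical
  intro ι T E c V hV hc ν hν
  obtain ⟨hp, hν⟩ := hν
  have hf : ∀ k, c ≤ ∫ x, tent83 E k x ∂ν := by
    intro k
    have h := hν V hV (tent83 E k) (tent83_cont E k) (tent83_compact E k)
    refine ge_of_tendsto h ?_
    filter_upwards [hc] with n hn
    have hfin : (Function.support fun E' : ℝ => T.mass (V n) E' * tent83 E k E').Finite := by
      refine ((Module.End.finite_hasEigenvalue (T.lap (V n)))).subset ?_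
      intro E' hE'
      rw [Function.mem_support] at hE'
      have h1 : T.mass (V n) E' ≠ 0 := left_ne_zero_of_mul hE'
      unfold Tiling.mass at h1
      have h2 : Module.finrank ℝ (Module.End.eigenspace (T.lap (V n)) E') ≠ 0 := by
        intro h0
        apply h1
        rw [h0]; simp
      show Module.End.HasEigenvalue (T.lap (V n)) E'
      unfold Module.End.HasEigenvalue
      intro h0
      apply h2
      have h3 : Module.End.eigenspace (T.lap (V n)) E' = ⊥ := h0
      rw [h3]; exact finrank_bot ℝ _
    have hnn : ∀ E', 0 ≤ T.mass (V n) E' * tent83 E k E' := fun E' =>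
      mul_nonneg (by unfold Tiling.mass; positivity) (tent83_nonneg E k E')
    have h4 := single_le_finsum E hfin hnn
    rw [tent83_self, mul_one] at h4
    exact hn.trans h4
  have ht : Tendsto (fun k => ∫ x, tent83 E k x ∂ν) atTop
      (𝓝 (∫ x, ({E} : Set ℝ).indicator (fun _ => (1 : ℝ)) x ∂ν)) := by
    refine tendsto_integral_of_dominated_convergence (fun _ => (1 : ℝ)) ?_ ?_ ?_ ?_
    · exact fun k => (tent83_cont E k).aestronglyMeasurable
    · exact integrable_const 1
    · intro k
      refine Eventually.of_forall fun x => ?_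
      rw [Real.norm_eq_abs, abs_of_nonneg (tent83_nonneg E k x)]
      exact tent83_le_one E k x
    · exact Eventually.of_forall fun x => tent83_lim E x
  have he : ∫ x, ({E} : Set ℝ).indicator (fun _ => (1 : ℝ)) x ∂ν = (ν {E}).toReal := by
    rw [integral_indicator (measurableSet_singleton E)]
    simp [Measure.real]
  rw [he] at ht
  exact ge_of_tendsto' ht hf

end Pool.Agent.Lib.MP_82ac4a_mp
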