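import Pool.Agent.Lib.MP_82ac4a_mp.Base30

/-!
MP_82ac4a (30): the explicit family of tilings and the rows.
-/

namespace Pool.Agent.Lib.MP_82ac4a_mp

open Filter Topology MeasureTheory

/-! The explicit tilings. The parameter is M, R = 2 M, L = 2 R + 1. -/

/-- The folded angular coordinate. -/
noncomputable def uu (R : ℝ) (x y : ℝ) : ℝ := x - min (x / 2) (max (y - R) 0)

/-- The width of the cells in row r. -/
def wid (M r : ℕ) : ℕ := if 2 * M ≤ r ∧ r < 4 * M then 1 else 2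

/-- The number of cells in row r. -/
def num (M r : ℕ) : ℕ := if r < 2 * M then r / 2 + 1 else if r < 4 * M then 2 * M else M + 1

/-- The cells of the fundamental triangle 0 <= x <= y <= 4 M + 1. -/
def cell (M r i : ℕ) : Set (ℝ × ℝ) :=
  {q | 0 ≤ q.1 ∧ q.1 ≤ q.2 ∧ (r : ℝ) ≤ q.2 ∧ q.2 ≤ r + 1 ∧
    ((wid M r * i : ℕ) : ℝ) ≤ uu (2 * M) q.1 q.2 ∧
    uu (2 * M) q.1 q.2 ≤ ((wid M r * (i + 1) : ℕ) : ℝ)}

/-- Index of the cells: row and position. -/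
abbrev Cel (M : ℕ) : Type :=
  {c : Fin (4 * M + 1) × Fin (4 * M + 1) // (c.2 : ℕ) < num M (c.1 : ℕ)}

/-- Chambers modulo translation, times cells. -/
abbrev Fu (M : ℕ) : Type := (Bool × Bool × Bool) × Cel M

abbrev Idx (M : ℕ) : Type := (ℤ × ℤ) × Fu M

/-- The sign of a Bool. -/
def sg (b : Bool) : ℝ := if b then -1 else 1

/-- Fold back the chamber (m, n, s, t, b) to the fundamental triangle. -/
def unfold (M : ℕ) (g : ℤ × ℤ) (c : Bool × Bool × Bool) (p : ℝ × ℝ) : ℝ × ℝ :=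
  if c.2.2 then (sg c.2.1 * (p.2 - 2 * (4 * M + 1) * g.2), sg c.1 * (p.1 - 2 * (4 * M + 1) * g.1))
  else (sg c.1 * (p.1 - 2 * (4 * M + 1) * g.1), sg c.2.1 * (p.2 - 2 * (4 * M + 1) * g.2))

/-- The tiles. -/
def tl (M : ℕ) (a : Idx M) : Set (ℝ × ℝ) :=
  {p | unfold M a.1 a.2.1 p ∈ cell M (a.2.2.1.1 : ℕ) (a.2.2.1.2 : ℕ)}

/-- Ring tiles: rows 2 M <= r < 4 M. -/
def Ring (M : ℕ) (a : Fu M) : Prop := 2 * M ≤ (a.2.1.1 : ℕ) ∧ (a.2.1.1 : ℕ) < 4 * M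

open Classical in
/-- The amplitude of the mode: the determinant of the chamber, times (-1)^i, times f (r - 2 M + 1). -/
noncomputable def amp (M : ℕ) (f : ℕ → ℝ) (a : Fu M) : ℝ :=
  if Ring M a then sg a.1.1 * sg a.1.2.1 * sg a.1.2.2 * (-1) ^ (a.2.1.2 : ℕ) *
    f ((a.2.1.1 : ℕ) - 2 * M + 1) else 0

/-- Radial modes with eigenvalue E. -/
def Radial (M : ℕ) (E : ℝ) (f : ℕ → ℝ) : Prop :=
  f 0 = 0 ∧ f (2 * M + 1) = 0 ∧ f 1 ≠ 0 ∧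
    ∀ k, 1 ≤ k → k ≤ 2 * M → (6 - E) * f k = f (k - 1) + f (k + 1)

/-- The reflection of the chamber in its side x = 0. -/
def flipx (c : Bool × Bool × Bool) : Bool × Bool × Bool :=
  if c.2.2 then (c.1, !c.2.1, c.2.2) else (!c.1, c.2.1, c.2.2)

/-- The reflection of the chamber in its side x = y. -/
def flipd (c : Bool × Bool × Bool) : Bool × Bool × Bool := (c.1, c.2.1, !c.2.2)

/-! Rows. -/

def StPoly : Prop := ∀ M, 1 ≤ M → ∀ a : Idx M, IsPolygon (tl M a)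

def StCover : Prop := ∀ M, 1 ≤ M → ∀ p, ∃ a : Idx M, p ∈ tl M a

def StDisj : Prop := ∀ M, 1 ≤ M → ∀ a b : Idx M, a ≠ b →
  Disjoint (interior (tl M a)) (interior (tl M b))

/-- Finitely many prototiles, the same ones for all M. -/
def StProt : Prop := ∃ P : Set (Set (ℝ × ℝ)), P.Finite ∧ ∀ M, 1 ≤ M → ∀ a : Idx M,
  ∃ t ∈ P, ∃ v, tl M a = trans v t

/-- The neighbours of a ring tile a: position j (same chamber c, row r, index i).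
left / right / down / up. -/
def IsNb (M : ℕ) (a b : Idx M) : Prop :=
  b.1 = a.1 ∧
  ((b.2.1 = a.2.1 ∧ b.2.2.1.1 = a.2.2.1.1 ∧ ((b.2.2.1.2 : ℕ) = (a.2.2.1.2 : ℕ) + 1 ∨
      (b.2.2.1.2 : ℕ) + 1 = (a.2.2.1.2 : ℕ))) ∨
   (b.2.1 = flipx a.2.1 ∧ b.2.2 = a.2.2 ∧ (a.2.2.1.2 : ℕ) = 0) ∨
   (b.2.1 = flipd a.2.1 ∧ b.2.2 = a.2.2 ∧ (a.2.2.1.2 : ℕ) + 1 = 2 * M) ∨
   (b.2.1 = a.2.1 ∧ (b.2.2.1.1 : ℕ) = (a.2.2.1.1 : ℕ) + 1 ∧
      (b.2.2.1.2 : ℕ) = if (a.2.2.1.1 : ℕ) + 1 = 4 * M then (a.2.2.1.2 : ℕ) / 2 else (a.2.2.1.2 : ℕ)) ∨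
   (b.2.1 = a.2.1 ∧ (b.2.2.1.1 : ℕ) + 1 = (a.2.2.1.1 : ℕ) ∧
      (b.2.2.1.2 : ℕ) = if (a.2.2.1.1 : ℕ) = 2 * M then (a.2.2.1.2 : ℕ) / 2 else (a.2.2.1.2 : ℕ)))

/-- The neighbours of a ring tile. -/
def StAdj : Prop := ∀ M, 1 ≤ M → ∀ T : Tiling (Idx M), T.tile = tl M → ∀ a b : Idx M,
  Ring M a.2 → (T.Adj a b ↔ IsNb M a b)

/-- The mode is an eigenfunction of every finite volume that contains the square g. -/
def StEig : Prop := ∀ M, 1 ≤ M → ∀ T : Tiling (Idx M), T.tile = tl M → ∀ (E : ℝ) (f : ℕ → ℝ),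
  Radial M E f → ∀ (V : Finset (Idx M)) (g : ℤ × ℤ), (∀ c : Fu M, (g, c) ∈ V) →
    T.lap V (fun v => if v.1.1 = g then amp M f v.1.2 else 0) =
      E • (fun v : V => if v.1.1 = g then amp M f v.1.2 else 0)

def StLR : Prop := ∀ M, 1 ≤ M → ∀ T : Tiling (Idx M), T.tile = tl M → T.LinRep

def StVH : Prop := ∀ M, 1 ≤ M → ∀ T : Tiling (Idx M), T.tile = tl M → ∃ V, T.VanHove V

/-- Every radial mode gives a positive proportion of eigenvalues E. -/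
def StMass : Prop := ∀ M, 1 ≤ M → ∀ T : Tiling (Idx M), T.tile = tl M →
  ∃ c : ℝ, 0 < c ∧ ∀ (E : ℝ) (f : ℕ → ℝ), Radial M E f →
    ∀ V : ℕ → Finset (Idx M), T.VanHove V → ∀ᶠ n in atTop, c ≤ T.mass (V n) E

/-- From finite volumes to the density of states. -/
def StDOS : Prop := ∀ (ι : Type) (T : Tiling ι) (E c : ℝ) (V : ℕ → Finset ι), T.VanHove V →
  (∀ᶠ n in atTop, c ≤ T.mass (V n) E) → ∀ ν : Measure ℝ, T.IsDOS ν → c ≤ (ν {E}).toReal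

/-- The energies 6 - 2 cos (pi j / (2 M + 1)). -/
def StEn : Prop := ∀ M, 1 ≤ M → ∃ S : Finset ℝ, S.card = 2 * M ∧ ∀ E ∈ S, ∃ f, Radial M E f

end Pool.Agent.Lib.MP_82ac4a_mp
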