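import Pool.Agent.Lib.MP_82ac4a_mp.Defs30

/-! Row EN: the energies. -/

namespace Pool.Agent.Lib.MP_82ac4a_mp

open Real

theorem EN93 : StEn := by
  classical
  intro M hM
  have hL : (0 : ℝ) < 2 * M + 1 := by positivity
  set θ : ℕ → ℝ := fun j => π * j / (2 * M + 1) with hθ
  have hθ0 : ∀ j, 1 ≤ j → 0 < θ j := by
    intro j hj
    have : (0 : ℝ) < j := by exact_mod_cast hj
    have := pi_pos
    rw [hθ]
    positivity
  have hθ1 : ∀ j, j ≤ 2 * M → θ j < π := by
    intro j hj
    have h1 : (j : ℝ) ≤ 2 * M := by exact_mod_cast hj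
    rw [hθ]
    simp only
    rw [div_lt_iff₀ hL]
    have := pi_pos
    nlinarith
  refine ⟨(Finset.Icc 1 (2 * M)).image fun j => 6 - 2 * cos (θ j), ?_, ?_⟩
  · rw [Finset.card_image_of_injOn]
    · simp
    · intro a ha b hb hab
      rw [Finset.coe_Icc, Set.mem_Icc] at ha hb
      have h1 : cos (θ a) = cos (θ b) := by
        simp only at hab
        linarith
      have h2 : θ a = θ b := injOn_cos ⟨(hθ0 a ha.1).le, (hθ1 a ha.2).le⟩
        ⟨(hθ0 b hb.1).le, (hθ1 b hb.2).le⟩ h1
      rw [hθ] at h2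
      simp only at h2
      field_simp at h2
      exact_mod_cast h2
  · intro E hE
    rw [Finset.mem_image] at hE
    obtain ⟨j, hj, rfl⟩ := hE
    rw [Finset.mem_Icc] at hj
    refine ⟨fun k => sin (k * θ j), ?_, ?_, ?_, ?_⟩
    · simp
    · have h1 : ((2 * M + 1 : ℕ) : ℝ) * θ j = j * π := by
        rw [hθ]
        push_cast
        field_simp
      simp only
      rw [h1]
      exact sin_nat_mul_pi j
    · simp only [Nat.cast_one, one_mul]
      exact (sin_pos_of_pos_of_lt_pi (hθ0 j hj.1) (hθ1 j hj.2)).ne'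
    · intro k hk _
      have h1 : ((k - 1 : ℕ) : ℝ) = k - 1 := by
        rw [Nat.cast_sub hk, Nat.cast_one]
      simp only
      rw [h1]
      push_cast
      have h2 : ((k : ℝ) - 1) * θ j = k * θ j - θ j := by ring
      have h3 : ((k : ℝ) + 1) * θ j = k * θ j + θ j := by ring
      rw [h2, h3, sin_sub, sin_add]
      ring

end Pool.Agent.Lib.MP_82ac4a_mp
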