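import Pool.Agent.Lib.MP_82ac4a_mp.Defs30

/-!
MP_82ac4a (74), row LR: the tilings are periodic, hence of finite local complexity and
linearly repetitive.
-/

namespace Pool.Agent.Lib.MP_82ac4a_mp

namespace LR74

lemma fst_le_ed (p q : ℝ × ℝ) : |p.1 - q.1| ≤ ed p q := by
  unfold ed
  rw [← Real.sqrt_sq_eq_abs]
  exact Real.sqrt_le_sqrt (by nlinarith [sq_nonneg (p.2 - q.2)])

lemma snd_le_ed (p q : ℝ × ℝ) : |p.2 - q.2| ≤ ed p q := by
  unfold ed
  rw [← Real.sqrt_sq_eq_abs]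
  exact Real.sqrt_le_sqrt (by nlinarith [sq_nonneg (p.1 - q.1)])

lemma ed_le (p q : ℝ × ℝ) : ed p q ≤ |p.1 - q.1| + |p.2 - q.2| := by
  unfold ed
  rw [Real.sqrt_le_left (by positivity)]
  have h1 := sq_abs (p.1 - q.1)
  have h2 := sq_abs (p.2 - q.2)
  nlinarith [abs_nonneg (p.1 - q.1), abs_nonneg (p.2 - q.2),
    mul_nonneg (abs_nonneg (p.1 - q.1)) (abs_nonneg (p.2 - q.2))]

/-- Translation vector of the lattice. -/
def lv (M : ℕ) (h : ℤ × ℤ) : ℝ × ℝ := (2 * (4 * M + 1) * h.1, 2 * (4 * M + 1) * h.2)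

lemma per (M : ℕ) (g h : ℤ × ℤ) (c : Fu M) :
    tl M (g + h, c) = trans (lv M h) (tl M (g, c)) := by
  ext p
  have : unfold M (g + h) c.1 p = unfold M g c.1 (p - lv M h) := by
    unfold unfold lv
    simp only [Prod.fst_add, Prod.snd_add, Prod.fst_sub, Prod.snd_sub, Int.cast_add]
    split_ifs <;> ext <;> simp only <;> ring
  simp only [tl, trans, Set.mem_setOf_eq, this]

lemma sg_abs (b : Bool) (x : ℝ) : |sg b * x| = |x| := by
  unfold sg
  split_ifs <;> simp

/-- Tiles lie in their squares. -/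
lemma box (M : ℕ) (g : ℤ × ℤ) (c : Fu M) (p : ℝ × ℝ) (hp : p ∈ tl M (g, c)) :
    |p.1 - 2 * (4 * M + 1) * g.1| ≤ 4 * M + 1 ∧ |p.2 - 2 * (4 * M + 1) * g.2| ≤ 4 * M + 1 := by
  simp only [tl, Set.mem_setOf_eq, cell] at hp
  obtain ⟨h0, h1, -, h2, -, -⟩ := hp
  have hr : ((c.2.1.1 : ℕ) : ℝ) ≤ 4 * M := by
    have := c.2.1.1.2
    have h3 : (c.2.1.1 : ℕ) ≤ 4 * M := by omega
    exact_mod_cast h3
  have a1 : |(unfold M g c.1 p).1| ≤ 4 * M + 1 := by
    rw [abs_of_nonneg h0]; linarith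
  have a2 : |(unfold M g c.1 p).2| ≤ 4 * M + 1 := by
    rw [abs_of_nonneg (h0.trans h1)]; linarith
  unfold unfold at a1 a2
  by_cases hb : c.1.2.2 = true
  · rw [if_pos hb] at a1 a2
    simp only [sg_abs] at a1 a2
    exact ⟨a2, a1⟩
  · rw [if_neg hb] at a1 a2
    simp only [sg_abs] at a1 a2
    exact ⟨a1, a2⟩

lemma two (P : Set (ℝ × ℝ)) (hP : IsPolygon P) : ∃ p ∈ P, ∃ q ∈ P, 0 < ed p q := by
  obtain ⟨-, -, p, hp⟩ := hP
  obtain ⟨ε, hε, hb⟩ := Metric.isOpen_iff.mp isOpen_interior p hp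
  refine ⟨p, interior_subset hp, (p.1 + ε / 2, p.2), ?_, ?_⟩
  · apply interior_subset
    apply hb
    rw [Metric.mem_ball, Prod.dist_eq]
    simp only [Real.dist_eq, add_sub_cancel_left, sub_self, abs_zero]
    rw [abs_of_pos (by linarith)]
    exact max_lt (by linarith) hε
  · have := fst_le_ed p (p.1 + ε / 2, p.2)
    simp only [sub_add_cancel_left, abs_neg] at this
    rw [abs_of_pos (by linarith)] at this
    linarith

/-- All tiles are uniformly fat. -/
lemma fat (M : ℕ) (T : Tiling (Idx M)) (hT : T.tile = tl M) : ∃ δ : ℝ, 0 < δ ∧ ∀ a : Idx M,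
    ∃ p ∈ tl M a, ∃ q ∈ tl M a, δ ≤ ed p q := by
  have h : ∀ c : Fu M, ∃ d : ℝ, 0 < d ∧ ∃ p ∈ tl M (0, c), ∃ q ∈ tl M (0, c), d ≤ ed p q := by
    intro c
    obtain ⟨p, hp, q, hq, hd⟩ := two _ (T.polygon (0, c))
    rw [hT] at hp hq
    exact ⟨_, hd, p, hp, q, hq, le_rfl⟩
  choose d hd hpq using h
  have hmin : ∃ δ : ℝ, 0 < δ ∧ ∀ c, δ ≤ d c := by
    rcases isEmpty_or_nonempty (Fu M) with he | hne
    · exact ⟨1, one_pos, fun c => he.elim c⟩
    · obtain ⟨c0, hc0⟩ := Finite.exists_min d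
      exact ⟨d c0, hd c0, hc0⟩
  obtain ⟨δ, hδ, hle⟩ := hmin
  refine ⟨δ, hδ, ?_⟩
  rintro ⟨g, c⟩
  obtain ⟨p, hp, q, hq, hpq⟩ := hpq c
  have hp' := per M 0 g c
  rw [zero_add] at hp'
  refine ⟨p + lv M g, ?_, q + lv M g, ?_, ?_⟩
  · rw [hp']
    simpa only [trans, Set.mem_setOf_eq, add_sub_cancel_right] using hp
  · rw [hp']
    simpa only [trans, Set.mem_setOf_eq, add_sub_cancel_right] using hq
  · have : ed (p + lv M g) (q + lv M g) = ed p q := by
      unfold ed
      simp only [Prod.fst_add, Prod.snd_add, add_sub_add_right_eq_sub]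
    rw [this]
    exact (hle c).trans hpq

end LR74

open LR74

theorem lr74 : StLR := by
  intro M hM T hT
  obtain ⟨δ, hδ, hfat⟩ := fat M T hT
  have hM0 : (0 : ℝ) ≤ M := Nat.cast_nonneg M
  refine ⟨?_, ?_⟩
  · -- finite local complexity
    intro r
    classical
    set K : ℤ := ⌈r + 2 * (4 * M + 1)⌉ with hK
    refine ⟨((Finset.Icc (-K) K ×ˢ Finset.Icc (-K) K) ×ˢ (Finset.univ : Finset (Fu M))).powerset, ?_⟩
    intro P hP
    rcases P.eq_empty_or_nonempty with rfl | ⟨i0, hi0⟩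
    · exact ⟨∅, by simp, 0, by simp⟩
    · refine ⟨P.image (fun a => (a.1 - i0.1, a.2)), ?_, lv M i0.1, ?_⟩
      · rw [Finset.mem_powerset]
        intro b hb
        rw [Finset.mem_image] at hb
        obtain ⟨a, ha, rfl⟩ := hb
        obtain ⟨p, hp, -, -, -⟩ := hfat a
        obtain ⟨q, hq, -, -, -⟩ := hfat i0
        have hpq := hP a ha i0 hi0 p (by rw [hT]; exact hp) q (by rw [hT]; exact hq)
        have e1 := (fst_le_ed p q).trans hpq
        have e2 := (snd_le_ed p q).trans hpq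
        obtain ⟨b1, b2⟩ := box M a.1 a.2 p hp
        obtain ⟨b3, b4⟩ := box M i0.1 i0.2 q hq
        have key : ∀ (x y : ℝ) (m n : ℤ), |x - y| ≤ r → |x - 2 * (4 * M + 1) * m| ≤ 4 * M + 1 →
            |y - 2 * (4 * M + 1) * n| ≤ 4 * M + 1 → -K ≤ m - n ∧ m - n ≤ K := by
          intro x y m n h1 h2 h3
          have hKr : r + 2 * (4 * M + 1) ≤ (K : ℝ) := Int.le_ceil _
          rw [abs_le] at h1 h2 h3
          have u1 : 2 * (4 * (M : ℝ) + 1) * ((m : ℝ) - n) ≤ K := by nlinarith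
          have u2 : -(K : ℝ) ≤ 2 * (4 * (M : ℝ) + 1) * ((m : ℝ) - n) := by nlinarith
          have hK0 : (0 : ℝ) ≤ K := by linarith
          constructor
          · by_contra hcon
            push Not at hcon
            have : ((m - n : ℤ) : ℝ) < -K := by exact_mod_cast hcon
            push_cast at this
            nlinarith
          · by_contra hcon
            push Not at hcon
            have : (K : ℝ) < ((m - n : ℤ) : ℝ) := by exact_mod_cast hcon
            push_cast at this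
            nlinarith
        obtain ⟨k1, k2⟩ := key _ _ _ _ e1 b1 b3
        obtain ⟨k3, k4⟩ := key _ _ _ _ e2 b2 b4
        simp only [Finset.mem_product, Finset.mem_Icc, Finset.mem_univ, and_true,
          Prod.fst_sub, Prod.snd_sub]
        exact ⟨⟨k1, k2⟩, ⟨k3, k4⟩⟩
      · rw [Finset.coe_image, Set.image_image, Set.image_image]
        apply Set.image_congr
        intro a _
        rw [hT]
        have := per M (a.1 - i0.1) i0.1 a.2
        rw [sub_add_cancel] at this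
        exact this
  · -- linear repetitivity
    refine ⟨2 + 6 * (4 * M + 1) / δ, by positivity, ?_⟩
    intro r P hPne hP x
    obtain ⟨i0, hi0⟩ := hPne
    have hr : δ ≤ r := by
      obtain ⟨p, hp, q, hq, hpq⟩ := hfat i0
      exact hpq.trans (hP i0 hi0 i0 hi0 p (by rw [hT]; exact hp) q (by rw [hT]; exact hq))
    have hround : ∀ t : ℝ, ∃ n : ℤ, |2 * (4 * (M : ℝ) + 1) * n - t| ≤ 2 * (4 * M + 1) := by
      intro t
      refine ⟨⌊t / (2 * (4 * M + 1))⌋, ?_⟩
      have h1 := Int.floor_le (t / (2 * (4 * (M : ℝ) + 1)))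
      have h2 := Int.lt_floor_add_one (t / (2 * (4 * (M : ℝ) + 1)))
      rw [le_div_iff₀ (by positivity)] at h1
      rw [div_lt_iff₀ (by positivity)] at h2
      rw [abs_le]
      constructor <;> nlinarith
    obtain ⟨m, hm⟩ := hround x.1
    obtain ⟨n, hn⟩ := hround x.2
    refine ⟨lv M ((m, n) - i0.1), ?_⟩
    intro i hi
    refine ⟨(i.1 + ((m, n) - i0.1), i.2), ?_, ?_⟩
    · rw [hT]
      exact per M i.1 _ i.2
    · intro p hp
      rw [hT, per, trans, Set.mem_setOf_eq] at hp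
      -- a point of the translate of the tile i0
      obtain ⟨q, hq, -, -, -⟩ := hfat ((m, n), i0.2)
      have hq' := hq
      have hpe := per M i0.1 ((m, n) - i0.1) i0.2
      rw [add_sub_cancel] at hpe
      rw [hpe, trans, Set.mem_setOf_eq] at hq'
      have hpq := hP i hi i0 hi0 _ (by rw [hT]; exact hp) _ (by rw [hT]; exact hq')
      have e1 := (fst_le_ed _ _).trans hpq
      have e2 := (snd_le_ed _ _).trans hpq
      simp only [Prod.fst_sub, Prod.snd_sub, sub_sub_sub_cancel_right] at e1 e2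
      obtain ⟨b1, b2⟩ := box M (m, n) i0.2 q hq
      simp only at b1 b2
      have f1 : |p.1 - x.1| ≤ r + 3 * (4 * M + 1) := by
        have : p.1 - x.1 = (p.1 - q.1) + (q.1 - 2 * (4 * M + 1) * m) +
          (2 * (4 * M + 1) * m - x.1) := by ring
        rw [this]
        refine (abs_add_three _ _ _).trans ?_
        linarith
      have f2 : |p.2 - x.2| ≤ r + 3 * (4 * M + 1) := by
        have : p.2 - x.2 = (p.2 - q.2) + (q.2 - 2 * (4 * M + 1) * n) +
          (2 * (4 * M + 1) * n - x.2) := by ring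
        rw [this]
        refine (abs_add_three _ _ _).trans ?_
        linarith
      refine (ed_le p x).trans ?_
      have hδr : 6 * (4 * (M : ℝ) + 1) ≤ 6 * (4 * M + 1) / δ * r := by
        rw [div_mul_eq_mul_div, le_div_iff₀ hδ]
        exact mul_le_mul_of_nonneg_left hr (by positivity)
      nlinarith

end Pool.Agent.Lib.MP_82ac4a_mp
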