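import Mathlib

/-!
Limits of probability measures on an interval whose moments converge along every sequence of a
family.
-/

set_option autoImplicit false

open MeasureTheory Set Filter Topology Polynomial
open scoped BoundedContinuousFunction

namespace Pool.Agent.Lib.MP_82ac4a_mp.RMK2

variable {a b : ℝ}

/-- The expected limit of the integral of a polynomial. -/
noncomputable def mom (m : ℕ → ℝ) (p : ℝ[X]) : ℝ :=
  ∑ k ∈ Finset.range (p.natDegree + 1), p.coeff k * m k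

theorem integrable_of {μ : Measure ℝ} [IsProbabilityMeasure μ] (hμ : ∀ᵐ x ∂μ, x ∈ Icc a b)
    {f : ℝ → ℝ} (hf : Continuous f) : Integrable f μ := by
  obtain ⟨C, hC⟩ := (isCompact_Icc (a := a) (b := b)).exists_bound_of_continuousOn hf.continuousOn
  refine Integrable.mono' (integrable_const C) hf.aestronglyMeasurable ?_
  filter_upwards [hμ] with x hx
  exact hC x hx

theorem integral_poly {μ : Measure ℝ} [IsProbabilityMeasure μ] (hμ : ∀ᵐ x ∂μ, x ∈ Icc a b)
    (p : ℝ[X]) : ∫ x, p.eval x ∂μ = mom (fun k => ∫ x, x ^ k ∂μ) p := by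
  simp only [eval_eq_sum_range]
  rw [integral_finsetSum _ fun k _ => (integrable_of hμ (by fun_prop))]
  refine Finset.sum_congr rfl fun k _ => ?_
  rw [integral_const_mul]

theorem tendsto_poly {μ : ℕ → Measure ℝ} [∀ n, IsProbabilityMeasure (μ n)]
    (hμ : ∀ n, ∀ᵐ x ∂μ n, x ∈ Icc a b) {m : ℕ → ℝ}
    (hm : ∀ k, Tendsto (fun n => ∫ x, x ^ k ∂μ n) atTop (𝓝 (m k))) (p : ℝ[X]) :
    Tendsto (fun n => ∫ x, p.eval x ∂μ n) atTop (𝓝 (mom m p)) := by
  simp only [fun n => integral_poly (hμ n) p]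
  exact tendsto_finsetSum _ fun k _ => (hm k).const_mul _

theorem close {μ : Measure ℝ} [IsProbabilityMeasure μ] (hμ : ∀ᵐ x ∂μ, x ∈ Icc a b) {f g : ℝ → ℝ}
    (hf : Continuous f) (hg : Continuous g) {e : ℝ} (he : ∀ x ∈ Icc a b, |f x - g x| ≤ e) :
    |∫ x, f x ∂μ - ∫ x, g x ∂μ| ≤ e := by
  rw [← integral_sub (integrable_of hμ hf) (integrable_of hμ hg)]
  have h := norm_integral_le_of_norm_le_const (μ := μ) (f := fun x => f x - g x) (C := e)
    (by filter_upwards [hμ] with x hx; exact he x hx)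
  simpa using h

/-- The limit exists along one sequence. -/
theorem exists_lim {μ : ℕ → Measure ℝ} [∀ n, IsProbabilityMeasure (μ n)]
    (hμ : ∀ n, ∀ᵐ x ∂μ n, x ∈ Icc a b) {m : ℕ → ℝ}
    (hm : ∀ k, Tendsto (fun n => ∫ x, x ^ k ∂μ n) atTop (𝓝 (m k))) :
    ∃ ν : Measure ℝ, IsProbabilityMeasure ν ∧ (∀ᵐ x ∂ν, x ∈ Icc a b) ∧
      ∀ p : ℝ[X], ∫ x, p.eval x ∂ν = mom m p := by
  have hp : ∀ n, IsProbabilityMeasure ((μ n).comap (Subtype.val : Icc a b → ℝ)) := by
    intro n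
    constructor
    rw [Measure.comap_apply _ Subtype.val_injective (fun s hs =>
      measurableSet_Icc.subtype_image hs) _ MeasurableSet.univ, image_univ, Subtype.range_coe]
    exact (prob_compl_eq_zero_iff measurableSet_Icc).1 (hμ n)
  let P : ℕ → ProbabilityMeasure (Icc a b) := fun n => ⟨_, hp n⟩
  obtain ⟨ν, hν⟩ := exists_clusterPt_of_compactSpace (map P atTop)
  refine ⟨(ν : Measure (Icc a b)).map Subtype.val,
    Measure.isProbabilityMeasure_map measurable_subtype_coe.aemeasurable, ?_, fun p => ?_⟩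
  · refine (ae_map_iff (p := fun x => x ∈ Icc a b) measurable_subtype_coe.aemeasurable
      measurableSet_Icc).2 ?_
    exact Eventually.of_forall fun x => x.2
  · rw [integral_map measurable_subtype_coe.aemeasurable (by fun_prop)]
    let g : Icc a b →ᵇ ℝ := BoundedContinuousFunction.mkOfCompact ⟨fun x => p.eval (x : ℝ),
      by fun_prop⟩
    have hc : Continuous fun ρ : ProbabilityMeasure (Icc a b) => ∫ x, g x ∂(ρ : Measure (Icc a b)) :=
      ProbabilityMeasure.continuous_integral_boundedContinuousFunction g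
    have h1 : ClusterPt (∫ x, g x ∂(ν : Measure (Icc a b)))
        (map (fun n => ∫ x, g x ∂(P n : Measure (Icc a b))) atTop) := by
      have := hν.map hc.continuousAt (tendsto_map)
      rwa [Filter.map_map] at this
    have h2 : Tendsto (fun n => ∫ x, g x ∂(P n : Measure (Icc a b))) atTop (𝓝 (mom m p)) := by
      refine (tendsto_poly hμ hm p).congr fun n => ?_
      show _ = ∫ x : Icc a b, p.eval (x : ℝ) ∂((μ n).comap Subtype.val)
      rw [integral_subtype_comap measurableSet_Icc (fun x => p.eval x),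
        Measure.restrict_eq_self_of_ae_mem (hμ n)]
    exact eq_of_nhds_neBot (h1.mono h2)

/-- The limit measure for a nonempty family of sequences of probability measures on `[a, b]` with
the same limits of the moments. -/
theorem dos_of_moments {ι : Type*} {W : Set ι} (hW : W.Nonempty) (hab : a ≤ b)
    (μ : ι → ℕ → Measure ℝ)
    (hμ : ∀ i ∈ W, ∀ᶠ n in atTop, IsProbabilityMeasure (μ i n) ∧ ∀ᵐ x ∂μ i n, x ∈ Icc a b)
    (m : ℕ → ℝ) (hm : ∀ i ∈ W, ∀ k, Tendsto (fun n => ∫ x, x ^ k ∂μ i n) atTop (𝓝 (m k))) :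
    ∃ ν : Measure ℝ, IsProbabilityMeasure ν ∧ (∀ᵐ x ∂ν, x ∈ Icc a b) ∧
      ∀ i ∈ W, ∀ f : ℝ → ℝ, Continuous f →
        Tendsto (fun n => ∫ x, f x ∂μ i n) atTop (𝓝 (∫ x, f x ∂ν)) := by
  classical
  -- replace the measures which are not good
  let μ' : ι → ℕ → Measure ℝ := fun i n =>
    if IsProbabilityMeasure (μ i n) ∧ ∀ᵐ x ∂μ i n, x ∈ Icc a b then μ i n else Measure.dirac a
  have hp : ∀ i n, IsProbabilityMeasure (μ' i n) := by
    intro i n
    by_cases h : IsProbabilityMeasure (μ i n) ∧ ∀ᵐ x ∂μ i n, x ∈ Icc a b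
    · simp only [μ', if_pos h]; exact h.1
    · simp only [μ', if_neg h]; infer_instance
  have hs : ∀ i n, ∀ᵐ x ∂μ' i n, x ∈ Icc a b := by
    intro i n
    by_cases h : IsProbabilityMeasure (μ i n) ∧ ∀ᵐ x ∂μ i n, x ∈ Icc a b
    · simp only [μ', if_pos h]; exact h.2
    · simp only [μ', if_neg h]
      exact (ae_dirac_iff (p := fun x => x ∈ Icc a b) measurableSet_Icc).2 ⟨le_refl _, hab⟩
  have he : ∀ i ∈ W, ∀ f : ℝ → ℝ, (fun n => ∫ x, f x ∂μ i n) =ᶠ[atTop]
      fun n => ∫ x, f x ∂μ' i n := by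
    intro i hi f
    filter_upwards [hμ i hi] with n hn
    simp only [μ', if_pos hn]
  have hm' : ∀ i ∈ W, ∀ k, Tendsto (fun n => ∫ x, x ^ k ∂μ' i n) atTop (𝓝 (m k)) :=
    fun i hi k => (hm i hi k).congr' (he i hi _)
  obtain ⟨i0, hi0⟩ := hW
  obtain ⟨ν, hν, hνs, hνp⟩ := exists_lim (hs i0) (hm' i0 hi0)
  refine ⟨ν, hν, hνs, fun i hi f hf => Tendsto.congr' (he i hi f).symm ?_⟩
  rw [Metric.tendsto_atTop]
  intro e he0
  obtain ⟨p, hp1⟩ := exists_polynomial_near_of_continuousOn a b f hf.continuousOn (e / 4)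
    (by linarith)
  have hp2 : ∀ x ∈ Icc a b, |f x - p.eval x| ≤ e / 4 := fun x hx => by
    rw [abs_sub_comm]; exact (hp1 x hx).le
  obtain ⟨N, hN⟩ := Metric.tendsto_atTop.1 (tendsto_poly (hs i) (hm' i hi) p) (e / 4)
    (by linarith)
  refine ⟨N, fun n hn => ?_⟩
  have h1 := close (hs i n) hf p.continuous hp2
  have h2 := close hνs hf p.continuous hp2
  have h3 := hN n hn
  rw [Real.dist_eq] at h3 ⊢
  rw [hνp p] at h2
  rw [abs_le] at h1 h2
  rw [abs_lt] at h3 ⊢
  constructor <;> linarith [h1.1, h1.2, h2.1, h2.2, h3.1, h3.2]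

/-- The measure with the masses `w`. -/
noncomputable def msr (w : ℝ → ℝ) : Measure ℝ :=
  ∑ᶠ E : ℝ, ENNReal.ofReal (w E) • Measure.dirac E

theorem msr_eq {w : ℝ → ℝ} (hf : w.support.Finite) :
    msr w = ∑ E ∈ hf.toFinset, ENNReal.ofReal (w E) • Measure.dirac E := by
  refine finsum_eq_sum_of_support_subset _ fun E hE => ?_
  rw [Finite.coe_toFinset, Function.mem_support]
  intro h0
  apply hE
  show ENNReal.ofReal (w E) • Measure.dirac E = 0
  rw [h0, ENNReal.ofReal_zero, zero_smul]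

theorem integral_msr {w : ℝ → ℝ} (hf : w.support.Finite) (h0 : ∀ E, 0 ≤ w E) (f : ℝ → ℝ) :
    ∫ x, f x ∂msr w = ∑ᶠ E : ℝ, w E * f E := by
  have h1 : ∑ᶠ E : ℝ, w E * f E = ∑ E ∈ hf.toFinset, w E * f E := by
    refine finsum_eq_sum_of_support_subset _ fun E hE => ?_
    rw [Finite.coe_toFinset, Function.mem_support]
    intro h0
    exact hE (by show w E * f E = 0; rw [h0, zero_mul])
  rw [h1, msr_eq hf, integral_finsetSum_measure]
  · refine Finset.sum_congr rfl fun E _ => ?_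
    rw [integral_smul_measure, integral_dirac, ENNReal.toReal_ofReal (h0 E), smul_eq_mul]
  · intro E _
    exact (integrable_dirac (by simp [enorm_lt_top])).smul_measure ENNReal.ofReal_ne_top

theorem prob_msr {w : ℝ → ℝ} (hf : w.support.Finite) (h0 : ∀ E, 0 ≤ w E)
    (h1 : ∑ᶠ E : ℝ, w E = 1) : IsProbabilityMeasure (msr w) := by
  constructor
  rw [msr_eq hf, Measure.finsetSum_apply]
  simp only [Measure.smul_apply, measure_univ, smul_eq_mul, mul_one]
  rw [← ENNReal.ofReal_sum_of_nonneg fun E _ => h0 E]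
  have h2 : ∑ E ∈ hf.toFinset, w E = 1 := by
    rw [← h1]
    exact (finsum_eq_sum_of_support_subset _ fun E hE => by
      rwa [Finite.coe_toFinset]).symm
  rw [h2, ENNReal.ofReal_one]

theorem ae_msr {w : ℝ → ℝ} (hf : w.support.Finite) (h2 : ∀ E, w E ≠ 0 → E ∈ Icc a b) :
    ∀ᵐ x ∂msr w, x ∈ Icc a b := by
  rw [msr_eq hf, ae_iff]
  rw [Measure.finsetSum_apply]
  refine Finset.sum_eq_zero fun E hE => ?_
  have hE' : E ∈ Icc a b := h2 E (by
    rw [Finite.mem_toFinset] at hE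
    exact hE)
  have hm : MeasurableSet {x : ℝ | ¬ x ∈ Icc a b} := measurableSet_Icc.compl
  rw [Measure.smul_apply, Measure.dirac_apply' _ hm, indicator_of_notMem (by
    intro h; exact h hE'), smul_zero]

/-- The limit measure for a nonempty family of sequences of finite mass distributions on `[a, b]`
with the same limits of the moments. -/
theorem dos_of_mass {ι : Type*} {W : Set ι} (hW : W.Nonempty) (hab : a ≤ b)
    (w : ι → ℕ → ℝ → ℝ)
    (hw : ∀ i ∈ W, ∀ᶠ n in atTop, (∀ E, 0 ≤ w i n E) ∧ (w i n).support.Finite ∧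
      ∑ᶠ E : ℝ, w i n E = 1 ∧ ∀ E, w i n E ≠ 0 → E ∈ Icc a b)
    (m : ℕ → ℝ)
    (hm : ∀ i ∈ W, ∀ k, Tendsto (fun n => ∑ᶠ E : ℝ, w i n E * E ^ k) atTop (𝓝 (m k))) :
    ∃ ν : Measure ℝ, IsProbabilityMeasure ν ∧ ∀ i ∈ W, ∀ f : ℝ → ℝ, Continuous f →
      Tendsto (fun n => ∑ᶠ E : ℝ, w i n E * f E) atTop (𝓝 (∫ x, f x ∂ν)) := by
  have he : ∀ i ∈ W, ∀ f : ℝ → ℝ, (fun n => ∫ x, f x ∂msr (w i n)) =ᶠ[atTop]
      fun n => ∑ᶠ E : ℝ, w i n E * f E := by
    intro i hi f
    filter_upwards [hw i hi] with n hn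
    exact integral_msr hn.2.1 hn.1 f
  obtain ⟨ν, hν, -, h⟩ := dos_of_moments hW hab (fun i n => msr (w i n))
    (fun i hi => by
      filter_upwards [hw i hi] with n hn
      exact ⟨prob_msr hn.2.1 hn.1 hn.2.2.1, ae_msr hn.2.1 hn.2.2.2⟩) m
    (fun i hi k => (hm i hi k).congr' (he i hi _).symm)
  exact ⟨ν, hν, fun i hi f hf => (h i hi f hf).congr' (he i hi f)⟩

end Pool.Agent.Lib.MP_82ac4a_mp.RMK2
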