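import Mathlib

/-!
MP_82ac4a (38): the eigenvalues of a symmetric operator on functions on a finite set.
-/

namespace Pool.Agent.Lib.MP_82ac4a_mp

open Module.End

theorem spec38s {V : Type*} [Fintype V] [DecidableEq V] (A : (V → ℝ) →ₗ[ℝ] (V → ℝ))
    (hA : ∀ x y : V → ℝ, ∑ v, A x v * y v = ∑ v, x v * A y v) :
    ∃ lam : V → ℝ,
      (∀ E : ℝ, Module.finrank ℝ (Module.End.eigenspace A E) =
        (Finset.univ.filter fun v : V => lam v = E).card) ∧
      (∀ f : ℝ → ℝ, ∑ᶠ E : ℝ, (Module.finrank ℝ (Module.End.eigenspace A E) : ℝ) * f E =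
        ∑ i, f (lam i)) ∧
      ∀ k : ℕ, ∑ i, lam i ^ k = ∑ v, (A ^ k) (Pi.single v 1) v := by
  let e : (V → ℝ) ≃ₗ[ℝ] EuclideanSpace ℝ V := (WithLp.linearEquiv 2 ℝ (V → ℝ)).symm
  let T : EuclideanSpace ℝ V →ₗ[ℝ] EuclideanSpace ℝ V := e.conj A
  have hTa : ∀ x, T (e x) = e (A x) := by
    intro x
    simp [T, LinearEquiv.conj_apply]
  have hT : T.IsSymmetric := by
    intro x y
    obtain ⟨x, rfl⟩ := e.surjective x
    obtain ⟨y, rfl⟩ := e.surjective y
    rw [hTa, hTa]
    have h1 : ∀ a b : V → ℝ, inner ℝ (e a) (e b) = ∑ v, a v * b v := by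
      intro a b
      rw [PiLp.inner_apply]
      refine Finset.sum_congr rfl fun v _ => ?_
      simp [e, mul_comm]
    rw [h1, h1]
    exact hA x y
  have hn : Module.finrank ℝ (EuclideanSpace ℝ V) = Fintype.card V := finrank_euclideanSpace
  let g := Fintype.equivFin V
  have hfin : ∀ E : ℝ, Module.finrank ℝ (eigenspace A E) =
      (Finset.univ.filter fun v : V => hT.eigenvalues hn (g v) = E).card := by
    intro E
    have h1 := hT.card_filter_eigenvalues_eq hn E
    have h2 : (Finset.univ.filter fun v : V => hT.eigenvalues hn (g v) = E).card =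
        (Finset.univ.filter fun i => (hT.eigenvalues hn i : ℝ) = E).card := by
      apply Finset.card_equiv g
      simp
    have h3 : eigenspace T E = (eigenspace A E).map (e : (V → ℝ) →ₗ[ℝ] EuclideanSpace ℝ V) := by
      ext x
      obtain ⟨x, rfl⟩ := e.surjective x
      rw [mem_eigenspace_iff, hTa, Submodule.mem_map]
      constructor
      · intro h
        refine ⟨x, mem_eigenspace_iff.2 (e.injective ?_), rfl⟩
        rw [h, map_smul]
      · rintro ⟨y, hy, hyx⟩
        have : y = x := e.injective hyx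
        subst this
        rw [mem_eigenspace_iff.1 hy, map_smul]
    rw [h2]
    refine Eq.trans ?_ h1.symm
    rw [h3]
    exact (LinearEquiv.finrank_map_eq e _).symm
  refine ⟨fun v => hT.eigenvalues hn (g v), hfin, fun f => ?_, fun k => ?_⟩
  · rw [finsum_eq_sum_of_support_subset (s := Finset.univ.image
      fun v : V => hT.eigenvalues hn (g v)) _ (by
        intro E hE
        by_contra hc
        apply hE
        simp only [Finset.coe_image, Finset.coe_univ, Set.image_univ, Set.mem_range,
          not_exists] at hc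
        show (_ : ℝ) * f E = 0
        rw [hfin E, Finset.card_eq_zero.2 (Finset.filter_eq_empty_iff.2 fun v _ => hc v)]
        simp)]
    rw [Finset.sum_comp f (fun v : V => hT.eigenvalues hn (g v))]
    refine Finset.sum_congr rfl fun E _ => ?_
    rw [hfin E, nsmul_eq_mul]
  · have h1 : LinearMap.trace ℝ (V → ℝ) (A ^ k) = ∑ v, (A ^ k) (Pi.single v 1) v := by
      rw [LinearMap.trace_eq_matrix_trace ℝ (Pi.basisFun ℝ V), Matrix.trace]
      refine Finset.sum_congr rfl fun v _ => ?_
      rw [Matrix.diag_apply, LinearMap.toMatrix_apply, Pi.basisFun_apply, Pi.basisFun_repr]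
    have h2 : T ^ k = e.conj (A ^ k) := by
      refine LinearMap.ext fun x => ?_
      obtain ⟨x, rfl⟩ := e.surjective x
      have : ∀ m : ℕ, (T ^ m) (e x) = e ((A ^ m) x) := by
        intro m
        induction m with
        | zero => simp
        | succ m im => rw [pow_succ', pow_succ', Module.End.mul_apply, Module.End.mul_apply,
            im, hTa]
      rw [this]
      simp [LinearEquiv.conj_apply]
    have h3 : LinearMap.trace ℝ (V → ℝ) (A ^ k) = LinearMap.trace ℝ _ (T ^ k) := by
      rw [h2, LinearMap.trace_conj']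
    rw [← h1, h3, LinearMap.trace_eq_sum_inner _ (hT.eigenvectorBasis hn)]
    rw [Fintype.sum_equiv g (fun v => hT.eigenvalues hn (g v) ^ k)
      (fun i => hT.eigenvalues hn i ^ k) fun v => rfl]
    refine Finset.sum_congr rfl fun i _ => ?_
    have h4 := (hT.hasEigenvector_eigenvectorBasis hn i).pow_apply k
    rw [h4, inner_smul_right, real_inner_self_eq_norm_sq, OrthonormalBasis.norm_eq_one]
    simp

theorem spec38 {V : Type*} [Fintype V] [DecidableEq V] (A : (V → ℝ) →ₗ[ℝ] (V → ℝ))
    (hA : ∀ x y : V → ℝ, ∑ v, A x v * y v = ∑ v, x v * A y v) :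
    ∃ lam : V → ℝ,
      (∀ f : ℝ → ℝ, ∑ᶠ E : ℝ, (Module.finrank ℝ (Module.End.eigenspace A E) : ℝ) * f E =
        ∑ i, f (lam i)) ∧
      ∀ k : ℕ, ∑ i, lam i ^ k = ∑ v, (A ^ k) (Pi.single v 1) v := by
  obtain ⟨lam, -, h1, h2⟩ := spec38s A hA
  exact ⟨lam, h1, h2⟩

end Pool.Agent.Lib.MP_82ac4a_mp
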