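import Pool.Agent.Lib.MP_82ac4a_mp.Defs30

/-!
MP_82ac4a (41), row VH: the boxes of squares are a van Hove sequence.
-/

set_option autoImplicit false

namespace Pool.Agent.Lib.MP_82ac4a_mp

open Filter Topology

namespace VH41

theorem abs_sg_mul (b : Bool) (t : ℝ) : |sg b * t| = |t| := by
  cases b <;> simp [sg]

theorem in_box {M : ℕ} {a : Idx M} {p : ℝ × ℝ} (h : p ∈ tl M a) :
    |p.1 - 2 * (4 * M + 1) * a.1.1| ≤ 4 * M + 1 ∧
      |p.2 - 2 * (4 * M + 1) * a.1.2| ≤ 4 * M + 1 := by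
  have hr : ((a.2.2.1.1 : ℕ) : ℝ) + 1 ≤ 4 * M + 1 := by
    have : (a.2.2.1.1 : ℕ) + 1 ≤ 4 * M + 1 := a.2.2.1.1.2
    exact_mod_cast this
  have h' : unfold M a.1 a.2.1 p ∈ cell M (a.2.2.1.1 : ℕ) (a.2.2.1.2 : ℕ) := h
  obtain ⟨h1, h2, h3, h4, -⟩ := h'
  have h5 : (unfold M a.1 a.2.1 p).2 ≤ 4 * M + 1 := h4.trans hr
  have h6 : (unfold M a.1 a.2.1 p).1 ≤ 4 * M + 1 := h2.trans h5
  have h7 : 0 ≤ (unfold M a.1 a.2.1 p).2 := h1.trans h2
  unfold unfold at h1 h5 h6 h7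
  split_ifs at h1 h5 h6 h7 with hb
  · refine ⟨?_, ?_⟩
    · rw [← abs_sg_mul a.2.1.1, abs_of_nonneg h7]; exact h5
    · rw [← abs_sg_mul a.2.1.2.1, abs_of_nonneg h1]; exact h6
  · refine ⟨?_, ?_⟩
    · rw [← abs_sg_mul a.2.1.1, abs_of_nonneg h1]; exact h6
    · rw [← abs_sg_mul a.2.1.2.1, abs_of_nonneg h7]; exact h5

/-- The bound for the distance of the squares. -/
noncomputable def KK (ρ : ℝ) : ℕ := ⌈|ρ|⌉₊ + 1

theorem near_aux {L x y ρ : ℝ} (hL : 1 ≤ L) {m n : ℤ} (hx : |x - 2 * L * m| ≤ L)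
    (hy : |y - 2 * L * n| ≤ L) (hxy : |x - y| ≤ ρ) : |(m : ℤ) - n| ≤ (KK ρ : ℤ) := by
  have h1 : |2 * L * ((m : ℝ) - n)| ≤ 2 * L + ρ := by
    have h2 : 2 * L * ((m : ℝ) - n) = -(x - 2 * L * m) + (y - 2 * L * n) + (x - y) := by ring
    rw [h2]
    refine (abs_add_le _ _).trans ?_
    have h3 := abs_add_le (-(x - 2 * L * m)) (y - 2 * L * n)
    rw [abs_neg] at h3
    linarith
  rw [abs_mul, abs_of_pos (by linarith : (0 : ℝ) < 2 * L)] at h1
  have hρ : ρ ≤ |ρ| := le_abs_self ρ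
  have h0 : 0 ≤ |ρ| := abs_nonneg ρ
  have h4 : |(m : ℝ) - n| ≤ 1 + |ρ| := by
    by_contra hc
    push Not at hc
    nlinarith
  have h5 : |ρ| ≤ (⌈|ρ|⌉₊ : ℝ) := Nat.le_ceil _
  have h6 : |(m : ℝ) - n| ≤ ((⌈|ρ|⌉₊ + 1 : ℕ) : ℝ) := by push_cast; linarith
  have h7 : ((|m - n| : ℤ) : ℝ) ≤ (((⌈|ρ|⌉₊ + 1 : ℕ) : ℤ) : ℝ) := by
    push_cast
    push_cast at h6
    exact h6
  exact_mod_cast h7

theorem near {M : ℕ} {a b : Idx M} {p q : ℝ × ℝ} {ρ : ℝ} (hp : p ∈ tl M a) (hq : q ∈ tl M b)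
    (h : ed p q ≤ ρ) : |a.1.1 - b.1.1| ≤ (KK ρ : ℤ) ∧ |a.1.2 - b.1.2| ≤ (KK ρ : ℤ) := by
  have hL : (1 : ℝ) ≤ 4 * M + 1 := by
    have : (0 : ℝ) ≤ M := Nat.cast_nonneg M
    linarith
  have h1 : |p.1 - q.1| ≤ ρ :=
    (Real.abs_le_sqrt (by nlinarith [sq_nonneg (p.2 - q.2)])).trans h
  have h2 : |p.2 - q.2| ≤ ρ :=
    (Real.abs_le_sqrt (by nlinarith [sq_nonneg (p.1 - q.1)])).trans h
  obtain ⟨a1, a2⟩ := in_box hp
  obtain ⟨b1, b2⟩ := in_box hq
  exact ⟨near_aux hL a1 b1 h1, near_aux hL a2 b2 h2⟩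

/-- The box of squares. -/
noncomputable def box (n : ℕ) : Finset (ℤ × ℤ) := Finset.Icc (-(n : ℤ)) n ×ˢ Finset.Icc (-(n : ℤ)) n

theorem card_box (n : ℕ) : (box n).card = (2 * n + 1) ^ 2 := by
  rw [box, Finset.card_product, Int.card_Icc]
  have : ((n : ℤ) + 1 - -(n : ℤ)).toNat = 2 * n + 1 := by omega
  rw [this, sq]

theorem mem_box {n : ℕ} {g : ℤ × ℤ} : g ∈ box n ↔ |g.1| ≤ (n : ℤ) ∧ |g.2| ≤ (n : ℤ) := by
  simp only [box, Finset.mem_product, Finset.mem_Icc, abs_le]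

/-- The finite volumes. -/
noncomputable def vol (M n : ℕ) : Finset (Idx M) := box n ×ˢ (Finset.univ : Finset (Fu M))

theorem mem_vol {M n : ℕ} {a : Idx M} : a ∈ vol M n ↔ |a.1.1| ≤ (n : ℤ) ∧ |a.1.2| ≤ (n : ℤ) := by
  simp only [vol, Finset.mem_product, Finset.mem_univ, and_true, mem_box]

theorem card_vol (M n : ℕ) : (vol M n).card = (2 * n + 1) ^ 2 * Fintype.card (Fu M) := by
  rw [vol, Finset.card_product, card_box, Finset.card_univ]

theorem vol_mono (M : ℕ) : Monotone (vol M) := by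
  intro m n h a ha
  rw [mem_vol] at ha ⊢
  have : (m : ℤ) ≤ n := by exact_mod_cast h
  exact ⟨ha.1.trans this, ha.2.trans this⟩

theorem vanHove (M : ℕ) (T : Tiling (Idx M)) (hT : T.tile = tl M) : T.VanHove (vol M) := by
  classical
  refine ⟨vol_mono M, fun a => ⟨a.1.1.natAbs + a.1.2.natAbs, ?_⟩, fun ρ => ?_⟩
  · rw [mem_vol, Int.abs_eq_natAbs, Int.abs_eq_natAbs]
    omega
  · have hlim : Tendsto (fun n : ℕ => (4 * (KK ρ : ℝ)) / (2 * (n : ℝ) + 1)) atTop (𝓝 0) := by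
      refine tendsto_const_nhds.div_atTop ?_
      refine tendsto_atTop_add_const_right _ _ ?_
      exact tendsto_natCast_atTop_atTop.const_mul_atTop (by norm_num)
    refine tendsto_of_tendsto_of_tendsto_of_le_of_le' tendsto_const_nhds hlim
      (Eventually.of_forall fun n => by positivity) ?_
    filter_upwards [eventually_ge_atTop (KK ρ)] with n hn
    obtain ⟨m, rfl⟩ := Nat.exists_eq_add_of_le hn
    have hsub : ((vol M (KK ρ + m)).filter fun i => ∃ j, j ∉ vol M (KK ρ + m) ∧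
        ∃ p ∈ T.tile i, ∃ q ∈ T.tile j, ed p q ≤ ρ) ⊆ vol M (KK ρ + m) \ vol M m := by
      intro i hi
      rw [Finset.mem_filter] at hi
      obtain ⟨hi, j, hj, p, hp, q, hq, hpq⟩ := hi
      rw [Finset.mem_sdiff]
      refine ⟨hi, fun him => hj ?_⟩
      rw [hT] at hp hq
      obtain ⟨h1, h2⟩ := near hp hq hpq
      rw [mem_vol] at him ⊢
      push_cast
      refine ⟨?_, ?_⟩
      · have h3 : |j.1.1| ≤ |i.1.1| + |i.1.1 - j.1.1| := by
          have h4 := abs_sub (i.1.1) (i.1.1 - j.1.1)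
          have h5 : i.1.1 - (i.1.1 - j.1.1) = j.1.1 := by ring
          rw [h5] at h4
          exact h4
        omega
      · have h3 : |j.1.2| ≤ |i.1.2| + |i.1.2 - j.1.2| := by
          have h4 := abs_sub (i.1.2) (i.1.2 - j.1.2)
          have h5 : i.1.2 - (i.1.2 - j.1.2) = j.1.2 := by ring
          rw [h5] at h4
          exact h4
        omega
    have hcard := Finset.card_le_card hsub
    rw [Finset.card_sdiff_of_subset (vol_mono M (Nat.le_add_left m (KK ρ))), card_vol, card_vol] at hcard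
    have hcard' : ((((vol M (KK ρ + m)).filter fun i => ∃ j, j ∉ vol M (KK ρ + m) ∧
        ∃ p ∈ T.tile i, ∃ q ∈ T.tile j, ed p q ≤ ρ).card : ℕ) : ℝ) ≤
        4 * (KK ρ : ℝ) * (2 * ((KK ρ + m : ℕ) : ℝ) + 1) * Fintype.card (Fu M) := by
      have h1 : (2 * (KK ρ + m) + 1) ^ 2 * Fintype.card (Fu M) -
          (2 * m + 1) ^ 2 * Fintype.card (Fu M) ≤
          4 * KK ρ * (2 * (KK ρ + m) + 1) * Fintype.card (Fu M) := by
        rw [← Nat.sub_mul]
        refine Nat.mul_le_mul_right _ ?_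
        rw [Nat.sub_le_iff_le_add]
        nlinarith [Nat.zero_le (KK ρ), Nat.zero_le m, Nat.zero_le (KK ρ * m),
          Nat.zero_le (KK ρ * KK ρ)]
      have h2 := hcard.trans h1
      exact_mod_cast h2
    rw [card_vol]
    rcases Nat.eq_zero_or_pos (Fintype.card (Fu M)) with h0 | h0
    · rw [h0]
      simp only [mul_zero, Nat.cast_zero, div_zero]
      positivity
    · have hpos : (0 : ℝ) < Fintype.card (Fu M) := by exact_mod_cast h0
      have hn1 : (0 : ℝ) < 2 * ((KK ρ + m : ℕ) : ℝ) + 1 := by positivity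
      rw [div_le_div_iff₀ (by push_cast; positivity) hn1]
      calc _ ≤ 4 * (KK ρ : ℝ) * (2 * ((KK ρ + m : ℕ) : ℝ) + 1) * Fintype.card (Fu M) *
            (2 * ((KK ρ + m : ℕ) : ℝ) + 1) := mul_le_mul_of_nonneg_right hcard' hn1.le
        _ = _ := by push_cast; ring

end VH41

theorem vh41 : StVH := fun M _ T hT => ⟨VH41.vol M, VH41.vanHove M T hT⟩

end Pool.Agent.Lib.MP_82ac4a_mp
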