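import Pool.Agent.Lib.MP_82ac4a_mp.Mom83
import Pool.Agent.Lib.MP_82ac4a_mp.SPEC38
import Pool.Agent.Lib.MP_82ac4a_mp.RMK2
import Pool.Agent.Lib.MP_82ac4a_mp.VH41
import Pool.Agent.Lib.MP_82ac4a_mp.LR74

/-!
MP_82ac4a (83): the density of states measure of the tilings exists. The moments of the finite
volumes converge (Mom83), the spectral form is SPEC38 (38), the measure is RMK2 (2).
-/

set_option autoImplicit false

namespace Pool.Agent.Lib.MP_82ac4a_mp

open Filter Topology MeasureTheory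

namespace EX83

section

variable {ι : Type} (T : Tiling ι)

lemma lap_symm (V : Finset ι) (x y : V → ℝ) :
    ∑ v, T.lap V x v * y v = ∑ v, x v * T.lap V y v := by
  classical
  have e1 : ∀ v, T.lap V x v * y v = ∑ u : V, if T.Adj v u then x v * y v - x u * y v else 0 := by
    intro v
    show (∑ u : V, if T.Adj v u then x v - x u else 0) * y v = _
    rw [Finset.sum_mul]
    refine Finset.sum_congr rfl fun u _ => ?_
    split_ifs <;> ring
  have e2 : ∀ v, x v * T.lap V y v = ∑ u : V, if T.Adj v u then x v * y v - x v * y u else 0 := by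
    intro v
    show x v * (∑ u : V, if T.Adj v u then y v - y u else 0) = _
    rw [Finset.mul_sum]
    refine Finset.sum_congr rfl fun u _ => ?_
    split_ifs <;> ring
  simp only [e1, e2]
  have e3 : (∑ v : V, ∑ u : V, if T.Adj v u then x u * y v else 0) =
      ∑ v : V, ∑ u : V, if T.Adj v u then x v * y u else 0 := by
    rw [Finset.sum_comm]
    refine Finset.sum_congr rfl fun u _ => Finset.sum_congr rfl fun v _ => ?_
    have : T.Adj (v : ι) u ↔ T.Adj (u : ι) v := ⟨fun h => adj_symm' T h, fun h => adj_symm' T h⟩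
    simp only [this]
  have e4 : ∀ a b : V → V → ℝ, (∑ v : V, ∑ u : V, if T.Adj v u then a v u - b v u else 0) =
      (∑ v : V, ∑ u : V, if T.Adj v u then a v u else 0) -
      ∑ v : V, ∑ u : V, if T.Adj v u then b v u else 0 := by
    intro a b
    rw [← Finset.sum_sub_distrib]
    refine Finset.sum_congr rfl fun v _ => ?_
    rw [← Finset.sum_sub_distrib]
    refine Finset.sum_congr rfl fun u _ => ?_
    split_ifs <;> ring
  rw [e4 (fun v _ => x v * y v) fun v u => x u * y v, e4 (fun v _ => x v * y v) fun v u => x v * y u,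
    e3]

lemma mass_ne (V : Finset ι) (E : ℝ) (h : T.mass V E ≠ 0) :
    Module.End.HasEigenvalue (T.lap V) E := by
  unfold Tiling.mass at h
  have h2 : Module.finrank ℝ (Module.End.eigenspace (T.lap V) E) ≠ 0 := by
    intro h0
    apply h
    rw [h0]; simp
  unfold Module.End.HasEigenvalue
  intro h0
  apply h2
  have h3 : Module.End.eigenspace (T.lap V) E = ⊥ := h0
  rw [h3]; exact finrank_bot ℝ _

lemma mass_fin (V : Finset ι) : (T.mass V).support.Finite :=
  (Module.End.finite_hasEigenvalue (T.lap V)).subset fun E hE => mass_ne T V E hE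

lemma mass_bd (D : ℕ) (hD : ∀ (v : ι) (W : Finset ι), (∀ u ∈ W, T.Adj v u) → W.card ≤ D)
    (V : Finset ι) (E : ℝ) (h : T.mass V E ≠ 0) : E ∈ Set.Icc (-(2 * (D : ℝ))) (2 * D) := by
  obtain ⟨φ, hφ⟩ := (mass_ne T V E h).exists_hasEigenvector
  exact abs_le.mp (eig_bound T D hD V φ hφ.2 E hφ.apply_eq_smul)

/-- The spectral form: every finite volume functional is a normalized sum over eigenvalues, and
the moments are normalized traces. -/
lemma mass_spec (V : Finset ι) (hV : 0 < V.card) :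
    (∑ᶠ E : ℝ, T.mass V E = 1) ∧
      ∀ k : ℕ, ∑ᶠ E : ℝ, T.mass V E * E ^ k = (∑ v : V, (T.lap V ^ k) (dl v) v) / V.card := by
  classical
  obtain ⟨lam, h1, h2⟩ := spec38 (T.lap V) (lap_symm T V)
  have hV' : (V.card : ℝ) ≠ 0 := by exact_mod_cast hV.ne'
  have h3 : ∀ f : ℝ → ℝ, ∑ᶠ E : ℝ, T.mass V E * f E = (∑ i, f (lam i)) / V.card := by
    intro f
    rw [← h1 f, div_eq_inv_mul, ← smul_eq_mul, smul_finsum]
    refine finsum_congr fun E => ?_
    unfold Tiling.mass
    simp only [smul_eq_mul]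
    ring
  refine ⟨?_, ?_⟩
  · have h := h3 fun _ => 1
    simp only [mul_one] at h
    rw [h]
    simp only [Finset.sum_const, Finset.card_univ, Fintype.card_coe, nsmul_eq_mul, mul_one]
    exact div_self hV'
  · intro k
    rw [h3 fun E => E ^ k, h2 k]
    congr 1
    refine Finset.sum_congr rfl fun v _ => ?_
    have : (dl v : V → ℝ) = Pi.single v 1 := by
      funext w
      by_cases h : w = v
      · simp [dl, h]
      · simp [dl, h]
    rw [this]

end

lemma trans_nontrivial (v : ℝ × ℝ) (P Q : Set (ℝ × ℝ)) :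
    (trans v P ∩ trans v Q).Nontrivial ↔ (P ∩ Q).Nontrivial := by
  constructor
  · rintro ⟨x, hx, y, hy, hxy⟩
    exact ⟨x - v, hx, y - v, hy, fun h => hxy (sub_left_injective h)⟩
  · rintro ⟨x, hx, y, hy, hxy⟩
    refine ⟨x + v, ?_, y + v, ?_, fun h => hxy (add_left_injective v h)⟩
    · simp only [trans, Set.mem_inter_iff, Set.mem_ofPred_eq, add_sub_cancel_right]
      exact hx
    · simp only [trans, Set.mem_inter_iff, Set.mem_ofPred_eq, add_sub_cancel_right]
      exact hy

lemma per_adj (M : ℕ) (T : Tiling (Idx M)) (hT : T.tile = tl M) : Per T.Adj where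
  loc := by
    rintro a b ⟨-, p, ⟨hpa, hpb⟩, -⟩
    rw [hT] at hpa hpb
    have h : ed p p ≤ 0 := by simp [ed]
    have h1 := VH41.near hpa hpb h
    simpa [VH41.KK] using h1
  per := by
    intro h a b
    unfold Tiling.Adj
    rw [hT, LR74.per M a.1 h a.2, LR74.per M b.1 h b.2, trans_nontrivial]
    have : ((a.1 + h, a.2) : Idx M) ≠ (b.1 + h, b.2) ↔ a ≠ b := by
      constructor
      · rintro h1 rfl
        exact h1 rfl
      · intro h1 h2
        apply h1
        have h3 := Prod.mk.inj h2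
        exact Prod.ext (add_left_injective h h3.1) h3.2
    rw [this]

lemma bd_lim (M : ℕ) (T : Tiling (Idx M)) (hT : T.tile = tl M) (V : ℕ → Finset (Idx M))
    (hV : T.VanHove V) (m : ℕ) :
    Tendsto (fun n => ((bd (V n) m).card : ℝ) / (V n).card) atTop (𝓝 0) := by
  classical
  refine squeeze_zero (fun n => by positivity) (fun n => ?_)
    (hV.2.2 (4 * (4 * (M : ℝ) + 1) * (m + 1)))
  refine div_le_div_of_nonneg_right ?_ (by positivity)
  refine Nat.cast_le.mpr (Finset.card_le_card ?_)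
  intro v hv
  obtain ⟨hvV, w, hw, h1, h2⟩ := Finset.mem_filter.mp hv
  refine Finset.mem_filter.mpr ⟨hvV, w, hw, ?_⟩
  obtain ⟨p, hp⟩ : (T.tile v).Nonempty := (T.polygon v).2.2.mono interior_subset
  obtain ⟨q, hq⟩ : (T.tile w).Nonempty := (T.polygon w).2.2.mono interior_subset
  refine ⟨p, hp, q, hq, ?_⟩
  rw [hT] at hp hq
  obtain ⟨a1, a2⟩ := VH41.in_box hp
  obtain ⟨b1, b2⟩ := VH41.in_box hq
  refine (LR74.ed_le p q).trans ?_
  have key : ∀ (x y : ℝ) (i j : ℤ), |x - 2 * (4 * M + 1) * i| ≤ 4 * M + 1 →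
      |y - 2 * (4 * M + 1) * j| ≤ 4 * M + 1 → |i - j| ≤ (m : ℤ) →
      |x - y| ≤ 2 * (4 * (M : ℝ) + 1) * (m + 1) := by
    intro x y i j hx hy hij
    have hij' : |(i : ℝ) - j| ≤ m := by exact_mod_cast hij
    have hL : (0 : ℝ) ≤ 4 * M + 1 := by positivity
    rw [abs_le] at hx hy hij' ⊢
    constructor <;> nlinarith [mul_le_mul_of_nonneg_left hij'.1 hL,
      mul_le_mul_of_nonneg_left hij'.2 hL]
  have k1 := key _ _ _ _ a1 b1 h1
  have k2 := key _ _ _ _ a2 b2 h2
  linarith

end EX83

open EX83 in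
/-- The density of states measure of the tilings exists. -/
theorem exdos83 (M : ℕ) (T : Tiling (Idx M)) (hT : T.tile = tl M) : ∃ ν, T.IsDOS ν := by
  classical
  obtain ⟨i0, -⟩ := T.cover (0, 0)
  have hne : Nonempty (Fu M) := ⟨i0.2⟩
  have hA := per_adj M T hT
  have hcard : ∀ V, T.VanHove V → ∀ᶠ n in atTop, 0 < (V n).card := by
    intro V hV
    obtain ⟨n0, hn0⟩ := hV.2.1 i0
    filter_upwards [eventually_ge_atTop n0] with n hn
    exact Finset.card_pos.mpr ⟨i0, hV.1 hn hn0⟩
  have hW : {V : ℕ → Finset (Idx M) | T.VanHove V}.Nonempty :=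
    ⟨VH41.vol M, VH41.vanHove M T hT⟩
  set D := 9 * Fintype.card (Fu M) with hD
  have hab : (-(2 * (D : ℝ))) ≤ 2 * D := by
    have : (0 : ℝ) ≤ D := Nat.cast_nonneg D
    linarith
  obtain ⟨ν, hν, h⟩ := RMK2.dos_of_mass hW hab (fun V n E => T.mass (V n) E) (by
      intro V hV
      filter_upwards [hcard V hV] with n hn
      refine ⟨fun E => by unfold Tiling.mass; positivity, mass_fin T (V n),
        (mass_spec T (V n) hn).1, fun E hE => mass_bd T D (deg_le hA) (V n) E hE⟩)
    (avg T.Adj) (by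
      intro V hV k
      refine (tr_lim T hA k V (hcard V hV) (bd_lim M T hT V hV)).congr' ?_
      filter_upwards [hcard V hV] with n hn
      exact ((mass_spec T (V n) hn).2 k).symm)
  exact ⟨ν, hν, fun V hV f hf _ => h V hV f hf⟩

end Pool.Agent.Lib.MP_82ac4a_mp
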