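import Pool.Agent.Lib.MP_82ac4a_mp.Defs30

/-! Row EIG (21): the radial modes are eigenfunctions of every finite volume that contains
their square. -/

namespace Pool.Agent.Lib.MP_82ac4a_mp

open Filter Topology

namespace Eig21

theorem num_ring {M r : ℕ} (h1 : 2 * M ≤ r) (h2 : r < 4 * M) : num M r = 2 * M := by
  unfold num
  rw [if_neg (by omega), if_pos h2]

theorem num_low {M r : ℕ} (h1 : r < 2 * M) : num M r = r / 2 + 1 := by
  unfold num
  rw [if_pos h1]

theorem num_top {M r : ℕ} (h1 : 4 * M ≤ r) : num M r = M + 1 := by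
  unfold num
  rw [if_neg (by omega), if_neg (by omega)]

theorem num_le {M r : ℕ} (hM : 1 ≤ M) : num M r ≤ 2 * M := by
  unfold num
  split_ifs <;> omega

/-- The cell in row r and position i. -/
def mkc (M r i : ℕ) (hM : 1 ≤ M) (hr : r ≤ 4 * M) (hi : i < num M r) : Cel M :=
  ⟨(⟨r, by omega⟩, ⟨i, by have := num_le (r := r) hM; omega⟩), hi⟩

theorem idx_ext {M : ℕ} {a b : Idx M} (h1 : a.1 = b.1) (h2 : a.2.1 = b.2.1)
    (h3 : (a.2.2.1.1 : ℕ) = b.2.2.1.1) (h4 : (a.2.2.1.2 : ℕ) = b.2.2.1.2) : a = b := by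
  obtain ⟨g, c, ⟨⟨r, i⟩, h⟩⟩ := a
  obtain ⟨g', c', ⟨⟨r', i'⟩, h'⟩⟩ := b
  simp only at h1 h2 h3 h4
  subst h1 h2
  have e3 : r = r' := Fin.ext h3
  have e4 : i = i' := Fin.ext h4
  subst e3 e4
  rfl

/-- The determinant of the chamber. -/
def DD (c : Bool × Bool × Bool) : ℝ := sg c.1 * sg c.2.1 * sg c.2.2

theorem DD_flipx (c : Bool × Bool × Bool) : DD (flipx c) = - DD c := by
  obtain ⟨s, t, b⟩ := c
  cases s <;> cases t <;> cases b <;> simp [DD, flipx, sg]

theorem DD_flipd (c : Bool × Bool × Bool) : DD (flipd c) = - DD c := by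
  obtain ⟨s, t, b⟩ := c
  cases s <;> cases t <;> cases b <;> simp [DD, flipd, sg]

theorem flipx_ne : ∀ c : Bool × Bool × Bool, flipx c ≠ c := by decide

theorem flipd_ne : ∀ c : Bool × Bool × Bool, flipd c ≠ c := by decide

theorem amp_ring {M : ℕ} (f : ℕ → ℝ) (a : Fu M) (h : Ring M a) :
    amp M f a = DD a.1 * (-1) ^ (a.2.1.2 : ℕ) * f ((a.2.1.1 : ℕ) - 2 * M + 1) := by
  unfold amp DD
  rw [if_pos h]

theorem amp_not {M : ℕ} (f : ℕ → ℝ) (a : Fu M) (h : ¬ Ring M a) : amp M f a = 0 := by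
  unfold amp
  rw [if_neg h]

theorem left_nb {M : ℕ} (hM : 1 ≤ M) (f : ℕ → ℝ) (a : Idx M) (ha : Ring M a.2) :
    ∃ L : Idx M, (∀ b : Idx M, (b.1 = a.1 ∧ ((b.2.1 = a.2.1 ∧ b.2.2.1.1 = a.2.2.1.1 ∧
      (b.2.2.1.2 : ℕ) + 1 = (a.2.2.1.2 : ℕ)) ∨
      (b.2.1 = flipx a.2.1 ∧ b.2.2 = a.2.2 ∧ (a.2.2.1.2 : ℕ) = 0))) ↔ b = L) ∧ L.1 = a.1 ∧
      amp M f L.2 = - amp M f a.2 ∧ (L.2.2.1.1 : ℕ) = a.2.2.1.1 := by
  obtain ⟨g, c, ⟨⟨r, i⟩, h⟩⟩ := a
  obtain ⟨h1, h2⟩ := ha
  simp only at h h1 h2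
  have hn := num_ring h1 h2
  by_cases hi : (i : ℕ) = 0
  · refine ⟨(g, flipx c, ⟨(r, i), h⟩), ?_, rfl, ?_, rfl⟩
    · intro b
      constructor
      · rintro ⟨e1, ⟨-, -, e4⟩ | ⟨e2, e3, -⟩⟩
        · simp only at e4
          omega
        · exact Prod.ext e1 (Prod.ext e2 e3)
      · rintro rfl
        exact ⟨rfl, Or.inr ⟨rfl, rfl, hi⟩⟩
    · rw [amp_ring f _ ⟨h1, h2⟩, amp_ring f _ ⟨h1, h2⟩]
      simp only [DD_flipx]
      ring
  · refine ⟨(g, c, mkc M r (i - 1) hM (by omega) (by omega)), ?_, rfl, ?_, rfl⟩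
    · intro b
      constructor
      · rintro ⟨e1, ⟨e2, e3, e4⟩ | ⟨-, -, e4⟩⟩
        · refine idx_ext e1 e2 (by rw [e3]; rfl) ?_
          simp only [mkc] at e4 ⊢
          omega
        · exact absurd e4 hi
      · rintro rfl
        refine ⟨rfl, Or.inl ⟨rfl, rfl, ?_⟩⟩
        simp only [mkc]
        omega
    · rw [amp_ring f _ ⟨h1, h2⟩, amp_ring f _ ⟨h1, h2⟩]
      simp only [mkc]
      obtain ⟨k, hk⟩ : ∃ k, (i : ℕ) = k + 1 := ⟨(i : ℕ) - 1, by omega⟩
      rw [hk, Nat.add_sub_cancel, pow_succ]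
      ring

theorem right_nb {M : ℕ} (hM : 1 ≤ M) (f : ℕ → ℝ) (a : Idx M) (ha : Ring M a.2) :
    ∃ L : Idx M, (∀ b : Idx M, (b.1 = a.1 ∧ ((b.2.1 = a.2.1 ∧ b.2.2.1.1 = a.2.2.1.1 ∧
      (b.2.2.1.2 : ℕ) = (a.2.2.1.2 : ℕ) + 1) ∨
      (b.2.1 = flipd a.2.1 ∧ b.2.2 = a.2.2 ∧ (a.2.2.1.2 : ℕ) + 1 = 2 * M))) ↔ b = L) ∧
      L.1 = a.1 ∧ amp M f L.2 = - amp M f a.2 ∧ (L.2.2.1.1 : ℕ) = a.2.2.1.1 := by
  obtain ⟨g, c, ⟨⟨r, i⟩, h⟩⟩ := a
  obtain ⟨h1, h2⟩ := ha
  simp only at h h1 h2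
  have hn := num_ring h1 h2
  by_cases hi : (i : ℕ) + 1 = 2 * M
  · refine ⟨(g, flipd c, ⟨(r, i), h⟩), ?_, rfl, ?_, rfl⟩
    · intro b
      constructor
      · rintro ⟨e1, ⟨-, e3, e4⟩ | ⟨e2, e3, -⟩⟩
        · exfalso
          have hb := b.2.2.2
          simp only at e3 e4
          rw [e3] at hb
          omega
        · exact Prod.ext e1 (Prod.ext e2 e3)
      · rintro rfl
        exact ⟨rfl, Or.inr ⟨rfl, rfl, hi⟩⟩
    · rw [amp_ring f _ ⟨h1, h2⟩, amp_ring f _ ⟨h1, h2⟩]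
      simp only [DD_flipd]
      ring
  · refine ⟨(g, c, mkc M r (i + 1) hM (by omega) (by omega)), ?_, rfl, ?_, rfl⟩
    · intro b
      constructor
      · rintro ⟨e1, ⟨e2, e3, e4⟩ | ⟨-, -, e4⟩⟩
        · exact idx_ext e1 e2 (by rw [e3]; rfl) e4
        · exact absurd e4 hi
      · rintro rfl
        exact ⟨rfl, Or.inl ⟨rfl, rfl, rfl⟩⟩
    · rw [amp_ring f _ ⟨h1, h2⟩, amp_ring f _ ⟨h1, h2⟩]
      simp only [mkc]
      rw [pow_succ]
      ring

theorem up_nb {M : ℕ} (hM : 1 ≤ M) (f : ℕ → ℝ) (hf : f (2 * M + 1) = 0) (a : Idx M)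
    (ha : Ring M a.2) :
    ∃ L : Idx M, (∀ b : Idx M, (b.1 = a.1 ∧ (b.2.1 = a.2.1 ∧
      (b.2.2.1.1 : ℕ) = (a.2.2.1.1 : ℕ) + 1 ∧ (b.2.2.1.2 : ℕ) =
      if (a.2.2.1.1 : ℕ) + 1 = 4 * M then (a.2.2.1.2 : ℕ) / 2 else (a.2.2.1.2 : ℕ))) ↔ b = L) ∧
      L.1 = a.1 ∧ amp M f L.2 =
        DD a.2.1 * (-1) ^ (a.2.2.1.2 : ℕ) * f ((a.2.2.1.1 : ℕ) - 2 * M + 1 + 1) ∧
      (L.2.2.1.1 : ℕ) = a.2.2.1.1 + 1 := by
  obtain ⟨g, c, ⟨⟨r, i⟩, h⟩⟩ := a
  obtain ⟨h1, h2⟩ := ha
  simp only at h h1 h2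
  have hn := num_ring h1 h2
  by_cases hr : (r : ℕ) + 1 = 4 * M
  · have hn2 : num M ((r : ℕ) + 1) = M + 1 := num_top (by omega)
    refine ⟨(g, c, mkc M (r + 1) (i / 2) hM (by omega) (by omega)), ?_, rfl, ?_, rfl⟩
    · intro b
      simp only
      rw [if_pos hr]
      constructor
      · rintro ⟨e1, e2, e3, e4⟩
        exact idx_ext e1 e2 e3 e4
      · rintro rfl
        exact ⟨rfl, rfl, rfl, rfl⟩
    · rw [amp_not]
      · have e : (r : ℕ) - 2 * M + 1 + 1 = 2 * M + 1 := by omega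
        simp only [e, hf, mul_zero]
      · rintro ⟨-, h4⟩
        simp only [mkc] at h4
        omega
  · have hn2 : num M ((r : ℕ) + 1) = 2 * M := num_ring (by omega) (by omega)
    refine ⟨(g, c, mkc M (r + 1) i hM (by omega) (by omega)), ?_, rfl, ?_, rfl⟩
    · intro b
      simp only
      rw [if_neg hr]
      constructor
      · rintro ⟨e1, e2, e3, e4⟩
        exact idx_ext e1 e2 e3 e4
      · rintro rfl
        exact ⟨rfl, rfl, rfl, rfl⟩
    · rw [amp_ring f _ ⟨by simp only [mkc]; omega, by simp only [mkc]; omega⟩]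
      have e : (r : ℕ) + 1 - 2 * M + 1 = (r : ℕ) - 2 * M + 1 + 1 := by omega
      simp only [mkc, e]

theorem down_nb {M : ℕ} (hM : 1 ≤ M) (f : ℕ → ℝ) (hf : f 0 = 0) (a : Idx M)
    (ha : Ring M a.2) :
    ∃ L : Idx M, (∀ b : Idx M, (b.1 = a.1 ∧ (b.2.1 = a.2.1 ∧
      (b.2.2.1.1 : ℕ) + 1 = (a.2.2.1.1 : ℕ) ∧ (b.2.2.1.2 : ℕ) =
      if (a.2.2.1.1 : ℕ) = 2 * M then (a.2.2.1.2 : ℕ) / 2 else (a.2.2.1.2 : ℕ))) ↔ b = L) ∧
      L.1 = a.1 ∧ amp M f L.2 =
        DD a.2.1 * (-1) ^ (a.2.2.1.2 : ℕ) * f ((a.2.2.1.1 : ℕ) - 2 * M) ∧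
      (L.2.2.1.1 : ℕ) + 1 = a.2.2.1.1 := by
  obtain ⟨g, c, ⟨⟨r, i⟩, h⟩⟩ := a
  obtain ⟨h1, h2⟩ := ha
  simp only at h h1 h2
  have hn := num_ring h1 h2
  by_cases hr : (r : ℕ) = 2 * M
  · have hn2 : num M ((r : ℕ) - 1) = ((r : ℕ) - 1) / 2 + 1 := num_low (by omega)
    refine ⟨(g, c, mkc M (r - 1) (i / 2) hM (by omega) (by omega)), ?_, rfl, ?_, ?_⟩
    · intro b
      simp only
      rw [if_pos hr]
      constructor
      · rintro ⟨e1, e2, e3, e4⟩
        refine idx_ext e1 e2 ?_ e4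
        simp only [mkc]
        omega
      · rintro rfl
        refine ⟨rfl, rfl, ?_, rfl⟩
        simp only [mkc]
        omega
    · rw [amp_not]
      · have e : (r : ℕ) - 2 * M = 0 := by omega
        simp only [e, hf, mul_zero]
      · rintro ⟨h4, -⟩
        simp only [mkc] at h4
        omega
    · simp only [mkc]
      omega
  · have hn2 : num M ((r : ℕ) - 1) = 2 * M := num_ring (by omega) (by omega)
    refine ⟨(g, c, mkc M (r - 1) i hM (by omega) (by omega)), ?_, rfl, ?_, ?_⟩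
    · intro b
      simp only
      rw [if_neg hr]
      constructor
      · rintro ⟨e1, e2, e3, e4⟩
        refine idx_ext e1 e2 ?_ e4
        simp only [mkc]
        omega
      · rintro rfl
        refine ⟨rfl, rfl, ?_, rfl⟩
        simp only [mkc]
        omega
    · rw [amp_ring f _ ⟨by simp only [mkc]; omega, by simp only [mkc]; omega⟩]
      have e : (r : ℕ) - 1 - 2 * M + 1 = (r : ℕ) - 2 * M := by omega
      simp only [mkc, e]
    · simp only [mkc]
      omega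

/-- The mode as a function on all tiles. -/
noncomputable def Psi (M : ℕ) (f : ℕ → ℝ) (g : ℤ × ℤ) (b : Idx M) : ℝ :=
  if b.1 = g then amp M f b.2 else 0

theorem adj_symm {M : ℕ} (T : Tiling (Idx M)) (a b : Idx M) (h : T.Adj a b) : T.Adj b a :=
  ⟨h.1.symm, by rw [Set.inter_comm]; exact h.2⟩

open Classical in
/-- The ring tiles of the square. -/
theorem ring_case (hA : StAdj) (M : ℕ) (hM : 1 ≤ M) (T : Tiling (Idx M)) (hT : T.tile = tl M)
    (E : ℝ) (f : ℕ → ℝ) (hf : Radial M E f) (V : Finset (Idx M)) (g : ℤ × ℤ)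
    (hV : ∀ c : Fu M, (g, c) ∈ V) (a : Idx M) (hg : a.1 = g) (ha : Ring M a.2) :
    ∑ b ∈ V, (if T.Adj a b then Psi M f g a - Psi M f g b else 0) = E * Psi M f g a := by
  obtain ⟨L, hL, hL1, hL2, hL3⟩ := left_nb hM f a ha
  obtain ⟨R, hR, hR1, hR2, hR3⟩ := right_nb hM f a ha
  obtain ⟨U, hU, hU1, hU2, hU3⟩ := up_nb hM f hf.2.1 a ha
  obtain ⟨D, hD, hD1, hD2, hD3⟩ := down_nb hM f hf.1 a ha
  have hLR : L ≠ R := by
    intro e
    have h1 := (hL L).2 rfl
    have h2 := (hR L).2 e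
    rcases h1.2 with ⟨p1, p2, p3⟩ | ⟨p1, p2, p3⟩ <;> rcases h2.2 with ⟨q1, q2, q3⟩ | ⟨q1, q2, q3⟩
    · omega
    · exact flipd_ne _ (q1.symm.trans p1)
    · exact flipx_ne _ (p1.symm.trans q1)
    · omega
  have hLU : L ≠ U := by rintro rfl; omega
  have hLD : L ≠ D := by rintro rfl; omega
  have hRU : R ≠ U := by rintro rfl; omega
  have hRD : R ≠ D := by rintro rfl; omega
  have hUD : U ≠ D := by rintro rfl; omega
  have hadj : ∀ b, T.Adj a b ↔ b = L ∨ b = R ∨ b = U ∨ b = D := by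
    intro b
    rw [hA M hM T hT a b ha, ← hL b, ← hR b, ← hU b, ← hD b]
    unfold IsNb
    tauto
  have hmem : ∀ X : Idx M, X.1 = a.1 → X ∈ V := by
    intro X hX
    have := hV X.2
    rw [← hg, ← hX] at this
    exact this
  have hfil : V.filter (fun b => T.Adj a b) = {L, R, U, D} := by
    ext b
    rw [Finset.mem_filter, hadj b]
    simp only [Finset.mem_insert, Finset.mem_singleton]
    constructor
    · exact fun h => h.2
    · intro h
      refine ⟨?_, h⟩
      rcases h with rfl | rfl | rfl | rfl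
      · exact hmem _ hL1
      · exact hmem _ hR1
      · exact hmem _ hU1
      · exact hmem _ hD1
  rw [← Finset.sum_filter, hfil, Finset.sum_insert (by simp [hLR, hLU, hLD]),
    Finset.sum_insert (by simp [hRU, hRD]), Finset.sum_insert (by simp [hUD]),
    Finset.sum_singleton]
  unfold Psi
  rw [if_pos hg, if_pos (hL1.trans hg), if_pos (hR1.trans hg), if_pos (hU1.trans hg),
    if_pos (hD1.trans hg), hL2, hR2, hU2, hD2, amp_ring f a.2 ha]
  obtain ⟨h1, h2⟩ := ha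
  have hrec := hf.2.2.2 ((a.2.2.1.1 : ℕ) - 2 * M + 1) (by omega) (by omega)
  rw [Nat.add_sub_cancel] at hrec
  linear_combination (DD a.2.1 * (-1) ^ (a.2.2.1.2 : ℕ)) * hrec

open Classical in
/-- The tiles above and below the ring see each pair once. -/
theorem pair_case (hA : StAdj) (M : ℕ) (hM : 1 ≤ M) (T : Tiling (Idx M)) (hT : T.tile = tl M)
    (f : ℕ → ℝ) (V : Finset (Idx M)) (g : ℤ × ℤ)
    (hV : ∀ c : Fu M, (g, c) ∈ V) (a : Idx M) (ha : ¬ (a.1 = g ∧ Ring M a.2)) :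
    ∑ b ∈ V, (if T.Adj a b then Psi M f g b else 0) = 0 := by
  by_cases hex : ∃ b, T.Adj a b ∧ b.1 = g ∧ Ring M b.2
  · obtain ⟨b, hb, hbg, hbr⟩ := hex
    -- the partner of b
    have hn := num_ring hbr.1 hbr.2
    have hbi := b.2.2.2
    set r : ℕ := (b.2.2.1.1 : ℕ) with hr
    set i : ℕ := (b.2.2.1.2 : ℕ) with hi
    set i' : ℕ := if i % 2 = 0 then i + 1 else i - 1 with hi'
    have hi'lt : i' < num M r := by
      rw [hn] at hbi ⊢
      rw [hi']
      split_ifs <;> omega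
    set b' : Idx M := (b.1, b.2.1, mkc M r i' hM (by have := hbr.2; omega) hi'lt) with hb'
    have hb'r : Ring M b'.2 := ⟨hbr.1, hbr.2⟩
    have hab := (hA M hM T hT b a hbr).1 (adj_symm T a b hb)
    -- the position of a
    have hpos : a.1 = b.1 ∧ a.2.1 = b.2.1 ∧
        (((a.2.2.1.1 : ℕ) = r + 1 ∧ r + 1 = 4 * M ∧ (a.2.2.1.2 : ℕ) = i / 2) ∨
         ((a.2.2.1.1 : ℕ) + 1 = r ∧ r = 2 * M ∧ (a.2.2.1.2 : ℕ) = i / 2)) := by
      obtain ⟨e1, e⟩ := hab
      have hnr : ¬ Ring M a.2 := fun h => ha ⟨e1.trans hbg, h⟩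
      have hb1 := hbr.1
      have hb2 := hbr.2
      refine ⟨e1, ?_⟩
      rcases e with ⟨e2, e3, -⟩ | ⟨e2, e3, -⟩ | ⟨e2, e3, -⟩ | ⟨e2, e3, e4⟩ | ⟨e2, e3, e4⟩
      · exact absurd (show Ring M a.2 from by unfold Ring; rw [e3]; exact hbr) hnr
      · exact absurd (show Ring M a.2 from by unfold Ring; rw [e3]; exact hbr) hnr
      · exact absurd (show Ring M a.2 from by unfold Ring; rw [e3]; exact hbr) hnr
      · refine ⟨e2, Or.inl ?_⟩
        have h4 : r + 1 = 4 * M := by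
          by_contra hne
          apply hnr
          constructor <;> omega
        rw [if_pos h4] at e4
        exact ⟨e3, h4, e4⟩
      · refine ⟨e2, Or.inr ?_⟩
        have h4 : r = 2 * M := by
          by_contra hne
          apply hnr
          constructor <;> omega
        rw [if_pos h4] at e4
        exact ⟨e3, h4, e4⟩
    have hnb : ∀ x : Idx M, Ring M x.2 → (T.Adj a x ↔ IsNb M x a) := fun x hx =>
      ⟨fun h => (hA M hM T hT x a hx).1 (adj_symm T a x h),
        fun h => adj_symm T x a ((hA M hM T hT x a hx).2 h)⟩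
    have hi'2 : i' / 2 = i / 2 := by
      rw [hi']
      split_ifs <;> omega
    have hb'adj : T.Adj a b' := by
      rw [hnb b' hb'r]
      obtain ⟨e1, e2, ⟨e3, e4, e5⟩ | ⟨e3, e4, e5⟩⟩ := hpos
      · refine ⟨e1, Or.inr (Or.inr (Or.inr (Or.inl ⟨e2, e3, ?_⟩)))⟩
        show (a.2.2.1.2 : ℕ) = if r + 1 = 4 * M then i' / 2 else i'
        rw [if_pos e4, hi'2, e5]
      · refine ⟨e1, Or.inr (Or.inr (Or.inr (Or.inr ⟨e2, e3, ?_⟩)))⟩
        show (a.2.2.1.2 : ℕ) = if r = 2 * M then i' / 2 else i'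
        rw [if_pos e4, hi'2, e5]
    have hne : b ≠ b' := by
      intro e
      have : i = i' := by
        have := congrArg (fun x : Idx M => (x.2.2.1.2 : ℕ)) e
        exact this
      rw [hi'] at this
      split_ifs at this <;> omega
    have hbV : b ∈ V := by
      have := hV b.2
      rw [← hbg] at this
      exact this
    have hb'V : b' ∈ V := by
      have := hV b'.2
      rw [← hbg] at this
      exact this
    rw [← Finset.sum_filter]
    have hsub : ({b, b'} : Finset (Idx M)) ⊆ V.filter (fun x => T.Adj a x) := by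
      intro x hx
      simp only [Finset.mem_insert, Finset.mem_singleton] at hx
      rw [Finset.mem_filter]
      rcases hx with rfl | rfl
      · exact ⟨hbV, hb⟩
      · exact ⟨hb'V, hb'adj⟩
    rw [← Finset.sum_subset hsub]
    · rw [Finset.sum_pair hne]
      unfold Psi
      rw [if_pos hbg, if_pos (show b'.1 = g from hbg), amp_ring f b.2 hbr, amp_ring f b'.2 hb'r]
      show DD b.2.1 * (-1) ^ i * f (r - 2 * M + 1) + DD b.2.1 * (-1) ^ i' * f (r - 2 * M + 1) = 0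
      have hsg : ((-1 : ℝ)) ^ i' = - (-1) ^ i := by
        rw [hi']
        split_ifs with h
        · rw [pow_succ]; ring
        · obtain ⟨k, hk⟩ : ∃ k, i = k + 1 := ⟨i - 1, by omega⟩
          rw [hk, Nat.add_sub_cancel, pow_succ]
          ring
      rw [hsg]
      ring
    · intro x hx hx2
      rw [Finset.mem_filter] at hx
      unfold Psi
      split_ifs with hxg
      · by_cases hxr : Ring M x.2
        · exfalso
          apply hx2
          simp only [Finset.mem_insert, Finset.mem_singleton]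
          have hxa := (hnb x hxr).1 hx.2
          obtain ⟨x1, x2⟩ := hxa
          have hnr : ¬ Ring M a.2 := fun h => ha ⟨hpos.1.trans hbg, h⟩
          have hb1 := hbr.1
          have hb2 := hbr.2
          have hx1 := hxr.1
          have hx3 := hxr.2
          have key : a.2.1 = x.2.1 ∧ (x.2.2.1.1 : ℕ) = r ∧ (x.2.2.1.2 : ℕ) / 2 = i / 2 := by
            rcases x2 with ⟨e2, e3, -⟩ | ⟨e2, e3, -⟩ | ⟨e2, e3, -⟩ | ⟨e2, e3, e4⟩ | ⟨e2, e3, e4⟩
            · exact absurd (show Ring M a.2 from by unfold Ring; rw [e3]; exact hxr) hnr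
            · exact absurd (show Ring M a.2 from by unfold Ring; rw [e3]; exact hxr) hnr
            · exact absurd (show Ring M a.2 from by unfold Ring; rw [e3]; exact hxr) hnr
            · have h4 : (x.2.2.1.1 : ℕ) + 1 = 4 * M := by
                by_contra hne
                apply hnr
                constructor <;> omega
              rw [if_pos h4] at e4
              obtain ⟨-, -, ⟨p3, p4, p5⟩ | ⟨p3, p4, p5⟩⟩ := hpos
              · exact ⟨e2, by omega, by omega⟩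
              · exfalso
                omega
            · have h4 : (x.2.2.1.1 : ℕ) = 2 * M := by
                by_contra hne
                apply hnr
                constructor <;> omega
              rw [if_pos h4] at e4
              obtain ⟨-, -, ⟨p3, p4, p5⟩ | ⟨p3, p4, p5⟩⟩ := hpos
              · exfalso
                omega
              · exact ⟨e2, by omega, by omega⟩
          have hcases : (x.2.2.1.2 : ℕ) = i ∨ (x.2.2.1.2 : ℕ) = i' := by
            have := key.2.2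
            rw [hi']
            split_ifs <;> omega
          rcases hcases with h | h
          · left
            exact idx_ext (x1.symm.trans hpos.1) (key.1.symm.trans hpos.2.1) key.2.1 h
          · right
            exact idx_ext (x1.symm.trans hpos.1) (key.1.symm.trans hpos.2.1) key.2.1 h
        · exact amp_not f x.2 hxr
      · rfl
  · apply Finset.sum_eq_zero
    intro b _
    split_ifs with h
    · unfold Psi
      split_ifs with h2
      · by_cases h3 : Ring M b.2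
        · exact absurd ⟨b, h, h2, h3⟩ hex
        · exact amp_not f b.2 h3
      · rfl
    · rfl

end Eig21

open Eig21 in
open Classical in
theorem eig21 (hA : StAdj) : StEig := by
  intro M hM T hT E f hf V g hV
  funext v
  show ∑ u : V, (if T.Adj v.1 u.1 then Psi M f g v.1 - Psi M f g u.1 else 0) =
    E * Psi M f g v.1
  rw [Finset.sum_coe_sort V
    (fun b => if T.Adj v.1 b then Psi M f g v.1 - Psi M f g b else 0)]
  by_cases ha : v.1.1 = g ∧ Ring M v.1.2
  · exact ring_case hA M hM T hT E f hf V g hV v.1 ha.1 ha.2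
  · have h0 : Psi M f g v.1 = 0 := by
      unfold Psi
      split_ifs with h
      · exact amp_not f _ (fun h2 => ha ⟨h, h2⟩)
      · rfl
    have h1 := pair_case hA M hM T hT f V g hV v.1 ha
    rw [h0, mul_zero]
    have h2 : ∑ b ∈ V, (if T.Adj v.1 b then (0 : ℝ) - Psi M f g b else 0) =
        - ∑ b ∈ V, (if T.Adj v.1 b then Psi M f g b else 0) := by
      rw [← Finset.sum_neg_distrib]
      refine Finset.sum_congr rfl fun b _ => ?_
      split_ifs <;> ring
    rw [h2, h1, neg_zero]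

end Pool.Agent.Lib.MP_82ac4a_mp
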