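import Pool.Agent.Lib.MP_82ac4a_mp.Defs30

/-! Row EIG (39): the mode is an eigenfunction of every finite volume that contains the square. -/

namespace Pool.Agent.Lib.MP_82ac4a_mp

namespace Eig39

/-- The tile with the given data. -/
def mk (M : ℕ) (g : ℤ × ℤ) (c : Bool × Bool × Bool) (r i : ℕ) (hr : r < 4 * M + 1)
    (hi : i < 4 * M + 1) (h : i < num M r) : Idx M :=
  (g, (c, ⟨(⟨r, hr⟩, ⟨i, hi⟩), h⟩))

theorem eq_mk {M : ℕ} (b : Idx M) (g : ℤ × ℤ) (c : Bool × Bool × Bool) (r i : ℕ)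
    (hr : r < 4 * M + 1) (hi : i < 4 * M + 1) (h : i < num M r) :
    b = mk M g c r i hr hi h ↔
      b.1 = g ∧ b.2.1 = c ∧ (b.2.2.1.1 : ℕ) = r ∧ (b.2.2.1.2 : ℕ) = i := by
  obtain ⟨g', c', ⟨⟨⟨r', hr'⟩, ⟨i', hi'⟩⟩, h'⟩⟩ := b
  simp only [mk, Prod.mk.injEq, Subtype.mk.injEq, Fin.mk.injEq]

theorem adj_symm {ι : Type} (T : Tiling ι) {a b : ι} (h : T.Adj a b) : T.Adj b a := by
  refine ⟨h.1.symm, ?_⟩
  rw [Set.inter_comm]
  exact h.2

theorem num_ring {M r : ℕ} (h1 : 2 * M ≤ r) (h2 : r < 4 * M) : num M r = 2 * M := by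
  unfold num
  rw [if_neg (by omega), if_pos h2]

theorem num_top (M : ℕ) (hM : 1 ≤ M) : num M (4 * M) = M + 1 := by
  unfold num
  rw [if_neg (by omega), if_neg (by omega)]

theorem num_bot (M : ℕ) (hM : 1 ≤ M) : num M (2 * M - 1) = M := by
  unfold num
  rw [if_pos (by omega)]
  omega

theorem flipx_ne (c : Bool × Bool × Bool) : flipx c ≠ c := by
  obtain ⟨s, t, b⟩ := c
  cases s <;> cases t <;> cases b <;> decide

theorem flipd_ne (c : Bool × Bool × Bool) : flipd c ≠ c := by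
  obtain ⟨s, t, b⟩ := c
  cases s <;> cases t <;> cases b <;> decide

theorem flipx_ne_flipd (c : Bool × Bool × Bool) : flipx c ≠ flipd c := by
  obtain ⟨s, t, b⟩ := c
  cases s <;> cases t <;> cases b <;> decide

/-- The determinant of a chamber. -/
def dt (c : Bool × Bool × Bool) : ℝ := sg c.1 * sg c.2.1 * sg c.2.2

theorem dt_flipx (c : Bool × Bool × Bool) : dt (flipx c) = - dt c := by
  obtain ⟨s, t, b⟩ := c
  cases s <;> cases t <;> cases b <;> simp [dt, flipx, sg]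

theorem dt_flipd (c : Bool × Bool × Bool) : dt (flipd c) = - dt c := by
  obtain ⟨s, t, b⟩ := c
  cases s <;> cases t <;> cases b <;> simp [dt, flipd, sg]

theorem amp_ring {M : ℕ} (f : ℕ → ℝ) (a : Fu M) (h : Ring M a) :
    amp M f a = dt a.1 * (-1) ^ (a.2.1.2 : ℕ) * f ((a.2.1.1 : ℕ) - 2 * M + 1) := by
  unfold amp dt
  rw [if_pos h]

theorem amp_nonring {M : ℕ} (f : ℕ → ℝ) (a : Fu M) (h : ¬ Ring M a) : amp M f a = 0 := by
  unfold amp
  rw [if_neg h]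

theorem amp_mk_ring {M : ℕ} (f : ℕ → ℝ) (g : ℤ × ℤ) (c : Bool × Bool × Bool) (r i : ℕ)
    (hr : r < 4 * M + 1) (hi : i < 4 * M + 1) (h : i < num M r) (h1 : 2 * M ≤ r)
    (h2 : r < 4 * M) : amp M f (mk M g c r i hr hi h).2 = dt c * (-1) ^ i * f (r - 2 * M + 1) := by
  rw [amp_ring f _ (show Ring M (mk M g c r i hr hi h).2 from ⟨h1, h2⟩)]
  rfl

theorem amp_mk_non {M : ℕ} (f : ℕ → ℝ) (g : ℤ × ℤ) (c : Bool × Bool × Bool) (r i : ℕ)
    (hr : r < 4 * M + 1) (hi : i < 4 * M + 1) (h : i < num M r)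
    (h1 : ¬ (2 * M ≤ r ∧ r < 4 * M)) : amp M f (mk M g c r i hr hi h).2 = 0 :=
  amp_nonring f _ (fun hR => h1 hR)

/-- The left neighbour. -/
theorem left_nb {M : ℕ} (f : ℕ → ℝ) (a : Idx M) (hR : Ring M a.2) :
    ∃ l : Idx M, l.1 = a.1 ∧ (l.2.2.1.1 : ℕ) = a.2.2.1.1 ∧
      amp M f l.2 = - amp M f a.2 ∧
      (∀ b : Idx M, b = l ↔ b.1 = a.1 ∧ ((b.2.1 = a.2.1 ∧ b.2.2.1.1 = a.2.2.1.1 ∧
          (b.2.2.1.2 : ℕ) + 1 = (a.2.2.1.2 : ℕ)) ∨
        (b.2.1 = flipx a.2.1 ∧ b.2.2 = a.2.2 ∧ (a.2.2.1.2 : ℕ) = 0))) := by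
  obtain ⟨g, c, ⟨⟨⟨r, hr⟩, ⟨i, hi⟩⟩, h⟩⟩ := a
  obtain ⟨h1, h2⟩ := hR
  simp only at h1 h2 h
  have hn := num_ring h1 h2
  have ea : ((g, (c, ⟨(⟨r, hr⟩, ⟨i, hi⟩), h⟩)) : Idx M) = mk M g c r i hr hi h := rfl
  rw [ea, amp_mk_ring f g c r i hr hi h h1 h2]
  by_cases hi0 : i = 0
  · subst hi0
    refine ⟨mk M g (flipx c) r 0 hr hi h, rfl, rfl, ?_, ?_⟩
    · rw [amp_mk_ring f g (flipx c) r 0 hr hi h h1 h2, dt_flipx]
      ring
    · intro b
      rw [eq_mk]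
      obtain ⟨g', c', ⟨⟨⟨r', hr'⟩, ⟨i', hi'⟩⟩, h'⟩⟩ := b
      simp only [mk, Subtype.mk.injEq, Prod.mk.injEq, Fin.mk.injEq]
      constructor
      · rintro ⟨e1, e2, e3, e4⟩
        exact ⟨e1, Or.inr ⟨e2, ⟨e3, e4⟩, trivial⟩⟩
      · rintro ⟨e1, (⟨e2, e3, e4⟩ | ⟨e2, ⟨e3, e4⟩, -⟩)⟩
        · omega
        · exact ⟨e1, e2, e3, e4⟩
  · have hi' : i - 1 < num M r := by omega
    refine ⟨mk M g c r (i - 1) hr (by omega) hi', rfl, rfl, ?_, ?_⟩
    · rw [amp_mk_ring f g c r (i - 1) hr (by omega) hi' h1 h2]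
      obtain ⟨j, rfl⟩ : ∃ j, i = j + 1 := ⟨i - 1, by omega⟩
      rw [Nat.add_sub_cancel, pow_succ]
      ring
    · intro b
      rw [eq_mk]
      obtain ⟨g', c', ⟨⟨⟨r', hr'⟩, ⟨i', hi''⟩⟩, h'⟩⟩ := b
      simp only [mk, Subtype.mk.injEq, Prod.mk.injEq, Fin.mk.injEq]
      constructor
      · rintro ⟨e1, e2, e3, e4⟩
        exact ⟨e1, Or.inl ⟨e2, e3, by omega⟩⟩
      · rintro ⟨e1, (⟨e2, e3, e4⟩ | ⟨e2, -, e4⟩)⟩
        · exact ⟨e1, e2, e3, by omega⟩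
        · exact absurd e4 hi0

/-- The right neighbour. -/
theorem right_nb {M : ℕ} (f : ℕ → ℝ) (a : Idx M) (hR : Ring M a.2) :
    ∃ l : Idx M, l.1 = a.1 ∧ (l.2.2.1.1 : ℕ) = a.2.2.1.1 ∧
      amp M f l.2 = - amp M f a.2 ∧
      (∀ b : Idx M, b = l ↔ b.1 = a.1 ∧ ((b.2.1 = a.2.1 ∧ b.2.2.1.1 = a.2.2.1.1 ∧
          (b.2.2.1.2 : ℕ) = (a.2.2.1.2 : ℕ) + 1) ∨
        (b.2.1 = flipd a.2.1 ∧ b.2.2 = a.2.2 ∧ (a.2.2.1.2 : ℕ) + 1 = 2 * M))) := by
  obtain ⟨g, c, ⟨⟨⟨r, hr⟩, ⟨i, hi⟩⟩, h⟩⟩ := a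
  obtain ⟨h1, h2⟩ := hR
  simp only at h1 h2 h
  have hn := num_ring h1 h2
  have ea : ((g, (c, ⟨(⟨r, hr⟩, ⟨i, hi⟩), h⟩)) : Idx M) = mk M g c r i hr hi h := rfl
  rw [ea, amp_mk_ring f g c r i hr hi h h1 h2]
  by_cases hi0 : i + 1 = 2 * M
  · refine ⟨mk M g (flipd c) r i hr hi h, rfl, rfl, ?_, ?_⟩
    · rw [amp_mk_ring f g (flipd c) r i hr hi h h1 h2, dt_flipd]
      ring
    · intro b
      rw [eq_mk]
      obtain ⟨g', c', ⟨⟨⟨r', hr'⟩, ⟨i', hi'⟩⟩, h'⟩⟩ := b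
      simp only [num_ring h1 h2] at h
      simp only [mk, Subtype.mk.injEq, Prod.mk.injEq, Fin.mk.injEq]
      constructor
      · rintro ⟨e1, e2, e3, e4⟩
        exact ⟨e1, Or.inr ⟨e2, ⟨e3, e4⟩, hi0⟩⟩
      · rintro ⟨e1, (⟨e2, e3, e4⟩ | ⟨e2, ⟨e3, e4⟩, -⟩)⟩
        · subst e3
          have h3 : i' < num M r' := h'
          rw [hn] at h3
          omega
        · exact ⟨e1, e2, e3, e4⟩
  · have hi' : i + 1 < num M r := by omega
    refine ⟨mk M g c r (i + 1) hr (by omega) hi', rfl, rfl, ?_, ?_⟩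
    · rw [amp_mk_ring f g c r (i + 1) hr (by omega) hi' h1 h2, pow_succ]
      ring
    · intro b
      rw [eq_mk]
      obtain ⟨g', c', ⟨⟨⟨r', hr'⟩, ⟨i', hi''⟩⟩, h'⟩⟩ := b
      simp only [mk, Subtype.mk.injEq, Prod.mk.injEq, Fin.mk.injEq]
      constructor
      · rintro ⟨e1, e2, e3, e4⟩
        exact ⟨e1, Or.inl ⟨e2, e3, e4⟩⟩
      · rintro ⟨e1, (⟨e2, e3, e4⟩ | ⟨e2, -, e4⟩)⟩
        · exact ⟨e1, e2, e3, e4⟩
        · exact absurd e4 hi0

/-- The upper neighbour. -/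
theorem up_nb {M : ℕ} (hM : 1 ≤ M) (f : ℕ → ℝ) (hf : f (2 * M + 1) = 0) (a : Idx M)
    (hR : Ring M a.2) :
    ∃ l : Idx M, l.1 = a.1 ∧ (l.2.2.1.1 : ℕ) = a.2.2.1.1 + 1 ∧
      amp M f l.2 = dt a.2.1 * (-1) ^ (a.2.2.1.2 : ℕ) * f ((a.2.2.1.1 : ℕ) - 2 * M + 2) ∧
      (∀ b : Idx M, b = l ↔ b.1 = a.1 ∧ (b.2.1 = a.2.1 ∧
        (b.2.2.1.1 : ℕ) = (a.2.2.1.1 : ℕ) + 1 ∧
        (b.2.2.1.2 : ℕ) = if (a.2.2.1.1 : ℕ) + 1 = 4 * M then (a.2.2.1.2 : ℕ) / 2
          else (a.2.2.1.2 : ℕ))) := by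
  obtain ⟨g, c, ⟨⟨⟨r, hr⟩, ⟨i, hi⟩⟩, h⟩⟩ := a
  obtain ⟨h1, h2⟩ := hR
  simp only at h1 h2 h ⊢
  have hn := num_ring h1 h2
  by_cases hr0 : r + 1 = 4 * M
  · have h' : i / 2 < num M (r + 1) := by
      rw [hr0, num_top M hM]
      omega
    refine ⟨mk M g c (r + 1) (i / 2) (by omega) (by omega) h', rfl, rfl, ?_, ?_⟩
    · rw [amp_mk_non f g c (r + 1) (i / 2) (by omega) (by omega) h' (by omega)]
      have e : r - 2 * M + 2 = 2 * M + 1 := by omega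
      rw [e, hf]
      ring
    · intro b
      rw [eq_mk, if_pos hr0]
  · have h' : i < num M (r + 1) := by
      rw [num_ring (by omega) (by omega)]
      omega
    refine ⟨mk M g c (r + 1) i (by omega) hi h', rfl, rfl, ?_, ?_⟩
    · rw [amp_mk_ring f g c (r + 1) i (by omega) hi h' (by omega) (by omega)]
      have e : r + 1 - 2 * M + 1 = r - 2 * M + 2 := by omega
      rw [e]
    · intro b
      rw [eq_mk, if_neg hr0]

/-- The lower neighbour. -/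
theorem down_nb {M : ℕ} (hM : 1 ≤ M) (f : ℕ → ℝ) (hf : f 0 = 0) (a : Idx M)
    (hR : Ring M a.2) :
    ∃ l : Idx M, l.1 = a.1 ∧ (l.2.2.1.1 : ℕ) + 1 = a.2.2.1.1 ∧
      amp M f l.2 = dt a.2.1 * (-1) ^ (a.2.2.1.2 : ℕ) * f ((a.2.2.1.1 : ℕ) - 2 * M) ∧
      (∀ b : Idx M, b = l ↔ b.1 = a.1 ∧ (b.2.1 = a.2.1 ∧
        (b.2.2.1.1 : ℕ) + 1 = (a.2.2.1.1 : ℕ) ∧
        (b.2.2.1.2 : ℕ) = if (a.2.2.1.1 : ℕ) = 2 * M then (a.2.2.1.2 : ℕ) / 2
          else (a.2.2.1.2 : ℕ))) := by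
  obtain ⟨g, c, ⟨⟨⟨r, hr⟩, ⟨i, hi⟩⟩, h⟩⟩ := a
  obtain ⟨h1, h2⟩ := hR
  simp only at h1 h2 h ⊢
  have hn := num_ring h1 h2
  by_cases hr0 : r = 2 * M
  · have h' : i / 2 < num M (r - 1) := by
      rw [hr0, num_bot M hM]
      omega
    refine ⟨mk M g c (r - 1) (i / 2) (by omega) (by omega) h', rfl, ?_, ?_, ?_⟩
    · show r - 1 + 1 = r
      omega
    · rw [amp_mk_non f g c (r - 1) (i / 2) (by omega) (by omega) h' (by omega)]
      have e : r - 2 * M = 0 := by omega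
      rw [e, hf]
      ring
    · intro b
      rw [eq_mk, if_pos hr0]
      constructor
      · rintro ⟨e1, e2, e3, e4⟩
        exact ⟨e1, e2, by omega, e4⟩
      · rintro ⟨e1, e2, e3, e4⟩
        exact ⟨e1, e2, by omega, e4⟩
  · have h' : i < num M (r - 1) := by
      rw [num_ring (by omega) (by omega)]
      omega
    refine ⟨mk M g c (r - 1) i (by omega) hi h', rfl, ?_, ?_, ?_⟩
    · show r - 1 + 1 = r
      omega
    · rw [amp_mk_ring f g c (r - 1) i (by omega) hi h' (by omega) (by omega)]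
      have e : r - 1 - 2 * M + 1 = r - 2 * M := by omega
      rw [e]
    · intro b
      rw [eq_mk, if_neg hr0]
      constructor
      · rintro ⟨e1, e2, e3, e4⟩
        exact ⟨e1, e2, by omega, e4⟩
      · rintro ⟨e1, e2, e3, e4⟩
        exact ⟨e1, e2, by omega, e4⟩

/-- The four neighbours of a ring tile. -/
theorem four {M : ℕ} (hM : 1 ≤ M) (E : ℝ) (f : ℕ → ℝ) (hf : Radial M E f) (a : Idx M)
    (hR : Ring M a.2) :
    ∃ l r u d : Idx M, (∀ b, IsNb M a b ↔ b = l ∨ b = r ∨ b = u ∨ b = d) ∧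
      l.1 = a.1 ∧ r.1 = a.1 ∧ u.1 = a.1 ∧ d.1 = a.1 ∧
      l ≠ r ∧ l ≠ u ∧ l ≠ d ∧ r ≠ u ∧ r ≠ d ∧ u ≠ d ∧
      amp M f l.2 = - amp M f a.2 ∧ amp M f r.2 = - amp M f a.2 ∧
      amp M f u.2 + amp M f d.2 = (6 - E) * amp M f a.2 := by
  obtain ⟨l, l1, l2, l3, l4⟩ := left_nb f a hR
  obtain ⟨r, r1, r2, r3, r4⟩ := right_nb f a hR
  obtain ⟨u, u1, u2, u3, u4⟩ := up_nb hM f hf.2.1 a hR
  obtain ⟨d, d1, d2, d3, d4⟩ := down_nb hM f hf.1 a hR
  refine ⟨l, r, u, d, ?_, l1, r1, u1, d1, ?_, ?_, ?_, ?_, ?_, ?_, l3, r3, ?_⟩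
  · intro b
    rw [l4 b, r4 b, u4 b, d4 b]
    unfold IsNb
    constructor
    · rintro ⟨e, (⟨e1, e2, (e3 | e3)⟩ | e1 | e1 | e1 | e1)⟩
      · exact Or.inr (Or.inl ⟨e, Or.inl ⟨e1, e2, e3⟩⟩)
      · exact Or.inl ⟨e, Or.inl ⟨e1, e2, e3⟩⟩
      · exact Or.inl ⟨e, Or.inr e1⟩
      · exact Or.inr (Or.inl ⟨e, Or.inr e1⟩)
      · exact Or.inr (Or.inr (Or.inl ⟨e, e1⟩))
      · exact Or.inr (Or.inr (Or.inr ⟨e, e1⟩))
    · rintro (⟨e, (⟨e1, e2, e3⟩ | e1)⟩ | ⟨e, (⟨e1, e2, e3⟩ | e1)⟩ | ⟨e, e1⟩ | ⟨e, e1⟩)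
      · exact ⟨e, Or.inl ⟨e1, e2, Or.inr e3⟩⟩
      · exact ⟨e, Or.inr (Or.inl e1)⟩
      · exact ⟨e, Or.inl ⟨e1, e2, Or.inl e3⟩⟩
      · exact ⟨e, Or.inr (Or.inr (Or.inl e1))⟩
      · exact ⟨e, Or.inr (Or.inr (Or.inr (Or.inl e1)))⟩
      · exact ⟨e, Or.inr (Or.inr (Or.inr (Or.inr e1)))⟩
  · intro e
    have hl := (l4 l).1 rfl
    have hr := (r4 r).1 rfl
    rw [← e] at hr
    obtain ⟨-, (⟨a1, -, a3⟩ | ⟨a1, a2, a3⟩)⟩ := hl <;>
      obtain ⟨-, (⟨b1, -, b3⟩ | ⟨b1, b2, b3⟩)⟩ := hr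
    · omega
    · exact flipd_ne a.2.1 (b1.symm.trans a1)
    · exact flipx_ne a.2.1 (a1.symm.trans b1)
    · exact flipx_ne_flipd a.2.1 (a1.symm.trans b1)
  · intro e; rw [e] at l2; omega
  · intro e; rw [e] at l2; omega
  · intro e; rw [e] at r2; omega
  · intro e; rw [e] at r2; omega
  · intro e; rw [e] at u2; omega
  · rw [u3, d3, amp_ring f a.2 hR]
    obtain ⟨h1, h2⟩ := hR
    have := hf.2.2.2 ((a.2.2.1.1 : ℕ) - 2 * M + 1) (by omega) (by omega)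
    rw [Nat.add_sub_cancel] at this
    have e : (a.2.2.1.1 : ℕ) - 2 * M + 1 + 1 = (a.2.2.1.1 : ℕ) - 2 * M + 2 := by omega
    rw [e] at this
    linear_combination (-(dt a.2.1 * (-1) ^ (a.2.2.1.2 : ℕ))) * this

/-- The ring neighbours of a tile which is not in the rings. -/
theorem outside {M : ℕ} (hM : 1 ≤ M) (f : ℕ → ℝ) (v : Idx M) (hv : ¬ Ring M v.2) :
    (∀ u : Idx M, Ring M u.2 → ¬ IsNb M u v) ∨
    ∃ p q : Idx M, p ≠ q ∧ p.1 = v.1 ∧ q.1 = v.1 ∧ Ring M p.2 ∧ Ring M q.2 ∧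
      IsNb M p v ∧ IsNb M q v ∧ (∀ u : Idx M, Ring M u.2 → IsNb M u v → u = p ∨ u = q) ∧
      amp M f p.2 + amp M f q.2 = 0 := by
  obtain ⟨g, c, ⟨⟨⟨r, hr⟩, ⟨i, hi⟩⟩, h⟩⟩ := v
  simp only at h
  have hv' : ¬ (2 * M ≤ r ∧ r < 4 * M) := fun hh => hv hh
  -- key: the position of the ring neighbours
  have key : ∀ u : Idx M, Ring M u.2 → IsNb M u (g, (c, ⟨(⟨r, hr⟩, ⟨i, hi⟩), h⟩)) →
      u.1 = g ∧ u.2.1 = c ∧ ((r = 4 * M ∧ (u.2.2.1.1 : ℕ) = 4 * M - 1) ∨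
        (r = 2 * M - 1 ∧ (u.2.2.1.1 : ℕ) = 2 * M)) ∧ i = (u.2.2.1.2 : ℕ) / 2 := by
    rintro ⟨g', c', ⟨⟨⟨r', hr'⟩, ⟨i', hi'⟩⟩, h'⟩⟩ ⟨k1, k2⟩ hnb
    unfold IsNb at hnb
    simp only [Subtype.mk.injEq, Prod.mk.injEq, Fin.mk.injEq] at hnb k1 k2 ⊢
    obtain ⟨e, (⟨e1, e2, -⟩ | ⟨-, ⟨e2, -⟩, -⟩ | ⟨-, ⟨e2, -⟩, -⟩ | ⟨e1, e2, e3⟩ | ⟨e1, e2, e3⟩)⟩ := hnb
    · omega
    · omega
    · omega
    · have h4 : r' + 1 = 4 * M := by omega
      rw [if_pos h4] at e3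
      exact ⟨e.symm, e1.symm, Or.inl ⟨by omega, by omega⟩, e3⟩
    · have h4 : r' = 2 * M := by omega
      rw [if_pos h4] at e3
      exact ⟨e.symm, e1.symm, Or.inr ⟨by omega, by omega⟩, e3⟩
  by_cases hex : ∃ u : Idx M, Ring M u.2 ∧ IsNb M u (g, (c, ⟨(⟨r, hr⟩, ⟨i, hi⟩), h⟩))
  · right
    obtain ⟨u, hu, hnb⟩ := hex
    obtain ⟨k1, k2, k3, k4⟩ := key u hu hnb
    obtain ⟨R, hR1, hR2, hR3⟩ : ∃ R, (u.2.2.1.1 : ℕ) = R ∧ 2 * M ≤ R ∧ R < 4 * M :=
      ⟨_, rfl, hu.1, hu.2⟩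
    have hnR := num_ring hR2 hR3
    have hi2 : (u.2.2.1.2 : ℕ) < 2 * M := by
      have := u.2.2.2
      rw [hR1, hnR] at this
      exact this
    have p1 : 2 * i < num M R := by omega
    have p2 : 2 * i + 1 < num M R := by omega
    have nb : ∀ j : ℕ, ∀ (b1 : R < 4 * M + 1) (b2 : j < 4 * M + 1) (b3 : j < num M R),
        j / 2 = i → IsNb M (mk M g c R j b1 b2 b3) (g, (c, ⟨(⟨r, hr⟩, ⟨i, hi⟩), h⟩)) := by
      intro j b1 b2 b3 hj
      unfold IsNb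
      refine ⟨rfl, ?_⟩
      rcases k3 with ⟨k5, k6⟩ | ⟨k5, k6⟩
      · refine Or.inr (Or.inr (Or.inr (Or.inl ⟨rfl, ?_, ?_⟩)))
        · show r = R + 1
          omega
        · show i = if R + 1 = 4 * M then j / 2 else j
          rw [if_pos (by omega), hj]
      · refine Or.inr (Or.inr (Or.inr (Or.inr ⟨rfl, ?_, ?_⟩)))
        · show r + 1 = R
          omega
        · show i = if R = 2 * M then j / 2 else j
          rw [if_pos (by omega), hj]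
    refine ⟨mk M g c R (2 * i) (by omega) (by omega) p1,
      mk M g c R (2 * i + 1) (by omega) (by omega) p2, ?_, rfl, rfl, ⟨hR2, hR3⟩, ⟨hR2, hR3⟩,
      nb _ _ _ _ (by omega), nb _ _ _ _ (by omega), ?_, ?_⟩
    · intro e
      rw [eq_mk] at e
      have := e.2.2.2
      simp only [mk] at this
      omega
    · intro w hw hwn
      obtain ⟨m1, m2, m3, m4⟩ := key w hw hwn
      have hwR : (w.2.2.1.1 : ℕ) = R := by omega
      rcases Nat.even_or_odd' (w.2.2.1.2 : ℕ) with ⟨j, hj | hj⟩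
      · left
        rw [eq_mk]
        exact ⟨m1, m2, hwR, by omega⟩
      · right
        rw [eq_mk]
        exact ⟨m1, m2, hwR, by omega⟩
    · rw [amp_mk_ring f g c R (2 * i) _ _ p1 hR2 hR3,
        amp_mk_ring f g c R (2 * i + 1) _ _ p2 hR2 hR3, pow_succ]
      ring
  · left
    intro u hu hnb
    exact hex ⟨u, hu, hnb⟩

end Eig39

open Eig39

open Classical in
/-- Row EIG. -/
theorem eig39 (hA : StAdj) : StEig := by
  intro M hM T hT E f hf V g hV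
  have hadj := hA M hM T hT
  obtain ⟨Φ, hΦ⟩ : ∃ Φ : Idx M → ℝ, ∀ u, Φ u = if u.1 = g then amp M f u.2 else 0 :=
    ⟨_, fun _ => rfl⟩
  funext v
  show (∑ u : V, if T.Adj v u then
      (if v.1.1 = g then amp M f v.1.2 else 0) - (if u.1.1 = g then amp M f u.1.2 else 0) else 0)
    = E * (if v.1.1 = g then amp M f v.1.2 else 0)
  simp only [← hΦ]
  obtain ⟨v, hv⟩ := v
  simp only
  rw [Finset.sum_coe_sort V (fun u => if T.Adj v u then Φ v - Φ u else 0)]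
  by_cases hR : Ring M v.2
  · obtain ⟨l, r, u, d, hnb, l1, r1, u1, d1, n1, n2, n3, n4, n5, n6, a1, a2, a3⟩ :=
      four hM E f hf v hR
    by_cases hg : v.1 = g
    · have hin : ∀ w : Idx M, w.1 = v.1 → w ∈ V := by
        intro w hw
        have := hV w.2
        rw [← hg, ← hw] at this
        exact this
      have hsub : ({l, r, u, d} : Finset (Idx M)) ⊆ V := by
        intro w hw
        simp only [Finset.mem_insert, Finset.mem_singleton] at hw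
        rcases hw with rfl | rfl | rfl | rfl
        · exact hin _ l1
        · exact hin _ r1
        · exact hin _ u1
        · exact hin _ d1
      rw [← Finset.sum_subset hsub]
      · rw [Finset.sum_insert (by simp [n1, n2, n3]), Finset.sum_insert (by simp [n4, n5]),
          Finset.sum_insert (by simp [n6]), Finset.sum_singleton]
        rw [if_pos ((hadj v l hR).2 ((hnb l).2 (Or.inl rfl))),
          if_pos ((hadj v r hR).2 ((hnb r).2 (Or.inr (Or.inl rfl)))),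
          if_pos ((hadj v u hR).2 ((hnb u).2 (Or.inr (Or.inr (Or.inl rfl))))),
          if_pos ((hadj v d hR).2 ((hnb d).2 (Or.inr (Or.inr (Or.inr rfl)))))]
        rw [hΦ v, hΦ l, hΦ r, hΦ u, hΦ d, l1, r1, u1, d1, if_pos hg, if_pos hg, if_pos hg,
          if_pos hg, if_pos hg, a1, a2]
        linear_combination (-1) * a3
      · intro w _ hw
        rw [if_neg]
        intro had
        apply hw
        have := (hnb w).1 ((hadj v w hR).1 had)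
        simp only [Finset.mem_insert, Finset.mem_singleton]
        exact this
    · rw [hΦ v, if_neg hg, mul_zero]
      apply Finset.sum_eq_zero
      intro w _
      split_ifs with had
      · have hw : w.1 = v.1 := ((hadj v w hR).1 had).1
        rw [hΦ w, hw, if_neg hg, sub_zero]
      · rfl
  · have hv0 : Φ v = 0 := by
      rw [hΦ, amp_nonring f _ hR]
      split_ifs <;> rfl
    rw [hv0, mul_zero]
    -- only ring tiles of the square g contribute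
    have hz : ∀ w : Idx M, ¬ Ring M w.2 → Φ w = 0 := by
      intro w hw
      rw [hΦ, amp_nonring f _ hw]
      split_ifs <;> rfl
    rcases outside hM f v hR with hno | ⟨p, q, hpq, p1, q1, pR, qR, pn, qn, huniq, hsum⟩
    · apply Finset.sum_eq_zero
      intro w _
      split_ifs with had
      · by_cases hw : Ring M w.2
        · exact absurd ((hadj w v hw).1 (adj_symm T had)) (hno w hw)
        · rw [hz w hw, sub_zero]
      · rfl
    · by_cases hg : v.1 = g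
      · have hin : ∀ w : Idx M, w.1 = v.1 → w ∈ V := by
          intro w hw
          have := hV w.2
          rw [← hg, ← hw] at this
          exact this
        have hsub : ({p, q} : Finset (Idx M)) ⊆ V := by
          intro w hw
          simp only [Finset.mem_insert, Finset.mem_singleton] at hw
          rcases hw with rfl | rfl
          · exact hin _ p1
          · exact hin _ q1
        rw [← Finset.sum_subset hsub]
        · rw [Finset.sum_insert (by simp [hpq]), Finset.sum_singleton,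
            if_pos (adj_symm T ((hadj p v pR).2 pn)), if_pos (adj_symm T ((hadj q v qR).2 qn)),
            hΦ p, hΦ q, p1, q1, if_pos hg, if_pos hg]
          linear_combination (-1) * hsum
        · intro w _ hw
          split_ifs with had
          · by_cases hwR : Ring M w.2
            · exfalso
              apply hw
              have := huniq w hwR ((hadj w v hwR).1 (adj_symm T had))
              simp only [Finset.mem_insert, Finset.mem_singleton]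
              exact this
            · rw [hz w hwR, sub_zero]
          · rfl
      · apply Finset.sum_eq_zero
        intro w _
        split_ifs with had
        · by_cases hwR : Ring M w.2
          · have hw := huniq w hwR ((hadj w v hwR).1 (adj_symm T had))
            have hw1 : w.1 = v.1 := by
              rcases hw with rfl | rfl
              · exact p1
              · exact q1
            rw [hΦ w, hw1, if_neg hg, sub_zero]
          · rw [hz w hwR, sub_zero]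
        · rfl

end Pool.Agent.Lib.MP_82ac4a_mp
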