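import Pool.Agent.Lib.MP_82ac4a_mp.Defs30

namespace Pool.Agent.Lib.MP_82ac4a_mp

lemma sg_sq (b : Bool) : sg b * sg b = 1 := by cases b <;> simp [sg]

lemma sg_not (b : Bool) : sg (!b) = - sg b := by cases b <;> simp [sg]

/-- Uniqueness of folding in one coordinate. -/
lemma d1 {L X : ℝ} {m m' : ℤ} {s s' : Bool} (hL : 0 < L) {x x' : ℝ}
    (h : x = sg s * (X - 2 * L * m)) (h' : x' = sg s' * (X - 2 * L * m'))
    (h0 : 0 ≤ x) (h1 : x < L) (h0' : 0 ≤ x') (h1' : x' ≤ L) :
    m' = m ∧ x' = x ∧ (s' = s ∨ x = 0) := by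
  have hX : X = 2 * L * m + sg s * x := by
    rw [h, ← mul_assoc, sg_sq]; ring
  have hX' : X = 2 * L * m' + sg s' * x' := by
    rw [h', ← mul_assoc, sg_sq]; ring
  have e : 2 * L * ((m' : ℝ) - m) = sg s * x - sg s' * x' := by linarith
  have b1 : sg s * x - sg s' * x' < 2 * L := by
    cases s <;> cases s' <;> simp [sg] <;> linarith
  have b2 : -(2 * L) < sg s * x - sg s' * x' := by
    cases s <;> cases s' <;> simp [sg] <;> linarith
  have hm : m' = m := by
    have c1 : (m' : ℝ) - m < 1 := by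
      by_contra hc
      push Not at hc
      nlinarith
    have c2 : -1 < (m' : ℝ) - m := by
      by_contra hc
      push Not at hc
      nlinarith
    have c1' : m' - m < 1 := by exact_mod_cast c1
    have c2' : -1 < m' - m := by exact_mod_cast c2
    omega
  subst hm
  have e2 : sg s * x = sg s' * x' := by linarith
  refine ⟨rfl, ?_, ?_⟩
  · cases s <;> cases s' <;> simp [sg] at e2 ⊢ <;> linarith
  · cases s <;> cases s' <;> simp [sg] at e2 ⊢ <;> linarith

/-- The point with given folded coordinates in the chamber. -/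
def refold (M : ℕ) (g : ℤ × ℤ) (c : Bool × Bool × Bool) (q : ℝ × ℝ) : ℝ × ℝ :=
  if c.2.2 then (sg c.1 * q.2 + 2 * (4 * M + 1) * g.1, sg c.2.1 * q.1 + 2 * (4 * M + 1) * g.2)
  else (sg c.1 * q.1 + 2 * (4 * M + 1) * g.1, sg c.2.1 * q.2 + 2 * (4 * M + 1) * g.2)

lemma unfold_refold (M : ℕ) (g : ℤ × ℤ) (c : Bool × Bool × Bool) (q : ℝ × ℝ) :
    unfold M g c (refold M g c q) = q := by
  obtain ⟨s, t, b⟩ := c
  obtain ⟨x, y⟩ := q
  cases b <;> simp [unfold, refold, ← mul_assoc, sg_sq]

lemma refold_unfold (M : ℕ) (g : ℤ × ℤ) (c : Bool × Bool × Bool) (p : ℝ × ℝ) :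
    refold M g c (unfold M g c p) = p := by
  obtain ⟨s, t, b⟩ := c
  obtain ⟨x, y⟩ := p
  cases b <;> simp [unfold, refold, ← mul_assoc, sg_sq]

lemma unfold_inj (M : ℕ) (g : ℤ × ℤ) (c : Bool × Bool × Bool) {p p' : ℝ × ℝ}
    (h : unfold M g c p = unfold M g c p') : p = p' := by
  rw [← refold_unfold M g c p, h, refold_unfold]

lemma refold_inj (M : ℕ) (g : ℤ × ℤ) (c : Bool × Bool × Bool) {p p' : ℝ × ℝ}
    (h : refold M g c p = refold M g c p') : p = p' := by
  rw [← unfold_refold M g c p, h, unfold_refold]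

lemma flipx_ne (c : Bool × Bool × Bool) : flipx c ≠ c := by
  obtain ⟨s, t, b⟩ := c
  cases s <;> cases t <;> cases b <;> simp [flipx]

lemma flipd_ne (c : Bool × Bool × Bool) : flipd c ≠ c := by
  obtain ⟨s, t, b⟩ := c
  cases s <;> cases t <;> cases b <;> simp [flipd]

lemma flipx_ne_flipd (c : Bool × Bool × Bool) : flipx c ≠ flipd c := by
  obtain ⟨s, t, b⟩ := c
  cases s <;> cases t <;> cases b <;> simp [flipx, flipd]

/-- Two chambers at a common point of the open band 0 < y < L. -/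
lemma common (M : ℕ) (g g' : ℤ × ℤ) (c c' : Bool × Bool × Bool) (p : ℝ × ℝ)
    (h1 : 0 ≤ (unfold M g c p).1) (h2 : (unfold M g c p).1 ≤ (unfold M g c p).2)
    (h3 : 0 < (unfold M g c p).2) (h4 : (unfold M g c p).2 < 4 * M + 1)
    (k1 : 0 ≤ (unfold M g' c' p).1) (k2 : (unfold M g' c' p).1 ≤ (unfold M g' c' p).2)
    (k4 : (unfold M g' c' p).2 ≤ 4 * M + 1) :
    g' = g ∧ unfold M g' c' p = unfold M g c p ∧ (c' = c ∨
      ((unfold M g c p).1 = 0 ∧ c' = flipx c) ∨
      ((unfold M g c p).1 = (unfold M g c p).2 ∧ c' = flipd c)) := by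
  obtain ⟨m, n⟩ := g
  obtain ⟨m', n'⟩ := g'
  obtain ⟨s, t, b⟩ := c
  obtain ⟨s', t', b'⟩ := c'
  obtain ⟨X, Y⟩ := p
  have hL : (0 : ℝ) < 4 * M + 1 := by positivity
  cases b <;> cases b'
  · simp only [unfold, Bool.false_eq_true, if_false] at *
    obtain ⟨e1, e2, e3⟩ := d1 (L := 4 * M + 1) hL (x := sg s * (X - 2 * (4 * M + 1) * m))
      (x' := sg s' * (X - 2 * (4 * M + 1) * m')) rfl rfl h1 (by linarith) k1 (by linarith)
    obtain ⟨e4, e5, e6⟩ := d1 (L := 4 * M + 1) hL (x := sg t * (Y - 2 * (4 * M + 1) * n))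
      (x' := sg t' * (Y - 2 * (4 * M + 1) * n')) rfl rfl (by linarith) h4 (by linarith) k4
    have e7 : t' = t := by
      rcases e6 with h | h
      · exact h
      · exact absurd h (ne_of_gt h3)
    refine ⟨by rw [e1, e4], by rw [e2, e5], ?_⟩
    rcases e3 with h | h
    · left; rw [h, e7]
    · by_cases hs : s' = s
      · left; rw [hs, e7]
      · right; left
        refine ⟨h, ?_⟩
        have : s' = !s := by cases s <;> cases s' <;> simp_all
        simp [flipx, this, e7]
  · simp only [unfold, Bool.false_eq_true, if_false, if_true] at *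
    obtain ⟨e1, e2, e3⟩ := d1 (L := 4 * M + 1) hL (x := sg s * (X - 2 * (4 * M + 1) * m))
      (x' := sg s' * (X - 2 * (4 * M + 1) * m')) rfl rfl h1 (by linarith) (by linarith) k4
    obtain ⟨e4, e5, e6⟩ := d1 (L := 4 * M + 1) hL (x := sg t * (Y - 2 * (4 * M + 1) * n))
      (x' := sg t' * (Y - 2 * (4 * M + 1) * n')) rfl rfl (by linarith) h4 k1 (by linarith)
    have e7 : t' = t := by
      rcases e6 with h | h
      · exact h
      · exact absurd h (ne_of_gt h3)
    have e8 : sg s * (X - 2 * (4 * M + 1) * m) = sg t * (Y - 2 * (4 * M + 1) * n) := by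
      linarith
    have e9 : s' = s := by
      rcases e3 with h | h
      · exact h
      · exact absurd (e8 ▸ h) (ne_of_gt h3)
    refine ⟨by rw [e1, e4], ?_, ?_⟩
    · rw [e2, e5, e8]
    · right; right
      exact ⟨e8, by simp [flipd, e7, e9]⟩
  · simp only [unfold, Bool.false_eq_true, if_false, if_true] at *
    obtain ⟨e1, e2, e3⟩ := d1 (L := 4 * M + 1) hL (x := sg s * (X - 2 * (4 * M + 1) * m))
      (x' := sg s' * (X - 2 * (4 * M + 1) * m')) rfl rfl (by linarith) h4 k1 (by linarith)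
    obtain ⟨e4, e5, e6⟩ := d1 (L := 4 * M + 1) hL (x := sg t * (Y - 2 * (4 * M + 1) * n))
      (x' := sg t' * (Y - 2 * (4 * M + 1) * n')) rfl rfl h1 (by linarith) (by linarith) k4
    have e7 : s' = s := by
      rcases e3 with h | h
      · exact h
      · exact absurd h (ne_of_gt h3)
    have e8 : sg t * (Y - 2 * (4 * M + 1) * n) = sg s * (X - 2 * (4 * M + 1) * m) := by
      linarith
    have e9 : t' = t := by
      rcases e6 with h | h
      · exact h
      · exact absurd (e8 ▸ h) (ne_of_gt h3)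
    refine ⟨by rw [e1, e4], ?_, ?_⟩
    · rw [e2, e5, e8]
    · right; right
      exact ⟨e8, by simp [flipd, e7, e9]⟩
  · simp only [unfold, if_true] at *
    obtain ⟨e1, e2, e3⟩ := d1 (L := 4 * M + 1) hL (x := sg s * (X - 2 * (4 * M + 1) * m))
      (x' := sg s' * (X - 2 * (4 * M + 1) * m')) rfl rfl (by linarith) h4 (by linarith) k4
    obtain ⟨e4, e5, e6⟩ := d1 (L := 4 * M + 1) hL (x := sg t * (Y - 2 * (4 * M + 1) * n))
      (x' := sg t' * (Y - 2 * (4 * M + 1) * n')) rfl rfl h1 (by linarith) k1 (by linarith)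
    have e7 : s' = s := by
      rcases e3 with h | h
      · exact h
      · exact absurd h (ne_of_gt h3)
    refine ⟨by rw [e1, e4], by rw [e2, e5], ?_⟩
    rcases e6 with h | h
    · left; rw [h, e7]
    · by_cases ht : t' = t
      · left; rw [ht, e7]
      · right; left
        refine ⟨h, ?_⟩
        have : t' = !t := by cases t <;> cases t' <;> simp_all
        simp [flipx, this, e7]

end Pool.Agent.Lib.MP_82ac4a_mp
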