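import Pool.Agent.Lib.MP_82ac4a_mp.Defs30

/-!
MP_82ac4a (83): moments of the finite volume Laplacians at interior tiles are local.
-/

set_option autoImplicit false

namespace Pool.Agent.Lib.MP_82ac4a_mp

open Filter Topology MeasureTheory

namespace EX83

section

variable {ι : Type} (A : ι → ι → Prop)

open Classical in
/-- The Laplacian of the whole graph. -/
noncomputable def full (ψ : ι → ℝ) : ι → ℝ := fun v => ∑ᶠ u, if A v u then ψ v - ψ u else 0

open Classical in
/-- Extension by zero. -/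
noncomputable def ext (V : Finset ι) (ψ : V → ℝ) : ι → ℝ :=
  fun v => if h : v ∈ V then ψ ⟨v, h⟩ else 0

open Classical in
/-- The point mass. -/
noncomputable def dl (v : ι) : ι → ℝ := fun w => if w = v then 1 else 0

/-- w is within k steps of v. -/
def Near : ℕ → ι → ι → Prop
  | 0, v, w => w = v
  | k + 1, v, w => Near k v w ∨ ∃ u, Near k v u ∧ A u w

lemma near_mono {k : ℕ} {v w : ι} (h : Near A k v w) : Near A (k + 1) v w := Or.inl h

lemma full_equiv (τ : ι ≃ ι) (hτ : ∀ v w, A (τ v) (τ w) ↔ A v w) (ψ : ι → ℝ) :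
    full A ψ ∘ τ = full A (ψ ∘ τ) := by
  classical
  funext v
  show (∑ᶠ u, if A (τ v) u then ψ (τ v) - ψ u else 0) =
    ∑ᶠ u, if A v u then ψ (τ v) - ψ (τ u) else 0
  rw [← finsum_comp_equiv τ]
  refine finsum_congr fun u => ?_
  simp only [hτ]

lemma iter_equiv (τ : ι ≃ ι) (hτ : ∀ v w, A (τ v) (τ w) ↔ A v w) (k : ℕ) (ψ : ι → ℝ) :
    (full A)^[k] ψ ∘ τ = (full A)^[k] (ψ ∘ τ) := by
  induction k with
  | zero => rfl
  | succ k ih =>
    rw [Function.iterate_succ_apply', Function.iterate_succ_apply', full_equiv A τ hτ, ih]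

/-- The moments. -/
noncomputable def mom (k : ℕ) (v : ι) : ℝ := (full A)^[k] (dl v) v

lemma mom_equiv (τ : ι ≃ ι) (hτ : ∀ v w, A (τ v) (τ w) ↔ A v w) (k : ℕ) (v : ι) :
    mom A k (τ v) = mom A k v := by
  have h := iter_equiv A τ hτ k (dl (τ v))
  have h2 : dl (τ v) ∘ τ = dl v := by
    funext w
    simp only [dl, Function.comp]
    by_cases hw : w = v
    · simp [hw]
    · have : τ w ≠ τ v := fun h => hw (τ.injective h)
      simp [hw, this]
  rw [h2] at h
  exact congrFun h v

end

section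

variable {ι : Type} (T : Tiling ι)

lemma adj_symm' {a b : ι} (h : T.Adj a b) : T.Adj b a :=
  ⟨h.1.symm, by rw [Set.inter_comm]; exact h.2⟩

lemma step (V : Finset ι) (φ : V → ℝ) (S : ι → Prop) (h0 : ∀ w, ¬ S w → ext V φ w = 0)
    (hS : ∀ w, S w → ∀ u, T.Adj w u → u ∈ V) :
    ext V (T.lap V φ) = full T.Adj (ext V φ) := by
  classical
  funext w
  by_cases hw : w ∈ V
  · have h1 : ext V (T.lap V φ) w = T.lap V φ ⟨w, hw⟩ := by simp [ext, hw]
    rw [h1]
    have h2 : T.lap V φ ⟨w, hw⟩ = ∑ u ∈ V, if T.Adj w u then ext V φ w - ext V φ u else 0 := by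
      rw [← Finset.sum_coe_sort V fun u => if T.Adj w u then ext V φ w - ext V φ u else 0]
      show (∑ u : V, if T.Adj w u then φ ⟨w, hw⟩ - φ u else 0) = _
      refine Finset.sum_congr rfl fun u _ => ?_
      have e1 : ext V φ w = φ ⟨w, hw⟩ := by simp [ext, hw]
      have e2 : ext V φ u = φ u := by simp [ext]
      rw [e1, e2]
    rw [h2]
    show _ = ∑ᶠ u, if T.Adj w u then ext V φ w - ext V φ u else 0
    rw [finsum_eq_sum_of_support_subset]
    intro u hu
    rw [Function.mem_support] at hu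
    by_contra huV
    have huV' : u ∉ V := huV
    apply hu
    by_cases ha : T.Adj w u
    · have hwS : ¬ S w := fun h => huV' (hS w h u ha)
      rw [if_pos ha, h0 w hwS]
      simp [ext, huV']
    · rw [if_neg ha]
  · have h1 : ext V (T.lap V φ) w = 0 := by simp [ext, hw]
    rw [h1]
    show 0 = ∑ᶠ u, if T.Adj w u then ext V φ w - ext V φ u else 0
    symm
    have h3 : ext V φ w = 0 := by simp [ext, hw]
    have : ∀ u, (if T.Adj w u then ext V φ w - ext V φ u else 0) = 0 := by
      intro u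
      by_cases ha : T.Adj w u
      · have huS : ¬ S u := fun h => hw (hS u h w (adj_symm' T ha))
        rw [if_pos ha, h3, h0 u huS, sub_zero]
      · rw [if_neg ha]
    simp only [this]
    exact finsum_zero

lemma local_iter (V : Finset ι) (v : V) (k : ℕ) (hk : ∀ w, Near T.Adj k v w → w ∈ V) :
    ext V ((T.lap V ^ k) (dl v)) = (full T.Adj)^[k] (dl (v : ι)) ∧
      ∀ w, ¬ Near T.Adj k v w → (full T.Adj)^[k] (dl (v : ι)) w = 0 := by
  classical
  induction k with
  | zero =>
    refine ⟨?_, ?_⟩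
    · funext w
      simp only [pow_zero, Module.End.one_apply, ext, dl, Function.iterate_zero, id]
      by_cases hw : w ∈ V
      · simp only [hw, dif_pos]
        by_cases h : w = v
        · have : (⟨w, hw⟩ : V) = v := Subtype.ext h
          simp [h]
        · have : (⟨w, hw⟩ : V) ≠ v := fun h' => h (congrArg Subtype.val h')
          simp [h, this]
      · have : w ≠ v := fun h => hw (h ▸ v.2)
        simp [hw, this]
    · intro w hw
      have : w ≠ v := hw
      simp [dl, this]
  | succ k ih =>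
    obtain ⟨ih1, ih2⟩ := ih fun w hw => hk w (near_mono _ hw)
    rw [pow_succ', Module.End.mul_apply, Function.iterate_succ_apply', ← ih1]
    have hst := step T V ((T.lap V ^ k) (dl v))
      (Near T.Adj k v) (fun w hw => by rw [ih1]; exact ih2 w hw)
      (fun w hw u hu => hk u (Or.inr ⟨w, hw, hu⟩))
    refine ⟨hst, ?_⟩
    intro w hw
    have hw1 : ¬ Near T.Adj k v w := fun h => hw (Or.inl h)
    show (∑ᶠ u, if T.Adj w u then
      ext V ((T.lap V ^ k) (dl v)) w -
      ext V ((T.lap V ^ k) (dl v)) u else 0) = 0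
    rw [ih1, ih2 w hw1]
    have : ∀ u, (if T.Adj w u then (0 : ℝ) - (full T.Adj)^[k] (dl (v : ι)) u else 0) = 0 := by
      intro u
      by_cases ha : T.Adj w u
      · have : ¬ Near T.Adj k v u := fun h => hw (Or.inr ⟨u, h, adj_symm' T ha⟩)
        rw [if_pos ha, ih2 u this, sub_zero]
      · rw [if_neg ha]
    simp only [this]
    exact finsum_zero

/-- The moment of an interior tile. -/
theorem local_mom (V : Finset ι) (v : V) (k : ℕ) (hk : ∀ w, Near T.Adj k v w → w ∈ V) :
    (T.lap V ^ k) (dl v) v = mom T.Adj k (v : ι) := by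
  classical
  have h := congrFun (local_iter T V v k hk).1 (v : ι)
  unfold mom
  rw [← h]
  simp [ext]

lemma lap_bound (D : ℕ) (hD : ∀ (v : ι) (W : Finset ι), (∀ u ∈ W, T.Adj v u) → W.card ≤ D)
    (V : Finset ι) (φ : V → ℝ) (c : ℝ) (hc : ∀ w, |φ w| ≤ c) (w : V) :
    |T.lap V φ w| ≤ 2 * D * c := by
  classical
  have hc0 : 0 ≤ c := (abs_nonneg _).trans (hc w)
  show |∑ u : V, if T.Adj w u then φ w - φ u else 0| ≤ 2 * D * c
  refine (Finset.abs_sum_le_sum_abs _ _).trans ?_
  have h1 : ∀ u ∈ (Finset.univ : Finset V), |if T.Adj w u then φ w - φ u else 0| ≤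
      if T.Adj w u then 2 * c else 0 := by
    intro u _
    split_ifs
    · have := abs_sub (φ w) (φ u)
      have h2 := hc w
      have h3 := hc u
      linarith
    · simp
  refine (Finset.sum_le_sum h1).trans ?_
  rw [← Finset.sum_filter, Finset.sum_const, nsmul_eq_mul]
  have h4 : (Finset.univ.filter fun u : V => T.Adj w u).card ≤ D := by
    have := hD w ((Finset.univ.filter fun u : V => T.Adj w u).map (Function.Embedding.subtype _))
      (by
        intro u hu
        rw [Finset.mem_map] at hu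
        obtain ⟨u', hu', rfl⟩ := hu
        exact (Finset.mem_filter.mp hu').2)
    rwa [Finset.card_map] at this
  have h5 : ((Finset.univ.filter fun u : V => T.Adj w u).card : ℝ) ≤ D := by exact_mod_cast h4
  nlinarith

lemma pow_bound (D : ℕ) (hD : ∀ (v : ι) (W : Finset ι), (∀ u ∈ W, T.Adj v u) → W.card ≤ D)
    (V : Finset ι) (v : V) (k : ℕ) : ∀ w,
    |(T.lap V ^ k) (dl v) w| ≤ (2 * (D : ℝ)) ^ k := by
  classical
  induction k with
  | zero =>
    intro w
    simp only [pow_zero, Module.End.one_apply, dl]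
    split_ifs <;> simp
  | succ k ih =>
    intro w
    rw [pow_succ', Module.End.mul_apply]
    refine (lap_bound T D hD V _ _ ih w).trans ?_
    rw [pow_succ]
    linarith

lemma eig_bound (D : ℕ) (hD : ∀ (v : ι) (W : Finset ι), (∀ u ∈ W, T.Adj v u) → W.card ≤ D)
    (V : Finset ι) (φ : V → ℝ) (hφ : φ ≠ 0) (E : ℝ) (h : T.lap V φ = E • φ) :
    |E| ≤ 2 * D := by
  classical
  have hne : Nonempty V := by
    by_contra hn
    rw [not_nonempty_iff] at hn
    exact hφ (Subsingleton.elim _ _)
  obtain ⟨w, hw⟩ := Finite.exists_max fun w => |φ w|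
  have hpos : 0 < |φ w| := by
    obtain ⟨u, hu⟩ := Function.ne_iff.mp hφ
    exact (abs_pos.mpr hu).trans_le (hw u)
  have h1 := lap_bound T D hD V φ _ hw w
  rw [h] at h1
  simp only [Pi.smul_apply, smul_eq_mul, abs_mul] at h1
  exact le_of_mul_le_mul_right h1 hpos

end

end EX83

end Pool.Agent.Lib.MP_82ac4a_mp
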