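import Pool.Agent.Lib.MP_82ac4a_mp.Base30
import Pool.Agent.Lib.MP_82ac4a_mp.SPEC38

/-!
MP_82ac4a (38): the normalized eigenvalue counting measure of a finite volume.
-/

namespace Pool.Agent.Lib.MP_82ac4a_mp

open Module.End

namespace Mass38

variable {ι : Type} (T : Tiling ι)

theorem adj_comm (a b : ι) : T.Adj a b ↔ T.Adj b a := by
  unfold Tiling.Adj
  rw [Set.inter_comm, ne_comm]

open Classical in
theorem lap_symm (V : Finset ι) (x y : V → ℝ) :
    ∑ v, T.lap V x v * y v = ∑ v, x v * T.lap V y v := by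
  simp only [Tiling.lap, LinearMap.coe_mk, AddHom.coe_mk, Finset.sum_mul, Finset.mul_sum]
  have h1 : ∑ v : V, ∑ u : V, (if T.Adj v u then x v - x u else 0) * y v -
      ∑ v : V, ∑ u : V, x v * (if T.Adj v u then y v - y u else 0) =
      ∑ v : V, ∑ u : V, ((if T.Adj v u then x v * y u else 0) -
        (if T.Adj v u then x u * y v else 0)) := by
    rw [← Finset.sum_sub_distrib]
    refine Finset.sum_congr rfl fun v _ => ?_
    rw [← Finset.sum_sub_distrib]
    refine Finset.sum_congr rfl fun u _ => ?_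
    split_ifs <;> ring
  have h2 : ∑ v : V, ∑ u : V, ((if T.Adj v u then x v * y u else 0) -
        (if T.Adj v u then x u * y v else 0)) = 0 := by
    simp only [Finset.sum_sub_distrib]
    rw [sub_eq_zero]
    rw [Finset.sum_comm]
    refine Finset.sum_congr rfl fun v _ => Finset.sum_congr rfl fun u _ => ?_
    simp only [adj_comm T u v]
  linarith

open Classical in
theorem form (V : Finset ι) (x : V → ℝ) :
    2 * ∑ v, T.lap V x v * x v = ∑ v : V, ∑ u : V, if T.Adj v u then (x v - x u) ^ 2 else 0 := by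
  have h1 : ∑ v, T.lap V x v * x v = ∑ v : V, ∑ u : V, if T.Adj v u then (x v - x u) * x v else 0 := by
    simp only [Tiling.lap, LinearMap.coe_mk, AddHom.coe_mk, Finset.sum_mul]
    refine Finset.sum_congr rfl fun v _ => Finset.sum_congr rfl fun u _ => ?_
    split_ifs <;> ring
  have h2 : ∑ v : V, ∑ u : V, (if T.Adj v u then (x v - x u) * x v else 0) =
      ∑ v : V, ∑ u : V, if T.Adj v u then (x u - x v) * x u else 0 := by
    rw [Finset.sum_comm]
    refine Finset.sum_congr rfl fun v _ => Finset.sum_congr rfl fun u _ => ?_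
    simp only [adj_comm T u v]
  rw [two_mul, h1]
  nth_rewrite 2 [h2]
  rw [← Finset.sum_add_distrib]
  refine Finset.sum_congr rfl fun v _ => ?_
  rw [← Finset.sum_add_distrib]
  refine Finset.sum_congr rfl fun u _ => ?_
  split_ifs <;> ring

open Classical in
theorem form_le (V : Finset ι) (D : ℕ) (hD : ∀ i ∈ V, (V.filter (T.Adj i)).card ≤ D)
    (x : V → ℝ) : ∑ v, T.lap V x v * x v ≤ 2 * D * ∑ v, x v ^ 2 := by
  have hdeg : ∀ v : V, (∑ u : V, if T.Adj v u then (1 : ℝ) else 0) ≤ D := by
    intro v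
    have h1 : (∑ u : V, if T.Adj v u then (1 : ℝ) else 0) = ((V.filter (T.Adj v)).card : ℝ) := by
      rw [Finset.sum_coe_sort V (fun u => if T.Adj v u then (1 : ℝ) else 0), Finset.sum_ite]
      simp
    rw [h1]
    exact_mod_cast hD v v.2
  have h1 := form T V x
  have h2 : (∑ v : V, ∑ u : V, if T.Adj v u then (x v - x u) ^ 2 else 0) ≤
      ∑ v : V, ∑ u : V, (2 * ((if T.Adj v u then (1 : ℝ) else 0) * x v ^ 2) +
        2 * ((if T.Adj v u then (1 : ℝ) else 0) * x u ^ 2)) := by
    refine Finset.sum_le_sum fun v _ => Finset.sum_le_sum fun u _ => ?_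
    split_ifs
    · nlinarith [sq_nonneg (x v + x u)]
    · simp
  have h3 : (∑ v : V, ∑ u : V, (2 * ((if T.Adj v u then (1 : ℝ) else 0) * x v ^ 2) +
        2 * ((if T.Adj v u then (1 : ℝ) else 0) * x u ^ 2))) =
      4 * ∑ v : V, (∑ u : V, if T.Adj v u then (1 : ℝ) else 0) * x v ^ 2 := by
    have h4 : ∑ v : V, ∑ u : V, ((if T.Adj v u then (1 : ℝ) else 0) * x u ^ 2) =
        ∑ v : V, (∑ u : V, if T.Adj v u then (1 : ℝ) else 0) * x v ^ 2 := by
      rw [Finset.sum_comm]
      refine Finset.sum_congr rfl fun v _ => ?_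
      rw [Finset.sum_mul]
      refine Finset.sum_congr rfl fun u _ => ?_
      simp only [adj_comm T u v]
    simp only [Finset.sum_add_distrib, ← Finset.mul_sum, ← Finset.sum_mul]
    rw [h4]
    ring
  have h5 : ∑ v : V, (∑ u : V, if T.Adj v u then (1 : ℝ) else 0) * x v ^ 2 ≤
      ∑ v : V, (D : ℝ) * x v ^ 2 :=
    Finset.sum_le_sum fun v _ => mul_le_mul_of_nonneg_right (hdeg v) (sq_nonneg _)
  rw [← Finset.mul_sum] at h5
  linarith

end Mass38

open Classical in
theorem mass38 {ι : Type} (T : Tiling ι) (V : Finset ι) (hV : V.Nonempty) (D : ℕ)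
    (hD : ∀ i ∈ V, (V.filter (T.Adj i)).card ≤ D) :
    (∀ E, 0 ≤ T.mass V E) ∧ (Function.support (T.mass V)).Finite ∧
      ∑ᶠ E, T.mass V E = 1 ∧ (∀ E, T.mass V E ≠ 0 → E ∈ Set.Icc (0 : ℝ) (2 * D)) ∧
      ∀ k : ℕ, ∑ᶠ E, T.mass V E * E ^ k =
        (∑ v, ((T.lap V) ^ k) (Pi.single v 1) v) / V.card := by
  obtain ⟨lam, h0, h1, h2⟩ := spec38s (T.lap V) (Mass38.lap_symm T V)
  have hfin : ∀ f : ℝ → ℝ, (Function.support fun E =>
      (Module.finrank ℝ (eigenspace (T.lap V) E) : ℝ) * f E).Finite := by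
    intro f
    refine (Finset.univ.image lam).finite_toSet.subset fun E hE => ?_
    by_contra hc
    apply hE
    simp only [Finset.coe_image, Finset.coe_univ, Set.image_univ, Set.mem_range,
      not_exists] at hc
    show (_ : ℝ) * f E = 0
    rw [h0 E, Finset.card_eq_zero.2 (Finset.filter_eq_empty_iff.2 fun v _ => hc v)]
    simp
  have hc : (0 : ℝ) < V.card := by exact_mod_cast hV.card_pos
  have hsum : ∀ f : ℝ → ℝ, ∑ᶠ E, T.mass V E * f E = (∑ i, f (lam i)) / V.card := by
    intro f
    rw [← h1 f]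
    have : ∀ E, T.mass V E * f E =
        (Module.finrank ℝ (eigenspace (T.lap V) E) : ℝ) * f E * (V.card : ℝ)⁻¹ := by
      intro E
      unfold Tiling.mass
      ring
    simp only [this]
    rw [div_eq_mul_inv]
    exact (finsum_mul _ _).symm
  refine ⟨fun E => ?_, ?_, ?_, fun E hE => ?_, fun k => ?_⟩
  · exact div_nonneg (Nat.cast_nonneg _) (Nat.cast_nonneg _)
  · refine (hfin fun _ => 1).subset fun E hE => ?_
    rw [Function.mem_support] at hE ⊢
    intro h
    apply hE
    unfold Tiling.mass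
    rw [mul_one] at h
    rw [h, zero_div]
  · have := hsum fun _ => 1
    simp only [mul_one] at this
    rw [this]
    simp only [Finset.sum_const, Finset.card_univ, Fintype.card_coe, nsmul_eq_mul, mul_one]
    exact div_self hc.ne'
  · have hb : eigenspace (T.lap V) E ≠ ⊥ := by
      intro h
      apply hE
      unfold Tiling.mass
      rw [h]
      simp
    obtain ⟨x, hx, hx0⟩ := Submodule.exists_mem_ne_zero_of_ne_bot hb
    rw [mem_eigenspace_iff] at hx
    have hpos : 0 < ∑ v, x v ^ 2 := by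
      obtain ⟨v, hv⟩ := Function.ne_iff.1 hx0
      exact Finset.sum_pos' (fun v _ => sq_nonneg _) ⟨v, Finset.mem_univ _, by
        have : x v ≠ 0 := hv
        positivity⟩
    have hq : ∑ v, T.lap V x v * x v = E * ∑ v, x v ^ 2 := by
      rw [hx, Finset.mul_sum]
      refine Finset.sum_congr rfl fun v _ => ?_
      rw [Pi.smul_apply, smul_eq_mul]
      ring
    have hf := Mass38.form T V x
    have hfl := Mass38.form_le T V D hD x
    have hnn : 0 ≤ ∑ v : V, ∑ u : V, if T.Adj v u then (x v - x u) ^ 2 else 0 :=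
      Finset.sum_nonneg fun v _ => Finset.sum_nonneg fun u _ => by
        split_ifs
        · positivity
        · exact le_refl 0
    rw [hq] at hf hfl
    constructor
    · by_contra hneg
      push Not at hneg
      have := mul_neg_of_neg_of_pos hneg hpos
      linarith
    · by_contra hbig
      push Not at hbig
      have := mul_lt_mul_of_pos_right hbig hpos
      linarith
  · rw [hsum fun E => E ^ k, ← h2 k]

end Pool.Agent.Lib.MP_82ac4a_mp
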