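import Pool.Agent.Lib.MP_82ac4a_mp.Defs30

/-! Row MASS (21): every radial mode gives a positive proportion of eigenvalues. -/

namespace Pool.Agent.Lib.MP_82ac4a_mp

open Filter Topology

namespace Mass21

theorem tl_bound (M : ℕ) (a : Idx M) (p : ℝ × ℝ) (hp : p ∈ tl M a) :
    |p.1 - 2 * (4 * M + 1) * a.1.1| ≤ 4 * M + 1 ∧
      |p.2 - 2 * (4 * M + 1) * a.1.2| ≤ 4 * M + 1 := by
  obtain ⟨⟨g1, g2⟩, ⟨s, t, b⟩, ⟨⟨r, i⟩, hi⟩⟩ := a
  have hr : (r : ℕ) ≤ 4 * M := by omega
  have hr' : ((r : ℕ) : ℝ) ≤ 4 * M := by exact_mod_cast hr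
  simp only [tl, Set.mem_ofPred_eq, cell, unfold] at hp
  obtain ⟨h1, h2, -, h4, -, -⟩ := hp
  cases b <;> cases s <;> cases t <;> simp [sg] at h1 h2 h4 ⊢ <;>
    constructor <;> rw [abs_le] <;> constructor <;> linarith

/-- Two points of the same square are close. -/
theorem same_square (M : ℕ) (g : ℤ × ℤ) (c d : Fu M) (p q : ℝ × ℝ)
    (hp : p ∈ tl M (g, c)) (hq : q ∈ tl M (g, d)) : ed p q ≤ 4 * (4 * M + 1) := by
  obtain ⟨a1, a2⟩ := tl_bound M _ p hp
  obtain ⟨b1, b2⟩ := tl_bound M _ q hq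
  simp only at a1 a2 b1 b2
  rw [abs_le] at a1 a2 b1 b2
  have hM : (0 : ℝ) ≤ M := Nat.cast_nonneg M
  have e1 : |p.1 - q.1| ≤ 2 * (4 * M + 1) := by rw [abs_le]; constructor <;> linarith
  have e2 : |p.2 - q.2| ≤ 2 * (4 * M + 1) := by rw [abs_le]; constructor <;> linarith
  unfold ed
  rw [Real.sqrt_le_left (by positivity)]
  have f1 : (p.1 - q.1) ^ 2 ≤ (2 * (4 * (M : ℝ) + 1)) ^ 2 := sq_le_sq' (by linarith [(abs_le.1 e1).1]) (abs_le.1 e1).2
  have f2 : (p.2 - q.2) ^ 2 ≤ (2 * (4 * (M : ℝ) + 1)) ^ 2 := sq_le_sq' (by linarith [(abs_le.1 e2).1]) (abs_le.1 e2).2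
  nlinarith

/-- The ring cell used as a witness. -/
def cel0 (M : ℕ) (hM : 1 ≤ M) : Fu M :=
  ((false, false, false), ⟨(⟨2 * M, by omega⟩, ⟨0, by omega⟩), by
    show 0 < num M (2 * M)
    unfold num
    rw [if_neg (by omega), if_pos (by omega)]
    omega⟩)

theorem amp_cel0 (M : ℕ) (hM : 1 ≤ M) (f : ℕ → ℝ) : amp M f (cel0 M hM) = f 1 := by
  have h : Ring M (cel0 M hM) := by
    constructor
    · simp [cel0]
    · simp [cel0]; omega
  unfold amp
  rw [if_pos h]
  simp [cel0, sg]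

open Classical in
/-- The eigenspace has at least as many dimensions as there are complete squares. -/
theorem finrank_ge (hE : StEig) (M : ℕ) (hM : 1 ≤ M) (T : Tiling (Idx M)) (hT : T.tile = tl M)
    (E : ℝ) (f : ℕ → ℝ) (hf : Radial M E f) (V : Finset (Idx M)) (G : Finset (ℤ × ℤ))
    (hG : ∀ g ∈ G, ∀ c : Fu M, (g, c) ∈ V) :
    G.card ≤ Module.finrank ℝ (Module.End.eigenspace (T.lap V) E) := by
  let ψ : G → Module.End.eigenspace (T.lap V) E := fun g =>
    ⟨fun v => if v.1.1 = g.1 then amp M f v.1.2 else 0, by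
      rw [Module.End.mem_eigenspace_iff]
      exact hE M hM T hT E f hf V g.1 (hG g.1 g.2)⟩
  have hli : LinearIndependent ℝ ψ := by
    rw [Fintype.linearIndependent_iff]
    intro a ha g
    have h1 := congrArg (fun x : Module.End.eigenspace (T.lap V) E =>
      (x : V → ℝ) ⟨(g.1, cel0 M hM), hG g.1 g.2 _⟩) ha
    simp only [Submodule.coe_sum, Submodule.coe_smul, Finset.sum_apply, Pi.smul_apply,
      ZeroMemClass.coe_zero, Pi.zero_apply, smul_eq_mul, ψ] at h1
    rw [Finset.sum_eq_single g] at h1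
    · rw [if_pos rfl, amp_cel0] at h1
      rcases mul_eq_zero.1 h1 with h | h
      · exact h
      · exact absurd h hf.2.2.1
    · intro b _ hb
      rw [if_neg, mul_zero]
      intro hgb
      exact hb (Subtype.ext hgb.symm)
    · intro h
      exact absurd (Finset.mem_univ _) h
  have := hli.fintype_card_le_finrank
  simpa using this

end Mass21

open Mass21 in
open Classical in
theorem mass21 (hE : StEig) : StMass := by
  intro M hM T hT
  have hFu : 0 < Fintype.card (Fu M) := Fintype.card_pos_iff.2 ⟨cel0 M hM⟩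
  refine ⟨1 / (2 * (Fintype.card (Fu M) : ℝ)), by positivity, ?_⟩
  intro E f hf V hV
  obtain ⟨n0, hn0⟩ := hV.2.1 ((0, 0), cel0 M hM)
  have hlt := (hV.2.2 (4 * (4 * M + 1))).eventually_lt_const (show (0 : ℝ) < 1 / 2 by norm_num)
  filter_upwards [hlt, eventually_ge_atTop n0] with n hn hge
  have hpos : 0 < (V n).card := Finset.card_pos.2 ⟨_, hV.1 hge hn0⟩
  have hposR : (0 : ℝ) < (V n).card := by exact_mod_cast hpos
  set B := (V n).filter fun i => ∃ j, j ∉ V n ∧ ∃ p ∈ T.tile i, ∃ q ∈ T.tile j,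
    ed p q ≤ 4 * (4 * M + 1) with hB
  have hB2 : 2 * B.card ≤ (V n).card := by
    rw [div_lt_iff₀ hposR] at hn
    have h2 : (2 * B.card : ℝ) ≤ (V n).card := by linarith
    exact_mod_cast h2
  set G : Finset (ℤ × ℤ) := ((V n).image (fun v => v.1)).filter
    (fun g => ∀ c : Fu M, (g, c) ∈ V n) with hG
  have hsub : V n \ B ⊆ G ×ˢ (Finset.univ : Finset (Fu M)) := by
    intro v hv
    rw [Finset.mem_sdiff] at hv
    obtain ⟨hv1, hv2⟩ := hv
    rw [Finset.mem_product]
    refine ⟨?_, Finset.mem_univ _⟩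
    rw [hG, Finset.mem_filter]
    refine ⟨Finset.mem_image_of_mem _ hv1, ?_⟩
    intro c
    by_contra hc
    apply hv2
    rw [hB, Finset.mem_filter]
    refine ⟨hv1, (v.1, c), hc, ?_⟩
    obtain ⟨p, hp⟩ := (T.polygon v).2.2
    obtain ⟨q, hq⟩ := (T.polygon (v.1, c)).2.2
    have hp' := interior_subset hp
    have hq' := interior_subset hq
    refine ⟨p, hp', q, hq', ?_⟩
    rw [hT] at hp' hq'
    exact same_square M v.1 v.2 c p q hp' hq'
  have hcard : (V n).card - B.card ≤ G.card * Fintype.card (Fu M) := by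
    have h1 := Finset.card_le_card hsub
    rw [Finset.card_product, Finset.card_univ] at h1
    have h2 : (V n \ B).card = (V n).card - B.card :=
      Finset.card_sdiff_of_subset (Finset.filter_subset _ _)
    omega
  have hrank := finrank_ge hE M hM T hT E f hf (V n) G (fun g hg => by
    rw [hG, Finset.mem_filter] at hg
    exact hg.2)
  unfold Tiling.mass
  rw [le_div_iff₀ hposR]
  have hFuR : (0 : ℝ) < Fintype.card (Fu M) := by exact_mod_cast hFu
  have h3 : (V n).card ≤ 2 * (G.card * Fintype.card (Fu M)) := by omega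
  have h3R : ((V n).card : ℝ) ≤ 2 * (G.card * Fintype.card (Fu M)) := by exact_mod_cast h3
  have h4R : (G.card : ℝ) ≤ Module.finrank ℝ (Module.End.eigenspace (T.lap (V n)) E) := by
    exact_mod_cast hrank
  refine le_trans ?_ h4R
  rw [div_mul_eq_mul_div, one_mul, div_le_iff₀ (by positivity)]
  linarith

end Pool.Agent.Lib.MP_82ac4a_mp
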