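import Pool.Agent.Lib.MP_82ac4a_mp.Loc83

/-!
MP_82ac4a (83): the limits of the normalized moments for periodic tilings.
-/

set_option autoImplicit false

namespace Pool.Agent.Lib.MP_82ac4a_mp

open Filter Topology MeasureTheory

namespace EX83

variable {F : Type} [Fintype F]

open Classical in
/-- The tiles of V that are at index distance at most m from the complement. -/
noncomputable def bd (V : Finset ((ℤ × ℤ) × F)) (m : ℕ) : Finset ((ℤ × ℤ) × F) :=
  V.filter fun v => ∃ w, w ∉ V ∧ |v.1.1 - w.1.1| ≤ (m : ℤ) ∧ |v.1.2 - w.1.2| ≤ (m : ℤ)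

/-- The adjacency is local and periodic. -/
structure Per (A : (ℤ × ℤ) × F → (ℤ × ℤ) × F → Prop) : Prop where
  loc : ∀ a b, A a b → |a.1.1 - b.1.1| ≤ 1 ∧ |a.1.2 - b.1.2| ≤ 1
  per : ∀ (h : ℤ × ℤ) (a b : (ℤ × ℤ) × F), A (a.1 + h, a.2) (b.1 + h, b.2) ↔ A a b

variable {A : (ℤ × ℤ) × F → (ℤ × ℤ) × F → Prop}

lemma near_le (hA : Per A) (k : ℕ) (v w : (ℤ × ℤ) × F) (h : Near A k v w) :
    |v.1.1 - w.1.1| ≤ (k : ℤ) ∧ |v.1.2 - w.1.2| ≤ (k : ℤ) := by
  induction k generalizing w with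
  | zero =>
    have : w = v := h
    subst this
    simp
  | succ k ih =>
    rcases h with h | ⟨u, hu, hw⟩
    · obtain ⟨h1, h2⟩ := ih w h
      push_cast
      exact ⟨by linarith, by linarith⟩
    · obtain ⟨h1, h2⟩ := ih u hu
      obtain ⟨h3, h4⟩ := hA.loc u w hw
      have h5 := abs_sub_le v.1.1 u.1.1 w.1.1
      have h6 := abs_sub_le v.1.2 u.1.2 w.1.2
      push_cast
      exact ⟨by linarith, by linarith⟩

lemma deg_le (hA : Per A) (v : (ℤ × ℤ) × F) (W : Finset ((ℤ × ℤ) × F))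
    (hW : ∀ u ∈ W, A v u) : W.card ≤ 9 * Fintype.card F := by
  have h : W ⊆ (Finset.Icc (v.1.1 - 1) (v.1.1 + 1) ×ˢ Finset.Icc (v.1.2 - 1) (v.1.2 + 1)) ×ˢ
      (Finset.univ : Finset F) := by
    intro u hu
    obtain ⟨h1, h2⟩ := hA.loc v u (hW u hu)
    rw [abs_le] at h1 h2
    simp only [Finset.mem_product, Finset.mem_Icc, Finset.mem_univ, and_true]
    refine ⟨⟨?_, ?_⟩, ?_, ?_⟩ <;> linarith [h1.1, h1.2, h2.1, h2.2]
  refine (Finset.card_le_card h).trans ?_
  rw [Finset.card_product, Finset.card_product, Int.card_Icc, Int.card_Icc, Finset.card_univ]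
  have e1 : (v.1.1 + 1 + 1 - (v.1.1 - 1)).toNat = 3 := by
    have : v.1.1 + 1 + 1 - (v.1.1 - 1) = 3 := by ring
    rw [this]; rfl
  have e2 : (v.1.2 + 1 + 1 - (v.1.2 - 1)).toNat = 3 := by
    have : v.1.2 + 1 + 1 - (v.1.2 - 1) = 3 := by ring
    rw [this]; rfl
  rw [e1, e2]

/-- The translation of the indices. -/
def sh (g : ℤ × ℤ) : (ℤ × ℤ) × F ≃ (ℤ × ℤ) × F := (Equiv.addRight g).prodCongr (Equiv.refl F)

lemma mom_per (hA : Per A) (k : ℕ) (a : (ℤ × ℤ) × F) : mom A k a = mom A k (0, a.2) := by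
  have h := mom_equiv A (sh a.1) (fun v w => hA.per a.1 v w) k (0, a.2)
  have e : sh a.1 ((0 : ℤ × ℤ), a.2) = a := by
    show ((0 : ℤ × ℤ) + a.1, a.2) = a
    rw [zero_add]
  rw [e] at h
  exact h

open Classical in
/-- The number of tiles of V of class c. -/
noncomputable def cnt (V : Finset ((ℤ × ℤ) × F)) (c : F) : ℕ := (V.filter fun v => v.2 = c).card

lemma cnt_le (V : Finset ((ℤ × ℤ) × F)) (c c' : F) : cnt V c ≤ cnt V c' + (bd V 0).card := by
  classical
  have h : (V.filter fun v => v.2 = c) ⊆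
      (V.filter fun v => v.2 = c ∧ (v.1, c') ∈ V) ∪ bd V 0 := by
    intro v hv
    rw [Finset.mem_filter] at hv
    rw [Finset.mem_union]
    by_cases h1 : (v.1, c') ∈ V
    · exact Or.inl (Finset.mem_filter.mpr ⟨hv.1, hv.2, h1⟩)
    · exact Or.inr (Finset.mem_filter.mpr ⟨hv.1, (v.1, c'), h1, by simp, by simp⟩)
  refine (Finset.card_le_card h).trans ((Finset.card_union_le _ _).trans ?_)
  refine Nat.add_le_add_right ?_ _
  refine Finset.card_le_card_of_injOn (fun v => (v.1, c')) ?_ ?_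
  · intro v hv
    have hv' := (Finset.mem_filter.mp (Finset.mem_coe.mp hv)).2.2
    exact Finset.mem_coe.mpr (Finset.mem_filter.mpr ⟨hv', rfl⟩)
  · intro v hv w hw hvw
    have h1 := (Finset.mem_filter.mp (Finset.mem_coe.mp hv)).2.1
    have h2 := (Finset.mem_filter.mp (Finset.mem_coe.mp hw)).2.1
    have h3 : v.1 = w.1 := (Prod.mk.inj hvw).1
    exact Prod.ext h3 (h1.trans h2.symm)

lemma sum_cnt (V : Finset ((ℤ × ℤ) × F)) : ∑ c, cnt V c = V.card := by
  classical
  unfold cnt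
  have := Finset.card_eq_sum_card_fiberwise (f := fun v : (ℤ × ℤ) × F => v.2) (s := V)
    (t := Finset.univ) (fun _ _ => by simp)
  exact this.symm

lemma cnt_abs [Nonempty F] (V : Finset ((ℤ × ℤ) × F)) (c : F) :
    |(cnt V c : ℝ) - (V.card : ℝ) / Fintype.card F| ≤ (bd V 0).card := by
  have hF : (0 : ℝ) < Fintype.card F := by exact_mod_cast Fintype.card_pos
  have hs : ∑ c', (cnt V c' : ℝ) = V.card := by exact_mod_cast sum_cnt V
  have h1 : (Fintype.card F : ℝ) * cnt V c ≤ V.card + Fintype.card F * (bd V 0).card := by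
    have : ∑ _c' : F, (cnt V c : ℝ) ≤ ∑ c' : F, ((cnt V c' : ℝ) + (bd V 0).card) :=
      Finset.sum_le_sum fun c' _ => by exact_mod_cast cnt_le V c c'
    rw [Finset.sum_add_distrib, hs] at this
    simpa using this
  have h2 : (V.card : ℝ) ≤ Fintype.card F * cnt V c + Fintype.card F * (bd V 0).card := by
    have : ∑ c' : F, (cnt V c' : ℝ) ≤ ∑ _c' : F, ((cnt V c : ℝ) + (bd V 0).card) :=
      Finset.sum_le_sum fun c' _ => by exact_mod_cast cnt_le V c' c
    rw [Finset.sum_add_distrib, hs] at this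
    simpa using this
  have e : (Fintype.card F : ℝ) * ((V.card : ℝ) / Fintype.card F) = V.card := by
    field_simp
  rw [abs_le]
  constructor
  · by_contra hc
    push Not at hc
    nlinarith
  · by_contra hc
    push Not at hc
    nlinarith

/-- The limit moments. -/
noncomputable def avg (A : (ℤ × ℤ) × F → (ℤ × ℤ) × F → Prop) (k : ℕ) : ℝ :=
  (∑ c : F, mom A k (0, c)) / Fintype.card F

noncomputable def bdm (A : (ℤ × ℤ) × F → (ℤ × ℤ) × F → Prop) (k : ℕ) : ℝ :=
  ∑ c : F, |mom A k (0, c)|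

lemma sum_mom (hA : Per A) (k : ℕ) (V : Finset ((ℤ × ℤ) × F)) :
    ∑ v ∈ V, mom A k v = ∑ c : F, (cnt V c : ℝ) * mom A k (0, c) := by
  classical
  rw [← Finset.sum_fiberwise V (fun v => v.2) fun v => mom A k v]
  refine Finset.sum_congr rfl fun c _ => ?_
  have : ∀ v ∈ V.filter (fun v => v.2 = c), mom A k v = mom A k (0, c) := by
    intro v hv
    rw [mom_per hA k v, (Finset.mem_filter.mp hv).2]
  rw [Finset.sum_congr rfl this, Finset.sum_const, nsmul_eq_mul]
  rfl

lemma avg_abs [Nonempty F] (hA : Per A) (k : ℕ) (V : Finset ((ℤ × ℤ) × F)) :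
    |∑ v ∈ V, mom A k v - (V.card : ℝ) * avg A k| ≤ (bd V 0).card * bdm A k := by
  rw [sum_mom hA]
  have h : ∑ c : F, (cnt V c : ℝ) * mom A k (0, c) - (V.card : ℝ) * avg A k =
      ∑ c : F, ((cnt V c : ℝ) - (V.card : ℝ) / Fintype.card F) * mom A k (0, c) := by
    unfold avg
    simp only [sub_mul, Finset.sum_sub_distrib, ← Finset.mul_sum]
    ring
  rw [h]
  refine (Finset.abs_sum_le_sum_abs _ _).trans ?_
  unfold bdm
  rw [Finset.mul_sum]
  refine Finset.sum_le_sum fun c _ => ?_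
  rw [abs_mul]
  exact mul_le_mul_of_nonneg_right (cnt_abs V c) (abs_nonneg _)

lemma mom_le (hA : Per A) (k : ℕ) (v : (ℤ × ℤ) × F) : |mom A k v| ≤ bdm A k := by
  rw [mom_per hA]
  exact Finset.single_le_sum (f := fun c => |mom A k (0, c)|) (fun _ _ => abs_nonneg _)
    (Finset.mem_univ v.2)

section

variable (T : Tiling ((ℤ × ℤ) × F))

/-- The trace of the power of the Laplacian. -/
noncomputable def tr (V : Finset ((ℤ × ℤ) × F)) (k : ℕ) : ℝ :=
  ∑ v : V, (T.lap V ^ k) (dl v) v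

lemma tr_abs (hA : Per T.Adj) (k : ℕ) (V : Finset ((ℤ × ℤ) × F)) :
    |tr T V k - ∑ v ∈ V, mom T.Adj k v| ≤
      (bd V k).card * ((2 * ((9 * Fintype.card F : ℕ) : ℝ)) ^ k + bdm T.Adj k) := by
  classical
  set C := (2 * ((9 * Fintype.card F : ℕ) : ℝ)) ^ k + bdm T.Adj k with hC
  have h1 : tr T V k - ∑ v ∈ V, mom T.Adj k v =
      ∑ v : V, ((T.lap V ^ k) (dl v) v - mom T.Adj k (v : (ℤ × ℤ) × F)) := by
    rw [Finset.sum_sub_distrib, Finset.sum_coe_sort V fun v => mom T.Adj k v]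
    rfl
  rw [h1]
  refine (Finset.abs_sum_le_sum_abs _ _).trans ?_
  have h2 : ∀ v ∈ (Finset.univ : Finset V),
      |(T.lap V ^ k) (dl v) v - mom T.Adj k (v : (ℤ × ℤ) × F)| ≤
        if (v : (ℤ × ℤ) × F) ∈ bd V k then C else 0 := by
    intro v _
    split_ifs with hv
    · refine (abs_sub _ _).trans ?_
      exact add_le_add (pow_bound T _ (deg_le hA) V v k v) (mom_le hA k v)
    · rw [local_mom T V v k, sub_self, abs_zero]
      intro w hw
      by_contra hwV
      apply hv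
      obtain ⟨a1, a2⟩ := near_le hA k v w hw
      exact Finset.mem_filter.mpr ⟨v.2, w, hwV, a1, a2⟩
  refine (Finset.sum_le_sum h2).trans ?_
  rw [Finset.sum_coe_sort V fun v => if v ∈ bd V k then C else 0, ← Finset.sum_filter,
    Finset.sum_const, nsmul_eq_mul]
  have h3 : V.filter (fun v => v ∈ bd V k) = bd V k := by
    ext v
    simp only [Finset.mem_filter, bd]
    tauto
  rw [h3]

theorem tr_lim [Nonempty F] (hA : Per T.Adj) (k : ℕ) (V : ℕ → Finset ((ℤ × ℤ) × F))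
    (hpos : ∀ᶠ n in atTop, 0 < (V n).card)
    (hbd : ∀ m : ℕ, Tendsto (fun n => ((bd (V n) m).card : ℝ) / (V n).card) atTop (𝓝 0)) :
    Tendsto (fun n => tr T (V n) k / (V n).card) atTop (𝓝 (avg T.Adj k)) := by
  set C := (2 * ((9 * Fintype.card F : ℕ) : ℝ)) ^ k + bdm T.Adj k with hC
  rw [← tendsto_sub_nhds_zero_iff]
  have h1 := (hbd k).mul_const C
  have h2 := (hbd 0).mul_const (bdm T.Adj k)
  have h3 := h1.add h2
  rw [zero_mul, zero_mul, add_zero] at h3
  refine squeeze_zero_norm' ?_ h3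
  filter_upwards [hpos] with n hn
  have hn' : (0 : ℝ) < (V n).card := by exact_mod_cast hn
  rw [Real.norm_eq_abs]
  have e : tr T (V n) k / (V n).card - avg T.Adj k =
      ((tr T (V n) k - ∑ v ∈ V n, mom T.Adj k v) +
        (∑ v ∈ V n, mom T.Adj k v - ((V n).card : ℝ) * avg T.Adj k)) / (V n).card := by
    field_simp
    ring
  rw [e, abs_div, abs_of_pos hn', div_le_iff₀ hn']
  refine (abs_add_le _ _).trans ?_
  have e2 : (((bd (V n) k).card : ℝ) / (V n).card * C +
      ((bd (V n) 0).card : ℝ) / (V n).card * bdm T.Adj k) * (V n).card =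
      (bd (V n) k).card * C + (bd (V n) 0).card * bdm T.Adj k := by
    field_simp
  rw [e2]
  exact add_le_add (tr_abs T hA k (V n)) (avg_abs hA k (V n))

end

end EX83

end Pool.Agent.Lib.MP_82ac4a_mp
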