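import Pool.Agent.Lib.MP_82ac4a_mp.Defs30

/-! Row POLY (49): every tile is a polygon. -/

namespace Pool.Agent.Lib.MP_82ac4a_mp

namespace Poly49

/-- Half plane description. -/
def HP (P : Set (ℝ × ℝ)) : Prop :=
  ∃ H : Finset (ℝ × ℝ × ℝ), P = {p | ∀ h ∈ H, h.1 * p.1 + h.2.1 * p.2 ≤ h.2.2}

lemma hp_half (a b c : ℝ) : HP {p : ℝ × ℝ | a * p.1 + b * p.2 ≤ c} := by
  refine ⟨{(a, b, c)}, ?_⟩
  ext p
  simp

lemma hp_inter {P Q : Set (ℝ × ℝ)} (hP : HP P) (hQ : HP Q) : HP (P ∩ Q) := by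
  classical
  obtain ⟨H, rfl⟩ := hP
  obtain ⟨K, rfl⟩ := hQ
  refine ⟨H ∪ K, ?_⟩
  ext p
  simp only [Set.mem_inter_iff, Set.mem_ofPred_eq, Finset.mem_union]
  constructor
  · rintro ⟨h1, h2⟩ h (hh | hh)
    · exact h1 h hh
    · exact h2 h hh
  · intro h
    exact ⟨fun k hk => h k (Or.inl hk), fun k hk => h k (Or.inr hk)⟩

/-- Pull back along an affine coordinate map. -/
lemma hp_pull {P : Set (ℝ × ℝ)} (hP : HP P) (a1 b1 c1 a2 b2 c2 : ℝ) :
    HP {p : ℝ × ℝ | (a1 * p.1 + b1 * p.2 + c1, a2 * p.1 + b2 * p.2 + c2) ∈ P} := by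
  classical
  obtain ⟨H, rfl⟩ := hP
  refine ⟨H.image (fun h => (h.1 * a1 + h.2.1 * a2, h.1 * b1 + h.2.1 * b2,
    h.2.2 - h.1 * c1 - h.2.1 * c2)), ?_⟩
  ext p
  simp only [Set.mem_ofPred_eq, Finset.mem_image, forall_exists_index, and_imp,
    forall_apply_eq_imp_iff₂]
  constructor
  · intro h k hk
    have := h k hk
    nlinarith
  · intro h k hk
    have := h k hk
    nlinarith


lemma uu_low {R x y : ℝ} (hx : 0 ≤ x) (hy : y ≤ R) : uu R x y = x := by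
  unfold uu
  rw [max_eq_right (by linarith), min_eq_right (by linarith)]
  ring

lemma uu_high {R x y : ℝ} (hy : R ≤ y) : uu R x y = max (x / 2) (x - (y - R)) := by
  unfold uu
  rw [max_eq_left (by linarith)]
  rcases le_total (x / 2) (y - R) with h | h
  · rw [min_eq_left h, max_eq_left (by linarith)]
    ring
  · rw [min_eq_right h, max_eq_right (by linarith)]

/-- The box part of a cell. -/
def box (r : ℕ) : Set (ℝ × ℝ) := {q | 0 ≤ q.1 ∧ q.1 ≤ q.2 ∧ (r : ℝ) ≤ q.2 ∧ q.2 ≤ r + 1}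

lemma hp_box (r : ℕ) : HP (box r) := by
  have h : box r = (({p : ℝ × ℝ | (-1) * p.1 + 0 * p.2 ≤ 0} ∩ {p : ℝ × ℝ | 1 * p.1 + (-1) * p.2 ≤ 0}) ∩
      {p : ℝ × ℝ | 0 * p.1 + (-1) * p.2 ≤ -(r : ℝ)}) ∩ {p : ℝ × ℝ | 0 * p.1 + 1 * p.2 ≤ (r : ℝ) + 1} := by
    ext p
    simp only [box, Set.mem_ofPred_eq, Set.mem_inter_iff]
    constructor
    · rintro ⟨h1, h2, h3, h4⟩
      refine ⟨⟨⟨?_, ?_⟩, ?_⟩, ?_⟩ <;> linarith
    · rintro ⟨⟨⟨h1, h2⟩, h3⟩, h4⟩
      refine ⟨?_, ?_, ?_, ?_⟩ <;> linarith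
  rw [h]
  exact hp_inter (hp_inter (hp_inter (hp_half _ _ _) (hp_half _ _ _)) (hp_half _ _ _)) (hp_half _ _ _)

/-- Rows below R. -/
lemma hp_low (R : ℝ) (r : ℕ) (hr : (r : ℝ) + 1 ≤ R) (a b : ℝ) :
    HP {q : ℝ × ℝ | q ∈ box r ∧ a ≤ uu R q.1 q.2 ∧ uu R q.1 q.2 ≤ b} := by
  have h : {q : ℝ × ℝ | q ∈ box r ∧ a ≤ uu R q.1 q.2 ∧ uu R q.1 q.2 ≤ b} =
      (box r ∩ {p : ℝ × ℝ | (-1) * p.1 + 0 * p.2 ≤ -a}) ∩ {p : ℝ × ℝ | 1 * p.1 + 0 * p.2 ≤ b} := by
    ext p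
    simp only [Set.mem_ofPred_eq, Set.mem_inter_iff]
    constructor
    · rintro ⟨h1, h2, h3⟩
      rw [uu_low h1.1 (h1.2.2.2.trans hr)] at h2 h3
      exact ⟨⟨h1, by linarith⟩, by linarith⟩
    · rintro ⟨⟨h1, h2⟩, h3⟩
      rw [uu_low h1.1 (h1.2.2.2.trans hr)]
      exact ⟨h1, by linarith, by linarith⟩
  rw [h]
  exact hp_inter (hp_inter (hp_box r) (hp_half _ _ _)) (hp_half _ _ _)

/-- Rows above R, lower bound a at most r - R. -/
lemma hp_high1 (R : ℝ) (r : ℕ) (hr : R ≤ (r : ℝ)) (a b : ℝ) (ha : a ≤ r - R) :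
    HP {q : ℝ × ℝ | q ∈ box r ∧ a ≤ uu R q.1 q.2 ∧ uu R q.1 q.2 ≤ b} := by
  have h : {q : ℝ × ℝ | q ∈ box r ∧ a ≤ uu R q.1 q.2 ∧ uu R q.1 q.2 ≤ b} =
      ((box r ∩ {p : ℝ × ℝ | (-1/2) * p.1 + 0 * p.2 ≤ -a}) ∩ {p : ℝ × ℝ | (1/2) * p.1 + 0 * p.2 ≤ b}) ∩
        {p : ℝ × ℝ | 1 * p.1 + (-1) * p.2 ≤ b - R} := by
    ext p
    simp only [Set.mem_ofPred_eq, Set.mem_inter_iff]
    constructor
    · rintro ⟨h1, h2, h3⟩
      rw [uu_high (hr.trans h1.2.2.1)] at h2 h3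
      rw [max_le_iff] at h3
      have h4 : a ≤ p.1 / 2 := by
        rcases le_max_iff.1 h2 with h | h
        · exact h
        · have := h1.2.2.1
          linarith
      exact ⟨⟨⟨h1, by linarith⟩, by linarith [h3.1]⟩, by linarith [h3.2]⟩
    · rintro ⟨⟨⟨h1, h2⟩, h3⟩, h4⟩
      rw [uu_high (hr.trans h1.2.2.1)]
      exact ⟨h1, le_max_of_le_left (by linarith), max_le (by linarith) (by linarith)⟩
  rw [h]
  exact hp_inter (hp_inter (hp_inter (hp_box r) (hp_half _ _ _)) (hp_half _ _ _)) (hp_half _ _ _)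

/-- Rows above R, lower bound a at least r + 1 - R. -/
lemma hp_high2 (R : ℝ) (r : ℕ) (hr : R ≤ (r : ℝ)) (a b : ℝ) (ha : r + 1 - R ≤ a) :
    HP {q : ℝ × ℝ | q ∈ box r ∧ a ≤ uu R q.1 q.2 ∧ uu R q.1 q.2 ≤ b} := by
  have h : {q : ℝ × ℝ | q ∈ box r ∧ a ≤ uu R q.1 q.2 ∧ uu R q.1 q.2 ≤ b} =
      ((box r ∩ {p : ℝ × ℝ | (-1) * p.1 + 1 * p.2 ≤ -a + R}) ∩ {p : ℝ × ℝ | (1/2) * p.1 + 0 * p.2 ≤ b}) ∩
        {p : ℝ × ℝ | 1 * p.1 + (-1) * p.2 ≤ b - R} := by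
    ext p
    simp only [Set.mem_ofPred_eq, Set.mem_inter_iff]
    constructor
    · rintro ⟨h1, h2, h3⟩
      rw [uu_high (hr.trans h1.2.2.1)] at h2 h3
      rw [max_le_iff] at h3
      have h4 : a ≤ p.1 - (p.2 - R) := by
        rcases le_max_iff.1 h2 with h | h
        · have := h1.2.2.2
          linarith
        · exact h
      exact ⟨⟨⟨h1, by linarith⟩, by linarith [h3.1]⟩, by linarith [h3.2]⟩
    · rintro ⟨⟨⟨h1, h2⟩, h3⟩, h4⟩
      rw [uu_high (hr.trans h1.2.2.1)]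
      exact ⟨h1, le_max_of_le_right (by linarith), max_le (by linarith) (by linarith)⟩
  rw [h]
  exact hp_inter (hp_inter (hp_inter (hp_box r) (hp_half _ _ _)) (hp_half _ _ _)) (hp_half _ _ _)

lemma cell_eq (M r i : ℕ) : cell M r i = {q : ℝ × ℝ | q ∈ box r ∧
    ((wid M r * i : ℕ) : ℝ) ≤ uu (2 * M) q.1 q.2 ∧
    uu (2 * M) q.1 q.2 ≤ ((wid M r * (i + 1) : ℕ) : ℝ)} := by
  ext q
  simp only [cell, box, Set.mem_ofPred_eq]
  tauto

lemma hp_cell (M r i : ℕ) : HP (cell M r i) := by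
  rw [cell_eq]
  by_cases h1 : r < 2 * M
  · apply hp_low
    have : r + 1 ≤ 2 * M := h1
    exact_mod_cast this
  · have h2 : 2 * M ≤ r := not_lt.1 h1
    have h2' : (2 * M : ℝ) ≤ (r : ℝ) := by exact_mod_cast h2
    have hdich : wid M r * i + 2 * M ≤ r ∨ r + 1 ≤ wid M r * i + 2 * M := by omega
    rcases hdich with h | h
    · apply hp_high1 _ _ h2'
      have : ((wid M r * i + 2 * M : ℕ) : ℝ) ≤ (r : ℝ) := by exact_mod_cast h
      push_cast at this ⊢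
      linarith
    · apply hp_high2 _ _ h2'
      have : ((r + 1 : ℕ) : ℝ) ≤ ((wid M r * i + 2 * M : ℕ) : ℝ) := by exact_mod_cast h
      push_cast at this ⊢
      linarith

lemma hp_tl (M : ℕ) (a : Idx M) : HP (tl M a) := by
  have hc := hp_cell M (a.2.2.1.1 : ℕ) (a.2.2.1.2 : ℕ)
  obtain ⟨g, ⟨s, t, b⟩, c⟩ := a
  cases b
  · have := hp_pull hc (sg s) 0 (-(sg s * (2 * (4 * M + 1) * g.1))) 0 (sg t)
      (-(sg t * (2 * (4 * M + 1) * g.2)))
    convert this using 1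
    ext p
    simp only [tl, unfold, Set.mem_ofPred_eq, Bool.false_eq_true, if_false]
    ring_nf
  · have := hp_pull hc 0 (sg t) (-(sg t * (2 * (4 * M + 1) * g.2))) (sg s) 0
      (-(sg s * (2 * (4 * M + 1) * g.1)))
    convert this using 1
    ext p
    simp only [tl, unfold, Set.mem_ofPred_eq, if_true]
    ring_nf


lemma sg_sq (b : Bool) : sg b * sg b = 1 := by
  cases b <;> simp [sg]

lemma abs_sg (b : Bool) : |sg b| = 1 := by
  cases b <;> simp [sg]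

lemma bdd_tl (M : ℕ) (a : Idx M) : Bornology.IsBounded (tl M a) := by
  obtain ⟨g, ⟨s, t, b⟩, c⟩ := a
  refine (Metric.isBounded_closedBall (x := ((2 * (4 * M + 1) * g.1 : ℝ), (2 * (4 * M + 1) * g.2 : ℝ)))
    (r := ((c.1.1 : ℕ) : ℝ) + 1)).subset ?_
  intro p hp
  have key : ∀ (u : Bool) (z d B : ℝ), 0 ≤ sg u * (z - d) → sg u * (z - d) ≤ B → |z - d| ≤ B := by
    intro u z d B h1 h2
    have h3 : |z - d| = |sg u * (z - d)| := by rw [abs_mul, abs_sg, one_mul]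
    rw [h3, abs_of_nonneg h1]
    exact h2
  rw [Metric.mem_closedBall, Prod.dist_eq, Real.dist_eq, Real.dist_eq]
  cases b
  · simp only [tl, unfold, cell, Set.mem_ofPred_eq, Bool.false_eq_true, if_false] at hp
    obtain ⟨h1, h2, h3, h4, -, -⟩ := hp
    exact max_le (key s _ _ _ h1 (h2.trans h4)) (key t _ _ _ (h1.trans h2) h4)
  · simp only [tl, unfold, cell, Set.mem_ofPred_eq, if_true] at hp
    obtain ⟨h1, h2, h3, h4, -, -⟩ := hp
    exact max_le (key s _ _ _ (h1.trans h2) h4) (key t _ _ _ h1 (h2.trans h4))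

lemma continuous_uu (R : ℝ) : Continuous fun q : ℝ × ℝ => uu R q.1 q.2 := by
  unfold uu
  fun_prop

/-- The open cell. -/
def ocell (M r i : ℕ) : Set (ℝ × ℝ) :=
  {q | 0 < q.1 ∧ q.1 < q.2 ∧ (r : ℝ) < q.2 ∧ q.2 < r + 1 ∧
    ((wid M r * i : ℕ) : ℝ) < uu (2 * M) q.1 q.2 ∧
    uu (2 * M) q.1 q.2 < ((wid M r * (i + 1) : ℕ) : ℝ)}

lemma isOpen_ocell (M r i : ℕ) : IsOpen (ocell M r i) := by
  have hc := continuous_uu (2 * M)
  have h1 : IsOpen {q : ℝ × ℝ | 0 < q.1} := isOpen_lt continuous_const continuous_fst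
  have h2 : IsOpen {q : ℝ × ℝ | q.1 < q.2} := isOpen_lt continuous_fst continuous_snd
  have h3 : IsOpen {q : ℝ × ℝ | (r : ℝ) < q.2} := isOpen_lt continuous_const continuous_snd
  have h4 : IsOpen {q : ℝ × ℝ | q.2 < (r : ℝ) + 1} := isOpen_lt continuous_snd continuous_const
  have h5 : IsOpen {q : ℝ × ℝ | ((wid M r * i : ℕ) : ℝ) < uu (2 * M) q.1 q.2} :=
    isOpen_lt continuous_const hc
  have h6 : IsOpen {q : ℝ × ℝ | uu (2 * M) q.1 q.2 < ((wid M r * (i + 1) : ℕ) : ℝ)} :=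
    isOpen_lt hc continuous_const
  exact h1.inter (h2.inter (h3.inter (h4.inter (h5.inter h6))))

lemma ocell_sub (M r i : ℕ) : ocell M r i ⊆ cell M r i := by
  rintro q ⟨h1, h2, h3, h4, h5, h6⟩
  exact ⟨h1.le, h2.le, h3.le, h4.le, h5.le, h6.le⟩

lemma ocell_nonempty (M r i : ℕ) (hr : r < 4 * M + 1) (hi : i < num M r) :
    (ocell M r i).Nonempty := by
  unfold num at hi
  by_cases h1 : r < 2 * M
  · rw [if_pos h1] at hi
    have hw : wid M r = 2 := by unfold wid; rw [if_neg (by omega)]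
    have h2 : 2 * i ≤ r := by omega
    have h2' : 2 * (i : ℝ) ≤ (r : ℝ) := by exact_mod_cast h2
    have h3' : (r : ℝ) + 1 ≤ 2 * M := by exact_mod_cast h1
    have hi0 : (0 : ℝ) ≤ i := Nat.cast_nonneg i
    refine ⟨(2 * (i : ℝ) + 1 / 4, (r : ℝ) + 1 / 2), ?_⟩
    unfold ocell
    rw [hw]
    have hu : uu (2 * M) (2 * (i : ℝ) + 1 / 4) ((r : ℝ) + 1 / 2) = 2 * (i : ℝ) + 1 / 4 :=
      uu_low (by linarith) (by linarith)
    simp only [Set.mem_ofPred_eq, hu]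
    push_cast
    refine ⟨?_, ?_, ?_, ?_, ?_, ?_⟩ <;> linarith
  · rw [if_neg h1] at hi
    have h2 : 2 * M ≤ r := not_lt.1 h1
    have h2' : (2 * M : ℝ) ≤ (r : ℝ) := by exact_mod_cast h2
    have hi0 : (0 : ℝ) ≤ i := Nat.cast_nonneg i
    have hr' : (r : ℝ) ≤ 4 * M := by
      have : r ≤ 4 * M := by omega
      exact_mod_cast this
    by_cases h3 : r < 4 * M
    · rw [if_pos h3] at hi
      have hw : wid M r = 1 := by unfold wid; rw [if_pos ⟨h2, h3⟩]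
      have hi1 : (i : ℝ) + 1 ≤ 2 * M := by exact_mod_cast hi
      by_cases h4 : i + 2 * M ≤ r
      · have h4' : (i : ℝ) + 2 * M ≤ r := by exact_mod_cast h4
        refine ⟨(2 * (i : ℝ) + 1 / 4, (r : ℝ) + 1 / 2), ?_⟩
        unfold ocell
        rw [hw]
        have hu : uu (2 * M) (2 * (i : ℝ) + 1 / 4) ((r : ℝ) + 1 / 2) =
            max ((2 * (i : ℝ) + 1 / 4) / 2) ((2 * (i : ℝ) + 1 / 4) - ((r : ℝ) + 1 / 2 - 2 * M)) :=
          uu_high (by linarith)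
        simp only [Set.mem_ofPred_eq, hu]
        push_cast
        refine ⟨by linarith, by linarith, by linarith, by linarith, lt_max_of_lt_left (by linarith),
          max_lt (by linarith) (by linarith)⟩
      · have h4' : (r : ℝ) + 1 ≤ i + 2 * M := by
          have : r + 1 ≤ i + 2 * M := by omega
          exact_mod_cast this
        refine ⟨((i : ℝ) + (r - 2 * M) + 3 / 4, (r : ℝ) + 1 / 2), ?_⟩
        unfold ocell
        rw [hw]
        have hu : uu (2 * M) ((i : ℝ) + (r - 2 * M) + 3 / 4) ((r : ℝ) + 1 / 2) =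
            max (((i : ℝ) + (r - 2 * M) + 3 / 4) / 2)
              (((i : ℝ) + (r - 2 * M) + 3 / 4) - ((r : ℝ) + 1 / 2 - 2 * M)) :=
          uu_high (by linarith)
        simp only [Set.mem_ofPred_eq, hu]
        push_cast
        refine ⟨by linarith, by linarith, by linarith, by linarith, lt_max_of_lt_right (by linarith),
          max_lt (by linarith) (by linarith)⟩
    · rw [if_neg h3] at hi
      have hw : wid M r = 2 := by unfold wid; rw [if_neg (by omega)]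
      have hrr : r = 4 * M := by omega
      subst hrr
      have hi1 : (i : ℝ) ≤ M := by
        have : i ≤ M := by omega
        exact_mod_cast this
      refine ⟨(4 * (i : ℝ) + 1 / 4, ((4 * M : ℕ) : ℝ) + 1 / 2), ?_⟩
      unfold ocell
      rw [hw]
      have hu : uu (2 * M) (4 * (i : ℝ) + 1 / 4) (((4 * M : ℕ) : ℝ) + 1 / 2) =
          max ((4 * (i : ℝ) + 1 / 4) / 2)
            ((4 * (i : ℝ) + 1 / 4) - (((4 * M : ℕ) : ℝ) + 1 / 2 - 2 * M)) :=
        uu_high (by linarith)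
      simp only [Set.mem_ofPred_eq, hu]
      push_cast
      refine ⟨by linarith, by linarith, by linarith, by linarith, lt_max_of_lt_left (by linarith),
        max_lt (by linarith) (by linarith)⟩

lemma continuous_unfold (M : ℕ) (g : ℤ × ℤ) (c : Bool × Bool × Bool) :
    Continuous (unfold M g c) := by
  obtain ⟨s, t, b⟩ := c
  cases b
  · have : unfold M g (s, t, false) = fun p => (sg s * (p.1 - 2 * (4 * M + 1) * g.1),
      sg t * (p.2 - 2 * (4 * M + 1) * g.2)) := by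
      funext p
      simp [unfold]
    rw [this]
    fun_prop
  · have : unfold M g (s, t, true) = fun p => (sg t * (p.2 - 2 * (4 * M + 1) * g.2),
      sg s * (p.1 - 2 * (4 * M + 1) * g.1)) := by
      funext p
      simp [unfold]
    rw [this]
    fun_prop

lemma unfold_surj (M : ℕ) (g : ℤ × ℤ) (c : Bool × Bool × Bool) (q : ℝ × ℝ) :
    ∃ p, unfold M g c p = q := by
  obtain ⟨s, t, b⟩ := c
  have h1 := sg_sq s
  have h2 := sg_sq t
  cases b
  · refine ⟨(sg s * q.1 + 2 * (4 * M + 1) * g.1, sg t * q.2 + 2 * (4 * M + 1) * g.2), ?_⟩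
    simp only [unfold, Bool.false_eq_true, if_false]
    ext
    · show sg s * (sg s * q.1 + 2 * (4 * M + 1) * g.1 - 2 * (4 * M + 1) * g.1) = q.1
      rw [add_sub_cancel_right, ← mul_assoc, h1, one_mul]
    · show sg t * (sg t * q.2 + 2 * (4 * M + 1) * g.2 - 2 * (4 * M + 1) * g.2) = q.2
      rw [add_sub_cancel_right, ← mul_assoc, h2, one_mul]
  · refine ⟨(sg s * q.2 + 2 * (4 * M + 1) * g.1, sg t * q.1 + 2 * (4 * M + 1) * g.2), ?_⟩
    simp only [unfold, if_true]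
    ext
    · show sg t * (sg t * q.1 + 2 * (4 * M + 1) * g.2 - 2 * (4 * M + 1) * g.2) = q.1
      rw [add_sub_cancel_right, ← mul_assoc, h2, one_mul]
    · show sg s * (sg s * q.2 + 2 * (4 * M + 1) * g.1 - 2 * (4 * M + 1) * g.1) = q.2
      rw [add_sub_cancel_right, ← mul_assoc, h1, one_mul]

lemma int_tl (M : ℕ) (a : Idx M) : (interior (tl M a)).Nonempty := by
  obtain ⟨q, hq⟩ := ocell_nonempty M (a.2.2.1.1 : ℕ) (a.2.2.1.2 : ℕ) a.2.2.1.1.2 a.2.2.2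
  obtain ⟨p, hp⟩ := unfold_surj M a.1 a.2.1 q
  refine ⟨p, mem_interior.2 ⟨unfold M a.1 a.2.1 ⁻¹' ocell M (a.2.2.1.1 : ℕ) (a.2.2.1.2 : ℕ), ?_,
    (isOpen_ocell _ _ _).preimage (continuous_unfold M a.1 a.2.1), ?_⟩⟩
  · intro z hz
    exact ocell_sub _ _ _ hz
  · show unfold M a.1 a.2.1 p ∈ ocell M (a.2.2.1.1 : ℕ) (a.2.2.1.2 : ℕ)
    rw [hp]
    exact hq

end Poly49

theorem poly49 : StPoly := fun M _ a =>
  ⟨Poly49.hp_tl M a, Poly49.bdd_tl M a, Poly49.int_tl M a⟩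

end Pool.Agent.Lib.MP_82ac4a_mp
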