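import Pool.Agent.Lib.MP_82ac4a_mp.Defs30

/-!
MP_82ac4a (29): row PROT, finitely many prototiles, the same ones for all M.
-/

namespace Pool.Agent.Lib.MP_82ac4a_mp

namespace Prot29

/-- The five shapes. -/
def shp (k : Fin 5) : Set (ℝ × ℝ) :=
  if k = 0 then {q | 0 ≤ q.1 ∧ q.1 ≤ 2 ∧ 0 ≤ q.2 ∧ q.2 ≤ 1}
  else if k = 1 then {q | 0 ≤ q.1 ∧ q.1 ≤ q.2 ∧ 0 ≤ q.2 ∧ q.2 ≤ 1}
  else if k = 2 then {q | 0 ≤ q.1 ∧ q.1 ≤ q.2 + 1 ∧ 0 ≤ q.2 ∧ q.2 ≤ 1}
  else if k = 3 then {q | q.2 ≤ q.1 ∧ q.1 ≤ q.2 + 1 ∧ 0 ≤ q.2 ∧ q.2 ≤ 1}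
  else {q | 0 ≤ q.1 ∧ q.1 ≤ 4 ∧ 0 ≤ q.2 ∧ q.2 ≤ 1}

theorem mem0 (x y : ℝ) : (x, y) ∈ shp 0 ↔ 0 ≤ x ∧ x ≤ 2 ∧ 0 ≤ y ∧ y ≤ 1 := by
  simp [shp]

theorem mem1 (x y : ℝ) : (x, y) ∈ shp 1 ↔ 0 ≤ x ∧ x ≤ y ∧ 0 ≤ y ∧ y ≤ 1 := by
  simp [shp]

theorem mem2 (x y : ℝ) : (x, y) ∈ shp 2 ↔ 0 ≤ x ∧ x ≤ y + 1 ∧ 0 ≤ y ∧ y ≤ 1 := by
  simp [shp]

theorem mem3 (x y : ℝ) : (x, y) ∈ shp 3 ↔ y ≤ x ∧ x ≤ y + 1 ∧ 0 ≤ y ∧ y ≤ 1 := by
  simp [shp]

theorem mem4 (x y : ℝ) : (x, y) ∈ shp 4 ↔ 0 ≤ x ∧ x ≤ 4 ∧ 0 ≤ y ∧ y ≤ 1 := by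
  simp [shp]

theorem mem_cell (M r i : ℕ) (x y : ℝ) : (x, y) ∈ cell M r i ↔
    (0 ≤ x ∧ x ≤ y ∧ (r : ℝ) ≤ y ∧ y ≤ r + 1 ∧
    ((wid M r * i : ℕ) : ℝ) ≤ uu (2 * M) x y ∧
    uu (2 * M) x y ≤ ((wid M r * (i + 1) : ℕ) : ℝ)) := Iff.rfl

theorem uu_low {R x y : ℝ} (hx : 0 ≤ x) (hy : y ≤ R) : uu R x y = x := by
  unfold uu
  rw [max_eq_right (by linarith), min_eq_right (by linarith)]
  ring

theorem le_uu {R x y c : ℝ} (hy : R ≤ y) :
    c ≤ uu R x y ↔ (2 * c ≤ x ∨ c + (y - R) ≤ x) := by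
  unfold uu
  rw [max_eq_left (by linarith)]
  rcases le_total (x / 2) (y - R) with h | h
  · rw [min_eq_left h]
    constructor
    · intro h1
      left
      linarith
    · rintro (h1 | h1) <;> linarith
  · rw [min_eq_right h]
    constructor
    · intro h1
      right
      linarith
    · rintro (h1 | h1) <;> linarith

theorem uu_le {R x y c : ℝ} (hy : R ≤ y) :
    uu R x y ≤ c ↔ (x ≤ 2 * c ∧ x ≤ c + (y - R)) := by
  unfold uu
  rw [max_eq_left (by linarith)]
  rcases le_total (x / 2) (y - R) with h | h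
  · rw [min_eq_left h]
    constructor
    · intro h1
      constructor <;> linarith
    · rintro ⟨h1, h2⟩
      linarith
  · rw [min_eq_right h]
    constructor
    · intro h1
      constructor <;> linarith
    · rintro ⟨h1, h2⟩
      linarith

/-- Every cell is a translate of one of the five shapes. -/
theorem cell_shape (M r i : ℕ) (hM : 1 ≤ M) (hr : r < 4 * M + 1) (hi : i < num M r) :
    ∃ k : Fin 5, ∃ a b : ℝ, ∀ x y : ℝ, (x, y) ∈ cell M r i ↔ (x - a, y - b) ∈ shp k := by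
  by_cases h1 : r < 2 * M
  · have hw : wid M r = 2 := by
      unfold wid
      rw [if_neg (by omega)]
    have hn : i ≤ r / 2 := by
      unfold num at hi
      rw [if_pos h1] at hi
      omega
    have h1' : (r : ℝ) + 1 ≤ 2 * M := by exact_mod_cast h1
    have key : ∀ x y : ℝ, (x, y) ∈ cell M r i ↔
        (0 ≤ x ∧ x ≤ y ∧ (r : ℝ) ≤ y ∧ y ≤ r + 1 ∧ 2 * (i : ℝ) ≤ x ∧ x ≤ 2 * (i : ℝ) + 2) := by
      intro x y
      rw [mem_cell, hw]
      constructor
      · rintro ⟨a1, a2, a3, a4, a5, a6⟩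
        rw [uu_low a1 (by linarith)] at a5 a6
        push_cast at a5 a6
        exact ⟨a1, a2, a3, a4, by linarith, by linarith⟩
      · rintro ⟨a1, a2, a3, a4, a5, a6⟩
        rw [uu_low a1 (by linarith)]
        push_cast
        exact ⟨a1, a2, a3, a4, by linarith, by linarith⟩
    have hi0 : (0 : ℝ) ≤ i := Nat.cast_nonneg i
    rcases Nat.lt_or_ge (2 * i + 1) r with h2 | h2
    · -- rectangle
      have h2' : 2 * (i : ℝ) + 2 ≤ r := by exact_mod_cast h2
      refine ⟨0, 2 * i, r, fun x y => ?_⟩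
      rw [key, mem0]
      constructor
      · rintro ⟨a1, a2, a3, a4, a5, a6⟩
        refine ⟨?_, ?_, ?_, ?_⟩ <;> linarith
      · rintro ⟨a1, a2, a3, a4⟩
        refine ⟨?_, ?_, ?_, ?_, ?_, ?_⟩ <;> linarith
    · rcases Nat.lt_or_ge (2 * i) r with h3 | h3
      · have h4 : r = 2 * i + 1 := by omega
        have h4' : (r : ℝ) = 2 * i + 1 := by exact_mod_cast h4
        refine ⟨2, 2 * i, r, fun x y => ?_⟩
        rw [key, mem2]
        constructor
        · rintro ⟨a1, a2, a3, a4, a5, a6⟩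
          refine ⟨?_, ?_, ?_, ?_⟩ <;> linarith
        · rintro ⟨a1, a2, a3, a4⟩
          refine ⟨?_, ?_, ?_, ?_, ?_, ?_⟩ <;> linarith
      · have h4 : r = 2 * i := by omega
        have h4' : (r : ℝ) = 2 * i := by exact_mod_cast h4
        refine ⟨1, 2 * i, r, fun x y => ?_⟩
        rw [key, mem1]
        constructor
        · rintro ⟨a1, a2, a3, a4, a5, a6⟩
          refine ⟨?_, ?_, ?_, ?_⟩ <;> linarith
        · rintro ⟨a1, a2, a3, a4⟩
          refine ⟨?_, ?_, ?_, ?_, ?_, ?_⟩ <;> linarith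
  · have h1' : 2 * (M : ℝ) ≤ r := by exact_mod_cast (not_lt.mp h1)
    have hi0 : (0 : ℝ) ≤ i := Nat.cast_nonneg i
    by_cases h2 : r < 4 * M
    · have hw : wid M r = 1 := by
        unfold wid
        rw [if_pos ⟨not_lt.mp h1, h2⟩]
      have hn : i < 2 * M := by
        unfold num at hi
        rw [if_neg h1, if_pos h2] at hi
        exact hi
      have hn' : (i : ℝ) + 1 ≤ 2 * M := by exact_mod_cast hn
      have h2' : (r : ℝ) + 1 ≤ 4 * M := by exact_mod_cast h2
      have key : ∀ x y : ℝ, (x, y) ∈ cell M r i ↔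
          (0 ≤ x ∧ x ≤ y ∧ (r : ℝ) ≤ y ∧ y ≤ r + 1 ∧
            (2 * (i : ℝ) ≤ x ∨ (i : ℝ) + (y - 2 * M) ≤ x) ∧
            (x ≤ 2 * (i : ℝ) + 2 ∧ x ≤ (i : ℝ) + 1 + (y - 2 * M))) := by
        intro x y
        rw [mem_cell, hw]
        constructor
        · rintro ⟨a1, a2, a3, a4, a5, a6⟩
          rw [le_uu (by linarith)] at a5
          rw [uu_le (by linarith)] at a6
          push_cast at a5 a6
          refine ⟨a1, a2, a3, a4, ?_, ?_, ?_⟩
          · rcases a5 with a5 | a5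
            · left; linarith
            · right; linarith
          · linarith [a6.1]
          · linarith [a6.2]
        · rintro ⟨a1, a2, a3, a4, a5, a6, a7⟩
          rw [le_uu (by linarith), uu_le (by linarith)]
          push_cast
          refine ⟨a1, a2, a3, a4, ?_, ?_, ?_⟩
          · rcases a5 with a5 | a5
            · left; linarith
            · right; linarith
          · linarith
          · linarith
      rcases Nat.lt_or_ge (2 * M + i) r with h3 | h3
      · -- i + 1 <= k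
        have h3' : 2 * (M : ℝ) + i + 1 ≤ r := by exact_mod_cast h3
        refine ⟨0, 2 * i, r, fun x y => ?_⟩
        rw [key, mem0]
        constructor
        · rintro ⟨a1, a2, a3, a4, a5, a6, a7⟩
          refine ⟨?_, ?_, ?_, ?_⟩
          · rcases a5 with a5 | a5 <;> linarith
          · linarith
          · linarith
          · linarith
        · rintro ⟨a1, a2, a3, a4⟩
          refine ⟨?_, ?_, ?_, ?_, Or.inl ?_, ?_, ?_⟩ <;> linarith
      · rcases Nat.lt_or_ge r (2 * M + i) with h4 | h4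
        · have h4' : (r : ℝ) + 1 ≤ 2 * M + i := by exact_mod_cast h4
          refine ⟨3, i + r - 2 * M, r, fun x y => ?_⟩
          rw [key, mem3]
          constructor
          · rintro ⟨a1, a2, a3, a4, a5, a6, a7⟩
            refine ⟨?_, ?_, ?_, ?_⟩
            · rcases a5 with a5 | a5 <;> linarith
            · linarith
            · linarith
            · linarith
          · rintro ⟨a1, a2, a3, a4⟩
            refine ⟨?_, ?_, ?_, ?_, Or.inr ?_, ?_, ?_⟩ <;> linarith
        · have h5 : r = 2 * M + i := by omega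
          have h5' : (r : ℝ) = 2 * M + i := by exact_mod_cast h5
          refine ⟨2, 2 * i, r, fun x y => ?_⟩
          rw [key, mem2]
          constructor
          · rintro ⟨a1, a2, a3, a4, a5, a6, a7⟩
            refine ⟨?_, ?_, ?_, ?_⟩
            · rcases a5 with a5 | a5 <;> linarith
            · linarith
            · linarith
            · linarith
          · rintro ⟨a1, a2, a3, a4⟩
            refine ⟨?_, ?_, ?_, ?_, Or.inl ?_, ?_, ?_⟩ <;> linarith
    · have h3 : r = 4 * M := by omega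
      have h3' : (r : ℝ) = 4 * M := by exact_mod_cast h3
      have hw : wid M r = 2 := by
        unfold wid
        rw [if_neg (by omega)]
      have hn : i < M + 1 := by
        unfold num at hi
        rw [if_neg h1, if_neg h2] at hi
        exact hi
      have hn' : (i : ℝ) ≤ M := by exact_mod_cast (Nat.lt_succ_iff.mp hn)
      have hM' : (1 : ℝ) ≤ M := by exact_mod_cast hM
      have key : ∀ x y : ℝ, (x, y) ∈ cell M r i ↔
          (0 ≤ x ∧ x ≤ y ∧ (r : ℝ) ≤ y ∧ y ≤ r + 1 ∧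
            (4 * (i : ℝ) ≤ x ∨ 2 * (i : ℝ) + (y - 2 * M) ≤ x) ∧
            (x ≤ 4 * (i : ℝ) + 4 ∧ x ≤ 2 * (i : ℝ) + 2 + (y - 2 * M))) := by
        intro x y
        rw [mem_cell, hw]
        constructor
        · rintro ⟨a1, a2, a3, a4, a5, a6⟩
          rw [le_uu (by linarith)] at a5
          rw [uu_le (by linarith)] at a6
          push_cast at a5 a6
          refine ⟨a1, a2, a3, a4, ?_, ?_, ?_⟩
          · rcases a5 with a5 | a5
            · left; linarith
            · right; linarith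
          · linarith [a6.1]
          · linarith [a6.2]
        · rintro ⟨a1, a2, a3, a4, a5, a6, a7⟩
          rw [le_uu (by linarith), uu_le (by linarith)]
          push_cast
          refine ⟨a1, a2, a3, a4, ?_, ?_, ?_⟩
          · rcases a5 with a5 | a5
            · left; linarith
            · right; linarith
          · linarith
          · linarith
      rcases Nat.lt_or_ge i M with h4 | h4
      · have h4' : (i : ℝ) + 1 ≤ M := by exact_mod_cast h4
        refine ⟨4, 4 * i, r, fun x y => ?_⟩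
        rw [key, mem4]
        constructor
        · rintro ⟨a1, a2, a3, a4, a5, a6, a7⟩
          refine ⟨?_, ?_, ?_, ?_⟩
          · rcases a5 with a5 | a5 <;> linarith
          · linarith
          · linarith
          · linarith
        · rintro ⟨a1, a2, a3, a4⟩
          refine ⟨?_, ?_, ?_, ?_, Or.inl ?_, ?_, ?_⟩ <;> linarith
      · have h5 : i = M := by omega
        have h5' : (i : ℝ) = M := by exact_mod_cast h5
        refine ⟨1, r, r, fun x y => ?_⟩
        rw [key, mem1]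
        constructor
        · rintro ⟨a1, a2, a3, a4, a5, a6, a7⟩
          refine ⟨?_, ?_, ?_, ?_⟩
          · rcases a5 with a5 | a5 <;> linarith
          · linarith
          · linarith
          · linarith
        · rintro ⟨a1, a2, a3, a4⟩
          refine ⟨?_, ?_, ?_, ?_, Or.inl ?_, ?_, ?_⟩ <;> linarith

/-- The eight linear maps. -/
noncomputable def fold (c : Bool × Bool × Bool) (p : ℝ × ℝ) : ℝ × ℝ :=
  if c.2.2 then (sg c.2.1 * p.2, sg c.1 * p.1) else (sg c.1 * p.1, sg c.2.1 * p.2)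

theorem sg_mul (b : Bool) : sg b * sg b = 1 := by
  cases b <;> simp [sg]

theorem unfold_eq (M : ℕ) (g : ℤ × ℤ) (c : Bool × Bool × Bool) (p : ℝ × ℝ) (a b : ℝ) :
    ∃ v : ℝ × ℝ, ∀ p : ℝ × ℝ,
      ((unfold M g c p).1 - a, (unfold M g c p).2 - b) = fold c (p - v) := by
  obtain ⟨s, t, d⟩ := c
  cases d
  · refine ⟨(2 * (4 * M + 1) * g.1 + sg s * a, 2 * (4 * M + 1) * g.2 + sg t * b), fun p => ?_⟩
    simp only [unfold, fold, Prod.fst_sub, Prod.snd_sub, Bool.false_eq_true, if_false]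
    ext
    · simp only
      linear_combination a * sg_mul s
    · simp only
      linear_combination b * sg_mul t
  · refine ⟨(2 * (4 * M + 1) * g.1 + sg s * b, 2 * (4 * M + 1) * g.2 + sg t * a), fun p => ?_⟩
    simp only [unfold, fold, Prod.fst_sub, Prod.snd_sub, if_true]
    ext
    · simp only
      linear_combination a * sg_mul t
    · simp only
      linear_combination b * sg_mul s

end Prot29

open Prot29 in
theorem prot29 : StProt := by
  refine ⟨Set.range fun x : (Bool × Bool × Bool) × Fin 5 => {p | fold x.1 p ∈ shp x.2},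
    Set.finite_range _, fun M hM a => ?_⟩
  obtain ⟨k, α, β, hk⟩ := cell_shape M (a.2.2.1.1 : ℕ) (a.2.2.1.2 : ℕ) hM a.2.2.1.1.2 a.2.2.2
  obtain ⟨v, hv⟩ := unfold_eq M a.1 a.2.1 (0, 0) α β
  refine ⟨_, ⟨(a.2.1, k), rfl⟩, v, ?_⟩
  ext p
  have h1 := hk (unfold M a.1 a.2.1 p).1 (unfold M a.1 a.2.1 p).2
  rw [hv p] at h1
  exact h1

end Pool.Agent.Lib.MP_82ac4a_mp
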