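import Mathlib

/-!
MP_82ac4a (38): a positive normalized linear functional on the continuous functions of an
interval is the integral against a probability measure.
-/

namespace Pool.Agent.Lib.MP_82ac4a_mp

open Filter Topology MeasureTheory CompactlySupported

theorem rmkGen38 (S : Set ℝ) (b : ℝ) (hS : ∀ x ∈ S, -b ≤ x ∧ x ≤ b) (L : (ℝ → ℝ) → ℝ)
    (hadd : ∀ f g : ℝ → ℝ, Continuous f → Continuous g → L (fun x => f x + g x) = L f + L g)
    (hsmul : ∀ (c : ℝ) (f : ℝ → ℝ), Continuous f → L (fun x => c * f x) = c * L f)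
    (hpos : ∀ f : ℝ → ℝ, Continuous f → (∀ x ∈ S, 0 ≤ f x) → 0 ≤ L f)
    (hone : L (fun _ => 1) = 1) :
    ∃ ν : Measure ℝ, IsProbabilityMeasure ν ∧ ∀ f : ℝ → ℝ, Continuous f → HasCompactSupport f →
      ∫ x, f x ∂ν = L f := by
  have hmono : ∀ f g : ℝ → ℝ, Continuous f → Continuous g → (∀ x ∈ S, f x ≤ g x) →
      L f ≤ L g := by
    intro f g hf hg h
    have h1 := hadd g (fun x => (-1) * f x) hg (by fun_prop)
    have h2 := hsmul (-1) f hf
    have h3 := hpos (fun x => g x + (-1) * f x) (by fun_prop) (fun x hx => by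
      have := h x hx
      show (0 : ℝ) ≤ g x + (-1) * f x
      linarith)
    rw [h1, h2] at h3
    linarith
  let Λl : C_c(ℝ, ℝ) →ₗ[ℝ] ℝ :=
    { toFun := fun f => L f
      map_add' := fun f g => by
        have := hadd f g f.continuous g.continuous
        exact this
      map_smul' := fun c f => by
        have := hsmul c f f.continuous
        exact this }
  let Λ : C_c(ℝ, ℝ) →ₚ[ℝ] ℝ := .mk Λl fun f g hfg => by
    exact hmono f g f.continuous g.continuous fun x _ => hfg x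
  have hΛ : ∀ f : C_c(ℝ, ℝ), Λ f = L f := fun f => rfl
  have hint : ∀ f : ℝ → ℝ, Continuous f → HasCompactSupport f →
      ∫ x, f x ∂(RealRMK.rieszMeasure Λ) = L f := by
    intro f hf hc
    have := RealRMK.integral_rieszMeasure Λ ⟨⟨f, hf⟩, hc⟩
    exact this
  refine ⟨RealRMK.rieszMeasure Λ, ⟨?_⟩, hint⟩
  -- bump functions
  have hbump : ∀ R : ℝ, ∃ f : C_c(ℝ, ℝ), (∀ x ∈ Set.Icc (-R) R, f x = 1) ∧
      (∀ x, 0 ≤ f x) ∧ ∀ x, f x ≤ 1 := by
    intro R
    obtain ⟨f, h1, -, h2, h3⟩ := exists_continuous_one_zero_of_isCompact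
      (isCompact_Icc : IsCompact (Set.Icc (-R) R)) (isClosed_empty) (by simp)
    refine ⟨⟨f, h2⟩, fun x hx => h1 hx, fun x => (h3 x).1, fun x => (h3 x).2⟩
  have hle : ∀ f : C_c(ℝ, ℝ), (∀ x, f x ≤ 1) → Λ f ≤ 1 := by
    intro f hf
    rw [hΛ, ← hone]
    exact hmono f _ f.continuous continuous_const fun x _ => hf x
  apply le_antisymm
  · have hU : (Set.univ : Set ℝ) = ⋃ n : ℕ, Set.Icc (-(n : ℝ)) n := by
      symm
      rw [Set.eq_univ_iff_forall]
      intro x
      obtain ⟨n, hn⟩ := exists_nat_ge |x|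
      exact Set.mem_iUnion.2 ⟨n, (abs_le.1 hn)⟩
    rw [hU, (show Monotone fun n : ℕ => Set.Icc (-(n : ℝ)) n from fun m n hmn => by
      have : (m : ℝ) ≤ n := by exact_mod_cast hmn
      exact Set.Icc_subset_Icc (by linarith) this).measure_iUnion]
    refine iSup_le fun n => ?_
    obtain ⟨f, h1, h2, h3⟩ := hbump n
    refine (RealRMK.rieszMeasure_le_of_eq_one Λ h2 isCompact_Icc h1).trans ?_
    exact ENNReal.ofReal_le_one.2 (hle f h3)
  · obtain ⟨f, h1, h2, h3⟩ := hbump b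
    have h4 : Λ f = 1 := by
      apply le_antisymm (hle f h3)
      rw [hΛ, ← hone]
      refine hmono _ f continuous_const f.continuous fun x hx => ?_
      rw [h1 x (hS x hx)]
    have := RealRMK.le_rieszMeasure_tsupport_subset Λ (f := f) (fun x => ⟨h2 x, h3 x⟩)
      (V := Set.univ) (Set.subset_univ _)
    rw [h4] at this
    simpa using this

theorem rmk38 (L : (ℝ → ℝ) → ℝ) (b : ℝ)
    (hadd : ∀ f g : ℝ → ℝ, Continuous f → Continuous g → L (fun x => f x + g x) = L f + L g)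
    (hsmul : ∀ (a : ℝ) (f : ℝ → ℝ), Continuous f → L (fun x => a * f x) = a * L f)
    (hpos : ∀ f : ℝ → ℝ, Continuous f → (∀ x ∈ Set.Icc (-b) b, 0 ≤ f x) → 0 ≤ L f)
    (h1 : L (fun _ => 1) = 1) :
    ∃ ν : MeasureTheory.Measure ℝ, MeasureTheory.IsProbabilityMeasure ν ∧
      ∀ f : ℝ → ℝ, Continuous f → HasCompactSupport f → ∫ x, f x ∂ν = L f :=
  rmkGen38 (Set.Icc (-b) b) b (fun _ hx => ⟨hx.1, hx.2⟩) L hadd hsmul hpos h1

end Pool.Agent.Lib.MP_82ac4a_mp
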