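import Pool.Agent.Lib.MP_82ac4a_mp.EXDOS83

/-!
MP_82ac4a (83): the density of states measure is unique.
-/

set_option autoImplicit false

namespace Pool.Agent.Lib.MP_82ac4a_mp

open Filter Topology MeasureTheory

theorem uniq83 {ι : Type} (T : Tiling ι) (hV : ∃ V, T.VanHove V) (μ ν : Measure ℝ)
    (hμ : T.IsDOS μ) (hν : T.IsDOS ν) : μ = ν := by
  obtain ⟨V, hV⟩ := hV
  have h1 := hμ.1
  have h2 := hν.1
  refine MeasureTheory.Measure.ext_of_integral_eq_on_compactlySupported fun f => ?_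
  exact tendsto_nhds_unique (hμ.2 V hV f f.continuous f.hasCompactSupport)
    (hν.2 V hV f f.continuous f.hasCompactSupport)

/-- Existence and uniqueness of the density of states measure. -/
theorem existsUnique83 (M : ℕ) (T : Tiling (Idx M)) (hT : T.tile = tl M) : ∃! ν, T.IsDOS ν := by
  obtain ⟨ν, hν⟩ := exdos83 M T hT
  exact ⟨ν, hν, fun μ hμ => uniq83 T ⟨VH41.vol M, VH41.vanHove M T hT⟩ μ ν hμ hν⟩

end Pool.Agent.Lib.MP_82ac4a_mp
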